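import Pool.Agent.H21.QG.Defs
import Pool.Agent.H16.MT9

/-!
JOB QG-12 (about 200 lines): positivity of the bracket gives two primes in different clusters and no
prime at an uncovered position. Adaptation of `bracket_pos` (H16/MT9.lean).

Notation: `x = exp ℓ`, `τ = tent (x/3) ν`, `η = t0/ν`. Suppose `brQ > 0`.
* Since `- τ ≤ 0`, `- 1/2000 < 0`, and the terms with minus signs are `≤ 0`, some `aw ℓ y (ν + h j) ≠ 0`, so
  `ν ≥ x/10`, `ν > y` as in `bracket_pos`, and `η ≤ 10 t0/x ≤ 1/(10^6 K^2)` by `hbig`.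
* Let `N i = #{j | cl j = i ∧ (ν + h j).Prime ∧ ν + h j ≤ ⌊x⌋₊}`. For every `u ≤ t0`:
  `aw ℓ y (ν + u) ≤ ℓ (τ + η)` always, `= 0` unless `ν + u` is a prime `≤ ⌊x⌋₊`, and
  `aw ℓ y (ν + u) ≥ (ℓ - 3)(τ - η)` if `ν + u` is prime (`log (ν + u) ≥ log (x/10) ≥ ℓ - 3`, `tent ≥ τ - η`, and
  `aw ≥ 0` if `τ - η < 0`). (`tent_lip`.)
* Hence, with `b = 2/t - 1/t^2 ≥ 0` (`t ≥ 1`) and `1/t^2 ≤ 1`,
  `∑ j, aw/ℓ ≤ (∑ i, N i)(τ + η)`; pairs: `≥ ∑ i (N i^2 - N i) (1 - 3/ℓ)(τ - η)`; uncovered primes (number `V`, those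
  `ν + u` prime with `u ∈ U`): `≥ V (1 - 3/ℓ)(τ - η)`.
  `brQ ≤ τ (∑ i (2 N i/t - N i^2/t^2) - 1 - 5 V) + (error) - 1/2000`, where, if `V ≤ ..`: to avoid a large `V`, keep only
  one uncovered prime in the sum (the sum over `U` is `≥` its single term); i.e. prove by contradiction: assume
  there is an uncovered prime `ν + i`, or that all primes `ν + h j ≤ x` lie in one cluster.
  The error is `≤ 5 K * 2 η + 5 K^2 (3/ℓ + η) + 10 (3/ℓ + η) ≤ 1/4000` by `hbig`, `hℓK` (`N i ≤ K` since `cl` has fibres of size `≤ K`).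
* `2 N/t - N^2/t^2 = 1 - (N/t - 1)^2 ≤ 1`, and it is `0` for `N = 0`. If at most one `N i` is nonzero the bracket is
  `≤ τ (1 - 1) + 1/4000 - 1/2000 < 0`. If there is an uncovered prime: `≤ τ (5 - 1 - 5) + .. < 0`.
* covered positions `i ∉ T` not in `U` give no primes exactly as in `bracket_pos`.
-/

set_option autoImplicit false

open Finset Filter Topology

namespace Pool.Agent.H21.QG

open Pool.Agent.H16

variable {k : ℕ}

/-- the bracket -/
noncomputable def brQ (ℓ : ℝ) (y : ℕ) (t : ℝ) (cl : Fin k → Fin 5) (h : Fin k → ℕ) (U : Finset ℕ)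
    (ν : ℕ) : ℝ :=
  (2 / t - 1 / t ^ 2) * ∑ j, aw ℓ y (ν + h j) / ℓ -
    1 / t ^ 2 * ∑ j, ∑ j' ∈ Finset.univ.filter (fun j' => j' ≠ j ∧ cl j' = cl j),
      aw ℓ y (ν + h j) * (if (ν + h j').Prime ∧ y < ν + h j' then 1 else 0) / ℓ -
    tent (Real.exp ℓ / 3) ν - 1 / 2000 - 10 * ∑ i ∈ U, aw ℓ y (ν + i) / ℓ

lemma tent_nn {x0 : ℝ} (hx0 : 0 < x0) (n : ℕ) : 0 ≤ tent x0 n := by
  rcases Nat.eq_zero_or_pos n with rfl | hn
  · unfold tent
    rw [Nat.cast_zero, zero_div, zero_div, zero_div]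
    linarith
  · exact tent_nonneg _ _ hx0 (by exact_mod_cast hn)

lemma aw_loc {ℓ : ℝ} (hℓ : 30 ≤ ℓ) {y ν t0 : ℕ} (hνx : Real.exp ℓ / 10 ≤ ν) (hyν : y < ν) {u : ℕ}
    (hu : u ≤ t0) :
    (aw ℓ y (ν + u) / ℓ ≤ if (ν + u).Prime ∧ ν + u ≤ ⌊Real.exp ℓ⌋₊ then
      tent (Real.exp ℓ / 3) ν + (t0 / ν + 3 / ℓ) else 0) ∧
    ((ν + u).Prime → tent (Real.exp ℓ / 3) ν - (t0 / ν + 3 / ℓ) ≤ aw ℓ y (ν + u) / ℓ) := by
  have hℓ0 : 0 < ℓ := by linarith
  set x := Real.exp ℓ with hx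
  have hx0 : 0 < x := Real.exp_pos _
  have hν0 : (0 : ℝ) < ν := by linarith
  have hνu : (0 : ℝ) < ((ν + u : ℕ) : ℝ) := by
    push_cast
    have : (0 : ℝ) ≤ u := Nat.cast_nonneg _
    linarith
  have htt : (0 : ℝ) ≤ t0 / ν := by positivity
  have h3 : (0 : ℝ) ≤ 3 / ℓ := by positivity
  have hdist : Real.log ((ν + u : ℕ) : ℝ) - Real.log ν ≤ t0 / ν := by
    rw [← Real.log_div hνu.ne' hν0.ne']
    refine (Real.log_le_sub_one_of_pos (by positivity)).trans ?_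
    rw [div_sub_one hν0.ne', div_le_div_iff_of_pos_right hν0]
    push_cast
    have : (u : ℝ) ≤ t0 := by exact_mod_cast hu
    linarith
  have hlip := tent_lip (x / 3) (ν : ℝ) ((ν + u : ℕ) : ℝ) (by positivity) hν0
    (by exact_mod_cast Nat.le_add_right _ _)
  have hl1 := (abs_le.mp hlip).1
  have hl2 := (abs_le.mp hlip).2
  have hten0 : 0 ≤ tent (x / 3) ((ν + u : ℕ) : ℝ) := tent_nonneg _ _ (by positivity) hνu
  have hten1 : tent (x / 3) ((ν + u : ℕ) : ℝ) ≤ 1 := tent_le_one _ _ (by positivity) hνu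
  constructor
  · by_cases h0 : aw ℓ y (ν + u) = 0
    · rw [h0, zero_div]
      split_ifs
      · have := tent_nn (x0 := x / 3) (by positivity) ν
        linarith
      · exact le_rfl
    · obtain ⟨hp, _, _⟩ := aw_ne_zero h0
      have hle : ν + u ≤ ⌊x⌋₊ := by
        by_contra hcon
        exact h0 (aw_zero_of_big y _ (Nat.lt_of_floor_lt (by omega : ⌊x⌋₊ < ν + u)).le)
      rw [if_pos ⟨hp, hle⟩, div_le_iff₀ hℓ0]
      have hlog : Real.log ((ν + u : ℕ) : ℝ) ≤ ℓ := by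
        calc Real.log ((ν + u : ℕ) : ℝ) ≤ Real.log x :=
              Real.log_le_log hνu ((Nat.le_floor_iff hx0.le).mp hle)
          _ = ℓ := by rw [hx, Real.log_exp]
      have haw : aw ℓ y (ν + u) ≤ ℓ * tent (x / 3) ((ν + u : ℕ) : ℝ) := by
        unfold aw
        split_ifs
        · exact mul_le_mul_of_nonneg_right hlog hten0
        · positivity
      refine haw.trans ?_
      rw [mul_comm]
      exact mul_le_mul_of_nonneg_right (by linarith) hℓ0.le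
  · intro hp
    have haw : aw ℓ y (ν + u) = Real.log ((ν + u : ℕ) : ℝ) * tent (x / 3) ((ν + u : ℕ) : ℝ) := by
      unfold aw
      rw [if_pos ⟨hp, by omega⟩]
    rw [le_div_iff₀ hℓ0, haw]
    have hlog10 : Real.log 10 ≤ 3 := by
      rw [Real.log_le_iff_le_exp (by norm_num)]
      have h1 : Real.exp 3 = Real.exp 1 * Real.exp 1 * Real.exp 1 := by
        rw [← Real.exp_add, ← Real.exp_add]; norm_num
      have h2 := Real.exp_one_gt_d9
      rw [h1]
      have h4 : (2.7 : ℝ) * 2.7 ≤ Real.exp 1 * Real.exp 1 :=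
        mul_le_mul (by linarith) (by linarith) (by norm_num) (Real.exp_pos _).le
      have h5 : (2.7 : ℝ) * 2.7 * 2.7 ≤ Real.exp 1 * Real.exp 1 * Real.exp 1 :=
        mul_le_mul h4 (by linarith) (by norm_num) (by positivity)
      linarith
    have hlog : ℓ - 3 ≤ Real.log ((ν + u : ℕ) : ℝ) := by
      have h1 : Real.log (x / 10) ≤ Real.log ((ν + u : ℕ) : ℝ) := by
        apply Real.log_le_log (by positivity)
        push_cast
        have : (0 : ℝ) ≤ u := Nat.cast_nonneg _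
        linarith
      rw [Real.log_div hx0.ne' (by norm_num), hx, Real.log_exp] at h1
      linarith
    have h6 := mul_le_mul_of_nonneg_right hlog hten0
    have h7 : tent (x / 3) (ν : ℝ) - t0 / ν ≤ tent (x / 3) ((ν + u : ℕ) : ℝ) := by linarith
    have h8 : ℓ * (tent (x / 3) (ν : ℝ) - t0 / ν) ≤ ℓ * tent (x / 3) ((ν + u : ℕ) : ℝ) :=
      mul_le_mul_of_nonneg_left h7 hℓ0.le
    have h9 : (tent (x / 3) (ν : ℝ) - (t0 / ν + 3 / ℓ)) * ℓ =
        ℓ * (tent (x / 3) (ν : ℝ) - t0 / ν) - 3 := by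
      field_simp
      ring
    rw [h9]
    linarith

lemma q_bounds {t : ℝ} (ht : 1 ≤ t) : 0 ≤ 2 / t - 1 / t ^ 2 ∧ 2 / t - 1 / t ^ 2 ≤ 1 ∧
    0 ≤ 1 / t ^ 2 ∧ 1 / t ^ 2 ≤ 1 := by
  have ht0 : 0 < t := by linarith
  refine ⟨?_, ?_, by positivity, ?_⟩
  · have : 2 / t - 1 / t ^ 2 = (2 * t - 1) / t ^ 2 := by field_simp
    rw [this]
    exact div_nonneg (by linarith) (by positivity)
  · have : 2 / t - 1 / t ^ 2 = 1 - (1 - 1 / t) ^ 2 := by field_simp; ring
    rw [this]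
    linarith [sq_nonneg (1 - 1 / t)]
  · rw [div_le_one (by positivity)]
    exact one_le_pow₀ ht

/-- one cluster, numerically -/
lemma cl_num {t N τ δ K : ℝ} (ht : 1 ≤ t) (hN : 0 ≤ N) (hNK : N ≤ K) (hδ : 0 ≤ δ) :
    (2 / t - 1 / t ^ 2) * (N * (τ + δ)) - 1 / t ^ 2 * (N * ((N - 1) * (τ - δ))) ≤
      τ * (1 - (N / t - 1) ^ 2) + δ * (K + K ^ 2) := by
  obtain ⟨h1, h2, h3, h4⟩ := q_bounds ht
  have ht0 : 0 < t := by linarith
  have e : (2 / t - 1 / t ^ 2) * (N * (τ + δ)) - 1 / t ^ 2 * (N * ((N - 1) * (τ - δ))) =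
      τ * (1 - (N / t - 1) ^ 2) + δ * ((2 / t - 1 / t ^ 2) * N + 1 / t ^ 2 * (N * (N - 1))) := by
    field_simp
    ring
  rw [e]
  have h5 : (2 / t - 1 / t ^ 2) * N ≤ K := by
    calc (2 / t - 1 / t ^ 2) * N ≤ 1 * N := mul_le_mul_of_nonneg_right h2 hN
      _ ≤ K := by linarith
  have h6 : 1 / t ^ 2 * (N * (N - 1)) ≤ K ^ 2 := by
    calc 1 / t ^ 2 * (N * (N - 1)) ≤ 1 / t ^ 2 * (N * N) :=
          mul_le_mul_of_nonneg_left (mul_le_mul_of_nonneg_left (by linarith) hN) h3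
      _ ≤ 1 * (N * N) := mul_le_mul_of_nonneg_right h4 (by positivity)
      _ ≤ K * K := by
          rw [one_mul]
          exact mul_le_mul hNK hNK hN (by linarith)
      _ = K ^ 2 := by ring
  have h7 := mul_le_mul_of_nonneg_left (add_le_add h5 h6) hδ
  linarith

/-- one cluster -/
lemma cl_bound {A I : Fin k → ℝ} {t τ δ : ℝ} {K : ℕ} (ht : 1 ≤ t) (hδ : 0 ≤ δ)
    (p : Fin k → Prop) [DecidablePred p] (C : Finset (Fin k)) (hC : #C ≤ K) (hA0 : ∀ j, 0 ≤ A j)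
    (hI0 : ∀ j, 0 ≤ I j) (hI1 : ∀ j, p j → I j = 1)
    (hA1 : ∀ j, p j → A j ≤ τ + δ) (hA2 : ∀ j, ¬ p j → A j ≤ 0) (hA3 : ∀ j, p j → τ - δ ≤ A j) :
    (2 / t - 1 / t ^ 2) * ∑ j ∈ C, A j - 1 / t ^ 2 * ∑ j ∈ C, ∑ j' ∈ C.erase j, A j * I j' ≤
      τ * (1 - (#(C.filter p) / t - 1) ^ 2) + δ * (K + (K : ℝ) ^ 2) := by
  obtain ⟨h1, h2, h3, h4⟩ := q_bounds ht
  set N : ℝ := (#(C.filter p) : ℝ) with hN
  have hN0 : 0 ≤ N := Nat.cast_nonneg _
  have hNK : N ≤ K := by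
    rw [hN]
    exact_mod_cast (Finset.card_filter_le _ _).trans hC
  have hs1 : ∑ j ∈ C, A j ≤ N * (τ + δ) := by
    calc ∑ j ∈ C, A j ≤ ∑ j ∈ C, (if p j then τ + δ else 0) := by
          apply Finset.sum_le_sum
          intro j _
          split_ifs with hp
          · exact hA1 j hp
          · exact hA2 j hp
      _ = N * (τ + δ) := by rw [← Finset.sum_filter, Finset.sum_const, nsmul_eq_mul]
  have hs2 : N * ((N - 1) * (τ - δ)) ≤ ∑ j ∈ C, ∑ j' ∈ C.erase j, A j * I j' := by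
    calc N * ((N - 1) * (τ - δ)) = ∑ j ∈ C.filter p, ∑ j' ∈ (C.filter p).erase j, (τ - δ) := by
          have : ∀ j ∈ C.filter p, ∑ j' ∈ (C.filter p).erase j, (τ - δ) = (N - 1) * (τ - δ) := by
            intro j hj
            rw [Finset.sum_const, nsmul_eq_mul, Finset.card_erase_of_mem hj,
              Nat.cast_sub (Finset.card_pos.mpr ⟨j, hj⟩), Nat.cast_one]
          rw [Finset.sum_congr rfl this, Finset.sum_const, nsmul_eq_mul]
      _ ≤ ∑ j ∈ C.filter p, ∑ j' ∈ (C.filter p).erase j, A j * I j' := by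
          apply Finset.sum_le_sum
          intro j hj
          apply Finset.sum_le_sum
          intro j' hj'
          rw [hI1 j' (Finset.mem_filter.mp (Finset.mem_of_mem_erase hj')).2, mul_one]
          exact hA3 j (Finset.mem_filter.mp hj).2
      _ ≤ ∑ j ∈ C.filter p, ∑ j' ∈ C.erase j, A j * I j' := by
          apply Finset.sum_le_sum
          intro j _
          apply Finset.sum_le_sum_of_subset_of_nonneg
            (Finset.erase_subset_erase _ (Finset.filter_subset _ _))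
          intro j' _ _
          exact mul_nonneg (hA0 j) (hI0 j')
      _ ≤ ∑ j ∈ C, ∑ j' ∈ C.erase j, A j * I j' := by
          apply Finset.sum_le_sum_of_subset_of_nonneg (Finset.filter_subset _ _)
          intro j _ _
          exact Finset.sum_nonneg (fun j' _ => mul_nonneg (hA0 j) (hI0 j'))
  have h5 := mul_le_mul_of_nonneg_left hs1 h1
  have h6 := mul_le_mul_of_nonneg_left hs2 h3
  have h7 := cl_num (τ := τ) ht hN0 hNK hδ
  linarith

theorem brQ_pos {K : ℕ} (hK : 1 ≤ K) {ℓ : ℝ} (hℓ : 30 ≤ ℓ) {t : ℝ} (ht : 1 ≤ t)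
    (cl : Fin k → Fin 5) (hcl : ∀ i, #(Finset.univ.filter (fun j => cl j = i)) ≤ K)
    (h : Fin k → ℕ) (T : Finset ℕ)
    (hT : ∀ i, i ∈ T ↔ ∃ j, h j = i) (z e t0 y A0 : ℕ) (a : ℕ → ℕ)
    (hA0 : ∀ p, p.Prime → p ≤ z → p ∣ A0 + a p) (htT : ∀ j, h j < t0)
    (hy : (y : ℝ) ≤ Real.exp (ℓ / 2)) (hzy : z ≤ y)
    (hbig : 10 ^ 8 * (K : ℝ) ^ 2 * t0 ≤ Real.exp ℓ) (hℓK : 10 ^ 8 * (K : ℝ) ^ 2 ≤ ℓ)
    (ν : ℕ) (hν : ν ≡ A0 [MOD WW z e])
    (hpos : 0 < brQ ℓ y t cl h (uncovT T z e t0 a) ν) :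
    (∃ j j', cl j ≠ cl j' ∧ (ν + h j).Prime ∧ ν + h j ≤ ⌊Real.exp ℓ⌋₊ ∧
      (ν + h j').Prime ∧ ν + h j' ≤ ⌊Real.exp ℓ⌋₊) ∧
      ∀ i < t0, i ∉ T → ¬ (ν + i).Prime := by
  classical
  have hℓ0 : 0 < ℓ := by linarith
  set x := Real.exp ℓ with hx
  have hx0 : 0 < x := Real.exp_pos _
  have hK1 : (1 : ℝ) ≤ K := by exact_mod_cast hK
  have hKsq : (1 : ℝ) ≤ (K : ℝ) ^ 2 := one_le_pow₀ hK1
  have ht00 : (0 : ℝ) ≤ t0 := Nat.cast_nonneg _
  have ht100 : (t0 : ℝ) ≤ x / 100 := by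
    have h1 : 100 * (t0 : ℝ) ≤ 10 ^ 8 * (K : ℝ) ^ 2 * t0 := by
      apply mul_le_mul_of_nonneg_right _ ht00
      linarith
    linarith
  obtain ⟨hq0, hq1, hr0, hr1⟩ := q_bounds ht
  set U := uncovT T z e t0 a with hU
  have hU0 : 0 ≤ ∑ i ∈ U, aw ℓ y (ν + i) / ℓ :=
    Finset.sum_nonneg (fun i _ => div_nonneg (aw_nonneg _ _ _) hℓ0.le)
  have hτ0 : 0 ≤ tent (x / 3) ν := tent_nn (by positivity) ν
  have hpair0 : 0 ≤ ∑ j, ∑ j' ∈ Finset.univ.filter (fun j' => j' ≠ j ∧ cl j' = cl j),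
      aw ℓ y (ν + h j) * (if (ν + h j').Prime ∧ y < ν + h j' then (1 : ℝ) else 0) / ℓ := by
    apply Finset.sum_nonneg
    intro j _
    apply Finset.sum_nonneg
    intro j' _
    apply div_nonneg (mul_nonneg (aw_nonneg _ _ _) _) hℓ0.le
    split_ifs <;> norm_num
  -- some shifted prime
  have hex : ∃ j, aw ℓ y (ν + h j) ≠ 0 := by
    by_contra hcon
    push Not at hcon
    unfold brQ at hpos
    rw [Finset.sum_eq_zero (fun j _ => by rw [hcon j, zero_div]), mul_zero] at hpos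
    have := mul_nonneg hr0 hpair0
    linarith
  obtain ⟨j0, hj0⟩ := hex
  obtain ⟨_, _, hbig'⟩ := aw_ne_zero hj0
  have hnx : x / 10 ≤ ν := by
    have h1 : ((ν + h j0 : ℕ) : ℝ) = ν + h j0 := by push_cast; ring
    have h2 : (h j0 : ℝ) ≤ t0 := by exact_mod_cast (htT j0).le
    rw [h1] at hbig'
    linarith
  have hexp2 : (20 : ℝ) ≤ Real.exp (ℓ / 2) := by
    have h1 := Real.add_one_le_exp (ℓ / 4)
    have h2 : Real.exp (ℓ / 2) = Real.exp (ℓ / 4) * Real.exp (ℓ / 4) := by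
      rw [← Real.exp_add]; congr 1; ring
    have h3 : (8 : ℝ) * 8 ≤ Real.exp (ℓ / 4) * Real.exp (ℓ / 4) :=
      mul_le_mul (by linarith) (by linarith) (by norm_num) (Real.exp_pos _).le
    linarith
  have hxx : x = Real.exp (ℓ / 2) * Real.exp (ℓ / 2) := by
    rw [hx, ← Real.exp_add]; congr 1; ring
  have hhalf10 : Real.exp (ℓ / 2) < x / 10 := by
    have h1 := Real.exp_pos (ℓ / 2)
    have h2 : 20 * Real.exp (ℓ / 2) ≤ x := by
      rw [hxx]
      exact mul_le_mul_of_nonneg_right hexp2 h1.le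
    linarith
  have hny : y < ν := by
    have : (y : ℝ) < ν := by linarith
    exact_mod_cast this
  have hn0 : (0 : ℝ) < ν := by linarith
  -- the error
  set τ := tent (x / 3) (ν : ℝ) with hτ
  set δ : ℝ := t0 / ν + 3 / ℓ with hδ
  have hδ0 : 0 ≤ δ := by positivity
  have hK2 : (0 : ℝ) < (K : ℝ) ^ 2 := by linarith
  have hδK : δ * (K : ℝ) ^ 2 ≤ 2 / 10 ^ 7 := by
    have h1 : (t0 : ℝ) / ν * (K : ℝ) ^ 2 ≤ 1 / 10 ^ 7 := by
      rw [div_mul_eq_mul_div, div_le_div_iff₀ hn0 (by norm_num)]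
      linarith
    have h2 : 3 / ℓ * (K : ℝ) ^ 2 ≤ 3 / 10 ^ 8 := by
      rw [div_mul_eq_mul_div, div_le_div_iff₀ hℓ0 (by norm_num)]
      linarith
    rw [hδ, add_mul]
    linarith
  have hδ1 : δ ≤ 2 / 10 ^ 7 := by
    have : δ * 1 ≤ δ * (K : ℝ) ^ 2 := mul_le_mul_of_nonneg_left hKsq hδ0
    linarith
  have hKK : (K : ℝ) ≤ (K : ℝ) ^ 2 := by
    rw [sq]
    exact le_mul_of_one_le_left (by linarith) hK1
  have hδerr : δ * (K + (K : ℝ) ^ 2) ≤ 4 / 10 ^ 7 := by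
    have : δ * K ≤ δ * (K : ℝ) ^ 2 := mul_le_mul_of_nonneg_left hKK hδ0
    rw [mul_add]
    linarith
  -- the clusters
  let p : Fin k → Prop := fun j => (ν + h j).Prime ∧ ν + h j ≤ ⌊x⌋₊
  let C : Fin 5 → Finset (Fin k) := fun i => Finset.univ.filter (fun j => cl j = i)
  let A : Fin k → ℝ := fun j => aw ℓ y (ν + h j) / ℓ
  let I : Fin k → ℝ := fun j => if (ν + h j).Prime ∧ y < ν + h j then (1 : ℝ) else 0
  have hloc := fun j => aw_loc hℓ hnx hny (htT j).le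
  have hcb : ∀ i, (2 / t - 1 / t ^ 2) * ∑ j ∈ C i, A j -
      1 / t ^ 2 * ∑ j ∈ C i, ∑ j' ∈ (C i).erase j, A j * I j' ≤
      τ * (1 - (#((C i).filter p) / t - 1) ^ 2) + δ * (K + (K : ℝ) ^ 2) := by
    intro i
    apply cl_bound ht hδ0 p (C i) (hcl i)
    · intro j
      exact div_nonneg (aw_nonneg _ _ _) hℓ0.le
    · intro j
      simp only [I]
      split_ifs <;> norm_num
    · intro j hj
      simp only [I]
      rw [if_pos ⟨hj.1, by omega⟩]
    · intro j hj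
      have := (hloc j).1
      rwa [if_pos hj] at this
    · intro j hj
      have := (hloc j).1
      rwa [if_neg hj] at this
    · intro j hj
      exact (hloc j).2 hj.1
  -- summing over the clusters
  have hs1 : ∑ j, aw ℓ y (ν + h j) / ℓ = ∑ i, ∑ j ∈ C i, A j :=
    (Finset.sum_fiberwise (s := Finset.univ) cl A).symm
  have hs2 : ∑ j, ∑ j' ∈ Finset.univ.filter (fun j' => j' ≠ j ∧ cl j' = cl j),
      aw ℓ y (ν + h j) * (if (ν + h j').Prime ∧ y < ν + h j' then (1 : ℝ) else 0) / ℓ =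
      ∑ i, ∑ j ∈ C i, ∑ j' ∈ (C i).erase j, A j * I j' := by
    rw [← Finset.sum_fiberwise (s := Finset.univ) cl]
    apply Finset.sum_congr rfl
    intro i _
    apply Finset.sum_congr rfl
    intro j hj
    have hji : cl j = i := (Finset.mem_filter.mp hj).2
    have e1 : Finset.univ.filter (fun j' => j' ≠ j ∧ cl j' = cl j) = (C i).erase j := by
      ext j'
      simp only [C, Finset.mem_filter, Finset.mem_univ, true_and, Finset.mem_erase, hji]
    rw [e1]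
    apply Finset.sum_congr rfl
    intro j' _
    simp only [A, I]
    ring
  have hbr : brQ ℓ y t cl h U ν ≤
      τ * ∑ i, (1 - (#((C i).filter p) / t - 1) ^ 2) + 5 * (δ * (K + (K : ℝ) ^ 2)) - τ - 1 / 2000 -
        10 * ∑ i ∈ U, aw ℓ y (ν + i) / ℓ := by
    have h1 := Finset.sum_le_sum (fun i (_ : i ∈ (Finset.univ : Finset (Fin 5))) => hcb i)
    rw [Finset.sum_sub_distrib, ← Finset.mul_sum, ← Finset.mul_sum, Finset.sum_add_distrib,
      ← Finset.mul_sum, Finset.sum_const, Finset.card_univ, Fintype.card_fin, nsmul_eq_mul] at h1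
    unfold brQ
    rw [hs1, hs2]
    have h2 : ((5 : ℕ) : ℝ) = 5 := by norm_num
    rw [h2] at h1
    linarith
  have hle1 : ∀ i, 1 - ((#((C i).filter p) : ℝ) / t - 1) ^ 2 ≤ 1 := fun i => by
    linarith [sq_nonneg ((#((C i).filter p) : ℝ) / t - 1)]
  constructor
  · by_contra hcon
    push Not at hcon
    -- at most one cluster contains primes
    have hsum1 : ∑ i, (1 - ((#((C i).filter p) : ℝ) / t - 1) ^ 2) ≤ 1 := by
      by_cases hne : ∃ j1, p j1
      · obtain ⟨j1, hj1⟩ := hne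
        rw [Finset.sum_eq_single (cl j1)]
        · exact hle1 _
        · intro i _ hi
          have h1 : (C i).filter p = ∅ := by
            rw [Finset.filter_eq_empty_iff]
            intro j hj hpj
            have hji : cl j = i := (Finset.mem_filter.mp hj).2
            have h2 := hcon j1 j (fun h3 => hi (by rw [h3, hji])) hj1.1 hj1.2 hpj.1
            have h3 := hpj.2
            omega
          rw [h1, Finset.card_empty, Nat.cast_zero, zero_div]
          norm_num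
        · intro h1
          exact absurd (Finset.mem_univ _) h1
      · push Not at hne
        rw [Finset.sum_eq_zero]
        · exact zero_le_one
        · intro i _
          have h1 : (C i).filter p = ∅ := by
            rw [Finset.filter_eq_empty_iff]
            intro j _
            exact hne j
          rw [h1, Finset.card_empty, Nat.cast_zero, zero_div]
          norm_num
    have h1 := mul_le_mul_of_nonneg_left hsum1 hτ0
    linarith
  · intro i hit hiT hprime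
    by_cases hcov : ∃ p, p.Prime ∧ p ≤ z ∧ p ≠ e ∧ i % p = a p % p
    · obtain ⟨p, hp, hpz, hpe, hmod⟩ := hcov
      have h1 : ν ≡ A0 [MOD p] := Nat.ModEq.of_dvd (dvd_WW hp hpz hpe) hν
      have h2 : ν + i ≡ A0 + a p [MOD p] := Nat.ModEq.add h1 hmod
      have h3 : p ∣ ν + i := Nat.modEq_zero_iff_dvd.mp
        (h2.trans (Nat.modEq_zero_iff_dvd.mpr (hA0 p hp hpz)))
      have h4 := (Nat.prime_dvd_prime_iff_eq hp hprime).mp h3
      omega
    · have hiU : i ∈ U := by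
        rw [hU]
        unfold uncovT
        rw [Finset.mem_filter, Finset.mem_range]
        refine ⟨hit, hiT, ?_⟩
        intro p hp hpz hpe hmod
        exact hcov ⟨p, hp, hpz, hpe, hmod⟩
      have h1 : τ - δ ≤ ∑ i ∈ U, aw ℓ y (ν + i) / ℓ := by
        refine ((aw_loc hℓ hnx hny hit.le).2 hprime).trans ?_
        exact Finset.single_le_sum (f := fun i => aw ℓ y (ν + i) / ℓ)
          (fun i _ => div_nonneg (aw_nonneg _ _ _) hℓ0.le) hiU
      have hsum5 : ∑ i, (1 - ((#((C i).filter p) : ℝ) / t - 1) ^ 2) ≤ 5 := by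
        have h2 := Finset.sum_le_sum (fun i (_ : i ∈ (Finset.univ : Finset (Fin 5))) => hle1 i)
        rw [Finset.sum_const, Finset.card_univ, Fintype.card_fin, nsmul_eq_mul] at h2
        norm_num at h2 ⊢
        exact h2
      have h2 := mul_le_mul_of_nonneg_left hsum5 hτ0
      linarith

lemma brQ_le {ℓ : ℝ} (hℓ : 1 ≤ ℓ) (y : ℕ) {t : ℝ} (ht : 1 ≤ t) (cl : Fin k → Fin 5) (h : Fin k → ℕ)
    (U : Finset ℕ) (ν : ℕ) : brQ ℓ y t cl h U ν ≤ 2 * k := by
  have hℓ0 : 0 < ℓ := by linarith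
  obtain ⟨hq0, hq1, hr0, hr1⟩ := q_bounds ht
  have hU0 : 0 ≤ ∑ i ∈ U, aw ℓ y (ν + i) / ℓ :=
    Finset.sum_nonneg (fun i _ => div_nonneg (aw_nonneg _ _ _) hℓ0.le)
  have hτ0 : 0 ≤ tent (Real.exp ℓ / 3) ν := tent_nn (by positivity) ν
  have hpair0 : 0 ≤ ∑ j, ∑ j' ∈ Finset.univ.filter (fun j' => j' ≠ j ∧ cl j' = cl j),
      aw ℓ y (ν + h j) * (if (ν + h j').Prime ∧ y < ν + h j' then (1 : ℝ) else 0) / ℓ := by
    apply Finset.sum_nonneg
    intro j _
    apply Finset.sum_nonneg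
    intro j' _
    apply div_nonneg (mul_nonneg (aw_nonneg _ _ _) _) hℓ0.le
    split_ifs <;> norm_num
  have hs0 : 0 ≤ ∑ j, aw ℓ y (ν + h j) / ℓ :=
    Finset.sum_nonneg (fun i _ => div_nonneg (aw_nonneg _ _ _) hℓ0.le)
  have hs1 : ∑ j, aw ℓ y (ν + h j) / ℓ ≤ k := by
    calc ∑ j, aw ℓ y (ν + h j) / ℓ ≤ ∑ _j : Fin k, (1 : ℝ) := by
          apply Finset.sum_le_sum
          intro j _
          rw [div_le_one hℓ0]
          refine (aw_le' hℓ0.le y _).trans ?_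
          split_ifs
          · exact le_rfl
          · exact hℓ0.le
      _ = k := by rw [Finset.sum_const, Finset.card_univ, Fintype.card_fin, nsmul_eq_mul, mul_one]
  have h1 := mul_le_mul_of_nonneg_right hq1 hs0
  have h2 := mul_nonneg hr0 hpair0
  have hk0 : (0 : ℝ) ≤ k := Nat.cast_nonneg _
  unfold brQ
  linarith

end Pool.Agent.H21.QG
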