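import Mathlib

/-!
JOB QG-02 (about 120 lines): Erdős' box theorem (1964) for `r`-partite `r`-uniform hypergraphs.

Proof by induction on `r`, for `E : Finset (Fin r → Fin M)`.
`r = 0`: take the empty family (`δ > 0` gives `#E ≥ 1`, and the only function is in `E`).
Step `r → r + 1`: write functions as `Fin.snoc y v` (or `Fin.cons v y`), `y : Fin r → Fin M`, `v : Fin M`.
`deg y = #{v | snoc y v ∈ E}`, `∑ y, deg y = #E ≥ δ M^(r+1)`. Let `Y = {y | deg y ≥ (δ/2) M}`; then
`#Y * M + (δ/2) M * M^r ≥ δ M^(r+1)`, so `#Y ≥ (δ/2) M^r`.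
Count pairs (y ∈ Y, injective `w : Fin K → Fin M` with all `snoc y (w a) ∈ E`): for fixed `y` there are at
least `(deg y)^K - K^2 M^(K-1) ≥ ((δ/2) M)^K - K^2 M^(K-1) ≥ (1/2) ((δ/2) M)^K` of them for large `M`
(non-injective `w`: choose a pair `a ≠ b` with `w a = w b`: at most `K^2 M^(K-1)`; or use
`Nat.descFactorial (deg y) K ≥ (deg y - K)^K` = number of embeddings, `Fintype.card_embedding_eq`,
which is cleaner). There are at most `M^K` maps `w`, so some injective `w` has at least
`(1/2) (δ/2)^(K+1) M^r` such `y`; apply the induction hypothesis with `δ' = (1/2) (δ/2)^(K+1)` to this set of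
`y`'s and put `X (last) = image of w`.
-/

set_option autoImplicit false

open Finset

namespace Pool.Agent.H21.QG

/-- embeddings of `Fin K` into a finset -/
theorem emb_count {M K : ℕ} (S : Finset (Fin M)) :
    (#S).descFactorial K ≤ #(univ.filter (fun w : Fin K ↪ Fin M => ∀ a, w a ∈ S)) := by
  have h1 : Fintype.card (Fin K ↪ S) = (#S).descFactorial K := by
    rw [Fintype.card_embedding_eq]; simp
  rw [← h1, ← Fintype.card_subtype]
  apply Fintype.card_le_of_injective
    (fun e : Fin K ↪ S => (⟨e.trans (Function.Embedding.subtype _), fun a => (e a).2⟩ :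
      {w : Fin K ↪ Fin M // ∀ a, w a ∈ S}))
  intro e e' h
  ext a
  have h2 := congrArg (fun w : {w : Fin K ↪ Fin M // ∀ a, w a ∈ S} => w.1 a) h
  simpa using congrArg Fin.val h2

theorem card_split {r M : ℕ} (E : Finset (Fin (r + 1) → Fin M)) :
    #E = ∑ y : Fin r → Fin M, #(univ.filter (fun v : Fin M => Fin.cons v y ∈ E)) := by
  have h1 : #E = ∑ f : Fin (r + 1) → Fin M, if f ∈ E then 1 else 0 := by
    rw [Finset.sum_boole, Finset.filter_mem_eq_inter, Finset.univ_inter]; simp
  rw [h1, ← (Fin.consEquiv (fun _ : Fin (r + 1) => Fin M)).sum_comp, Fintype.sum_prod_type,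
    Finset.sum_comm]
  apply Finset.sum_congr rfl
  intro y _
  rw [Finset.card_filter]
  rfl

/-- Erdős 1964: a positive proportion of all `r`-tuples contains a box with sides of size `K`. -/
theorem erdos_box (r K : ℕ) (δ : ℝ) (hδ : 0 < δ) : ∃ M₀ : ℕ, ∀ M : ℕ, M₀ ≤ M →
    ∀ E : Finset (Fin r → Fin M), δ * (M : ℝ) ^ r ≤ #E →
    ∃ X : Fin r → Finset (Fin M), (∀ i, #(X i) = K) ∧
      ∀ f : Fin r → Fin M, (∀ i, f i ∈ X i) → f ∈ E := by
  induction r generalizing δ with
  | zero =>
    refine ⟨0, fun M _ E hE => ⟨fun i => i.elim0, fun i => i.elim0, fun f _ => ?_⟩⟩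
    have hpos : 0 < #E := by
      have : (0 : ℝ) < #E := lt_of_lt_of_le (by simpa using hδ) hE
      exact_mod_cast this
    obtain ⟨g, hg⟩ := Finset.card_pos.1 hpos
    rwa [Subsingleton.elim f g]
  | succ r ih =>
    obtain ⟨M₁, hM₁⟩ := ih ((δ / 4) * (δ / 4) ^ K) (by positivity)
    refine ⟨max (max M₁ 1) (max (K + 1) (⌈4 * (K : ℝ) / δ⌉₊)), fun M hM E hE => ?_⟩
    have hMM₁ : M₁ ≤ M := le_trans (le_trans (le_max_left _ _) (le_max_left _ _)) hM
    have hM1 : 1 ≤ M := le_trans (le_trans (le_max_right _ _) (le_max_left _ _)) hM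
    have hMK : 4 * (K : ℝ) / δ ≤ M := by
      have h1 : ⌈4 * (K : ℝ) / δ⌉₊ ≤ M :=
        le_trans (le_trans (le_max_right _ _) (le_max_right _ _)) hM
      exact le_trans (Nat.le_ceil _) (by exact_mod_cast h1)
    have hM0 : (0 : ℝ) < M := by exact_mod_cast hM1
    -- degrees
    set S : (Fin r → Fin M) → Finset (Fin M) :=
      fun y => univ.filter (fun v : Fin M => Fin.cons v y ∈ E) with hS
    set Y : Finset (Fin r → Fin M) := univ.filter (fun y => δ / 2 * M ≤ #(S y)) with hY
    have hsum : (#E : ℝ) = ∑ y : Fin r → Fin M, (#(S y) : ℝ) := by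
      rw [card_split E]; push_cast; rfl
    have hcardM : Fintype.card (Fin r → Fin M) = M ^ r := by simp
    have hYcard : δ / 2 * (M : ℝ) ^ r ≤ #Y := by
      have h1 : ∑ y : Fin r → Fin M, (#(S y) : ℝ) ≤ #Y * M + δ / 2 * M * M ^ r := by
        rw [← Finset.sum_filter_add_sum_filter_not univ (fun y => δ / 2 * (M : ℝ) ≤ #(S y))]
        apply add_le_add
        · rw [← nsmul_eq_mul]
          apply Finset.sum_le_card_nsmul
          intro y _
          have : #(S y) ≤ M := by simpa using Finset.card_le_univ (S y)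
          exact_mod_cast this
        · have h2 : ∑ y ∈ univ.filter (fun y : Fin r → Fin M => ¬ δ / 2 * (M : ℝ) ≤ #(S y)), (#(S y) : ℝ)
              ≤ #(univ.filter (fun y : Fin r → Fin M => ¬ δ / 2 * (M : ℝ) ≤ #(S y))) • (δ / 2 * (M : ℝ)) := by
            apply Finset.sum_le_card_nsmul
            intro y hy
            exact (not_le.1 (Finset.mem_filter.1 hy).2).le
          refine le_trans h2 ?_
          rw [nsmul_eq_mul, mul_comm]
          apply mul_le_mul_of_nonneg_left _ (by positivity)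
          have h3 : #(univ.filter (fun y : Fin r → Fin M => ¬ δ / 2 * (M : ℝ) ≤ #(S y))) ≤ M ^ r := by
            rw [← hcardM]; exact Finset.card_le_univ _
          exact_mod_cast h3
      have h4 : δ * (M : ℝ) ^ (r + 1) ≤ #Y * M + δ / 2 * M * M ^ r := by
        rw [hsum] at hE; exact le_trans hE h1
      have h5 : (δ / 2 * (M : ℝ) ^ r) * M ≤ #Y * M := by
        have : δ * (M : ℝ) ^ (r + 1) = δ / 2 * (M : ℝ) ^ r * M + δ / 2 * M * M ^ r := by ring
        linarith
      exact le_of_mul_le_mul_right h5 hM0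
    -- counting pairs
    set C : (Fin K ↪ Fin M) → Finset (Fin r → Fin M) :=
      fun w => univ.filter (fun y => ∀ a, Fin.cons (w a) y ∈ E) with hC
    have hpair : ∑ w : Fin K ↪ Fin M, (#(C w) : ℝ)
        = ∑ y : Fin r → Fin M, (#(univ.filter (fun w : Fin K ↪ Fin M => ∀ a, w a ∈ S y)) : ℝ) := by
      have h1 : ∀ w : Fin K ↪ Fin M, (#(C w) : ℝ)
          = ∑ y : Fin r → Fin M, if (∀ a, (Fin.cons (w a) y : Fin (r + 1) → Fin M) ∈ E) then (1 : ℝ) else 0 := by
        intro w
        rw [hC, Finset.card_filter]; push_cast; rfl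
      simp_rw [h1]
      rw [Finset.sum_comm]
      apply Finset.sum_congr rfl
      intro y _
      rw [Finset.card_filter]; push_cast
      apply Finset.sum_congr rfl
      intro w _
      simp [hS]
    have hlow : δ / 2 * (M : ℝ) ^ r * (δ / 4 * M) ^ K ≤ ∑ w : Fin K ↪ Fin M, (#(C w) : ℝ) := by
      rw [hpair]
      calc δ / 2 * (M : ℝ) ^ r * (δ / 4 * M) ^ K ≤ #Y * (δ / 4 * M) ^ K :=
            mul_le_mul_of_nonneg_right hYcard (by positivity)
        _ = ∑ y ∈ Y, (δ / 4 * (M : ℝ)) ^ K := by rw [Finset.sum_const, nsmul_eq_mul]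
        _ ≤ ∑ y ∈ Y, (#(univ.filter (fun w : Fin K ↪ Fin M => ∀ a, w a ∈ S y)) : ℝ) := by
            apply Finset.sum_le_sum
            intro y hy
            have hdeg : δ / 2 * (M : ℝ) ≤ #(S y) := (Finset.mem_filter.1 hy).2
            have hKM : (K : ℝ) ≤ δ / 4 * M := by
              rw [div_le_iff₀ hδ] at hMK
              nlinarith
            have h1 : δ / 4 * (M : ℝ) ≤ ((#(S y) + 1 - K : ℕ) : ℝ) := by
              have h2 : (#(S y) : ℝ) + 1 - K ≤ ((#(S y) + 1 - K : ℕ) : ℝ) := by
                have h3 := Nat.le_sub_of_add_le (le_refl _) (a := #(S y) + 1) (b := 0) |>.trans_eq rfl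
                rcases le_total K (#(S y) + 1) with h | h
                · rw [Nat.cast_sub h]; push_cast; exact le_refl _
                · rw [Nat.sub_eq_zero_of_le h]
                  have : ((#(S y) + 1 : ℕ) : ℝ) ≤ K := by exact_mod_cast h
                  push_cast at this ⊢
                  linarith
              linarith
            calc (δ / 4 * (M : ℝ)) ^ K ≤ ((#(S y) + 1 - K : ℕ) : ℝ) ^ K :=
                  pow_le_pow_left₀ (by positivity) h1 K
              _ ≤ (((#(S y)).descFactorial K : ℕ) : ℝ) := by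
                  exact_mod_cast Nat.pow_sub_le_descFactorial (#(S y)) K
              _ ≤ _ := by exact_mod_cast emb_count (S y)
        _ ≤ _ := Finset.sum_le_sum_of_subset_of_nonneg (Finset.subset_univ _)
              (fun _ _ _ => Nat.cast_nonneg _)
    obtain ⟨w, hw⟩ : ∃ w : Fin K ↪ Fin M, (δ / 4) * (δ / 4) ^ K * (M : ℝ) ^ r ≤ #(C w) := by
      by_contra hcon
      push Not at hcon
      have h1 : ∑ w : Fin K ↪ Fin M, (#(C w) : ℝ)
          ≤ (M : ℝ) ^ K * ((δ / 4) * (δ / 4) ^ K * (M : ℝ) ^ r) := by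
        calc ∑ w : Fin K ↪ Fin M, (#(C w) : ℝ)
            ≤ #(univ : Finset (Fin K ↪ Fin M)) • ((δ / 4) * (δ / 4) ^ K * (M : ℝ) ^ r) :=
              Finset.sum_le_card_nsmul _ _ _ (fun w _ => (hcon w).le)
          _ ≤ _ := by
              rw [nsmul_eq_mul]
              apply mul_le_mul_of_nonneg_right _ (by positivity)
              have h2 : #(univ : Finset (Fin K ↪ Fin M)) ≤ M ^ K := by
                rw [Finset.card_univ, Fintype.card_embedding_eq]
                simpa using Nat.descFactorial_le_pow M K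
              exact_mod_cast h2
      have h3 : δ / 2 * (M : ℝ) ^ r * (δ / 4 * M) ^ K
          = 2 * ((M : ℝ) ^ K * ((δ / 4) * (δ / 4) ^ K * (M : ℝ) ^ r)) := by
        rw [mul_pow]; ring
      have h4 : 0 < (M : ℝ) ^ K * ((δ / 4) * (δ / 4) ^ K * (M : ℝ) ^ r) := by positivity
      linarith
    obtain ⟨X, hX, hXE⟩ := hM₁ M hMM₁ (C w) hw
    refine ⟨Fin.cons (univ.map w) X, ?_, ?_⟩
    · intro i
      refine Fin.cases ?_ (fun j => ?_) i
      · simp
      · simpa using hX j
    · intro f hf
      have h0 : f 0 ∈ univ.map w := by simpa using hf 0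
      obtain ⟨a, _, ha⟩ := Finset.mem_map.1 h0
      have ht : Fin.tail f ∈ C w := hXE _ (fun i => by simpa [Fin.tail] using hf i.succ)
      have h1 := (Finset.mem_filter.1 ht).2 a
      rw [ha, Fin.cons_self_tail] at h1
      exact h1

end Pool.Agent.H21.QG
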