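import Pool.Agent.H21.QG.Greedy
import Pool.Agent.H21.QG.Erdos

/-!
JOB QG-03 (about 80 lines): clusters of size `K` all of whose cross differences avoid `A`.

Proof. Let `s = ⌊4 ε M / 5⌋₊`. `4 #A + 5 s ≤ (1 - 4 ε) M + 4 ε M ≤ M`, so `greedy A s` gives an injection
of `Fin 5 → Fin s` into `Fin 5 → Fin M`; its image `E` has `s ^ 5 ≥ (ε / 2) ^ 5 M ^ 5` elements
(`s ≥ 4 ε M / 5 - 1 ≥ ε M / 2` for large `M`). `erdos_box 5 K ((ε / 2) ^ 5)` gives the `X i`; for
`i < j`, `x ∈ X i`, `y ∈ X j` pick a function `f` with `f i = x`, `f j = y` and `f l ∈ X l` (the other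
`X l` are nonempty when `K > 0`; for `K = 0` everything is empty).
(If `ε > 1/4` the hypothesis is impossible for the given sign: `#A < (1/4 - ε) M ≤ 0`.)
-/

set_option autoImplicit false

open Finset

namespace Pool.Agent.H21.QG

theorem clusters (K : ℕ) (ε : ℝ) (hε : 0 < ε) : ∃ M₀ : ℕ, ∀ M : ℕ, M₀ ≤ M → ∀ A : Finset ℕ,
    (#A : ℝ) < (1 / 4 - ε) * M →
    ∃ X : Fin 5 → Finset ℕ, (∀ i, #(X i) = K) ∧ (∀ i, ∀ x ∈ X i, x < M) ∧
      ∀ i j, i < j → ∀ x ∈ X i, ∀ y ∈ X j, x < y ∧ y - x ∉ A := by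
  obtain ⟨M1, hM1⟩ := erdos_box 5 K ((ε / 2) ^ 5) (by positivity)
  refine ⟨max M1 ⌈4 / ε⌉₊, fun M hM A hA => ?_⟩
  have hMr : 4 / ε ≤ (M : ℝ) :=
    (Nat.le_ceil _).trans (by exact_mod_cast (le_max_right _ _).trans hM)
  have hεM : 4 ≤ ε * M := by
    rw [div_le_iff₀ hε] at hMr
    linarith
  set s := ⌊4 * ε * M / 5⌋₊ with hs
  have hs1 : (s : ℝ) ≤ 4 * ε * M / 5 := Nat.floor_le (by positivity)
  have hs2 : ε / 2 * M ≤ (s : ℝ) := by
    have h1 := Nat.lt_floor_add_one (4 * ε * M / 5)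
    rw [← hs] at h1
    linarith
  obtain ⟨f, hf, hf2⟩ := greedy A s
  have hbound : 4 * #A + 5 * s ≤ M := by
    have h1 : ((4 * #A + 5 * s : ℕ) : ℝ) ≤ (M : ℝ) := by
      push_cast
      linarith
    exact_mod_cast h1
  set g : (Fin 5 → Fin s) → (Fin 5 → Fin M) :=
    fun u i => ⟨f u i, ((hf2 u).2 i).trans_le hbound⟩ with hg
  have hgi : Function.Injective g := by
    intro u v huv
    apply hf
    funext i
    exact congrArg Fin.val (congrFun huv i)
  obtain ⟨X, hX1, hX2⟩ := hM1 M ((le_max_left _ _).trans hM) (univ.image g) (by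
    rw [card_image_of_injective _ hgi, card_univ, Fintype.card_fun, Fintype.card_fin,
      Fintype.card_fin, ← mul_pow]
    push_cast
    exact pow_le_pow_left₀ (by positivity) hs2 5)
  refine ⟨fun i => (X i).map Fin.valEmbedding, fun i => ?_, fun i x hx => ?_,
    fun i j hij x hx y hy => ?_⟩
  · rw [card_map, hX1]
  · obtain ⟨a, _, rfl⟩ := mem_map.1 hx
    exact a.2
  · obtain ⟨a, ha, rfl⟩ := mem_map.1 hx
    obtain ⟨b, hb, rfl⟩ := mem_map.1 hy
    have hK : 0 < K := by
      rw [← hX1 i]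
      exact card_pos.2 ⟨a, ha⟩
    have hz : ∀ l, ∃ z, z ∈ X l := fun l => card_pos.1 (by rw [hX1 l]; exact hK)
    choose z hz using hz
    have h1 := hX2 (Function.update (Function.update z i a) j b) (fun l => by
      by_cases hj : l = j
      · subst hj
        rw [Function.update_self]
        exact hb
      · rw [Function.update_of_ne hj]
        by_cases hi : l = i
        · subst hi
          rw [Function.update_self]
          exact ha
        · rw [Function.update_of_ne hi]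
          exact hz l)
    obtain ⟨u, _, hu⟩ := mem_image.1 h1
    have h2 : g u j = b := by
      rw [hu, Function.update_self]
    have h3 : g u i = a := by
      rw [hu, Function.update_of_ne hij.ne, Function.update_self]
    have h4 := (hf2 u).1 i j hij
    have h5 : f u j = (b : ℕ) := congrArg Fin.val h2
    have h6 : f u i = (a : ℕ) := congrArg Fin.val h3
    rw [h5, h6] at h4
    exact h4

end Pool.Agent.H21.QG
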