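import Pool.Agent.H21.QG.Greedy2
import Pool.Agent.H21.QG.Erdos

/-!
Five clusters of size `K` of integers `< M`, increasing and with all cross pairs avoiding the sets
`B x`, each of fewer than `(1/4 - ε) M` elements.
-/

set_option autoImplicit false

open Finset

namespace Pool.Agent.H21.QG

theorem clustersQ (K : ℕ) (ε : ℝ) (hε : 0 < ε) : ∃ M₀ : ℕ, ∀ M : ℕ, M₀ ≤ M → ∀ B : ℕ → Finset ℕ,
    (∀ b, (#(B b) : ℝ) < (1 / 4 - ε) * M) →
    ∃ X : Fin 5 → Finset ℕ, (∀ i, #(X i) = K) ∧ (∀ i, ∀ x ∈ X i, x < M) ∧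
      ∀ i j, i < j → ∀ x ∈ X i, ∀ y ∈ X j, x < y ∧ y ∉ B x := by
  obtain ⟨M1, hM1⟩ := erdos_box 5 K ((ε / 2) ^ 5) (by positivity)
  refine ⟨max M1 ⌈4 / ε⌉₊, fun M hM B hB => ?_⟩
  have hMr : 4 / ε ≤ (M : ℝ) :=
    (Nat.le_ceil _).trans (by exact_mod_cast (le_max_right _ _).trans hM)
  have hεM : 4 ≤ ε * M := by
    rw [div_le_iff₀ hε] at hMr
    linarith
  set s := ⌊4 * ε * M / 5⌋₊ with hs
  have hs1 : (s : ℝ) ≤ 4 * ε * M / 5 := Nat.floor_le (by positivity)
  have hs2 : ε / 2 * M ≤ (s : ℝ) := by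
    have h1 := Nat.lt_floor_add_one (4 * ε * M / 5)
    rw [← hs] at h1
    linarith
  have hpos : 0 ≤ (1 / 4 - ε) * (M : ℝ) := (Nat.cast_nonneg _).trans (hB 0).le
  set a := ⌊(1 / 4 - ε) * (M : ℝ)⌋₊ with ha
  have ha1 : (a : ℝ) ≤ (1 / 4 - ε) * M := Nat.floor_le hpos
  have hBa : ∀ b, #(B b) ≤ a := fun b => Nat.le_floor (hB b).le
  obtain ⟨f, hf, hf2⟩ := greedyQ B a hBa s
  have hbound : 4 * a + 5 * s ≤ M := by
    have h1 : ((4 * a + 5 * s : ℕ) : ℝ) ≤ (M : ℝ) := by
      push_cast
      linarith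
    exact_mod_cast h1
  set g : (Fin 5 → Fin s) → (Fin 5 → Fin M) :=
    fun u i => ⟨f u i, ((hf2 u).2 i).trans_le hbound⟩ with hg
  have hgi : Function.Injective g := by
    intro u v huv
    apply hf
    funext i
    exact congrArg Fin.val (congrFun huv i)
  obtain ⟨X, hX1, hX2⟩ := hM1 M ((le_max_left _ _).trans hM) (univ.image g) (by
    rw [card_image_of_injective _ hgi, card_univ, Fintype.card_fun, Fintype.card_fin,
      Fintype.card_fin, ← mul_pow]
    push_cast
    exact pow_le_pow_left₀ (by positivity) hs2 5)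
  refine ⟨fun i => (X i).map Fin.valEmbedding, fun i => ?_, fun i x hx => ?_,
    fun i j hij x hx y hy => ?_⟩
  · rw [card_map, hX1]
  · obtain ⟨a, _, rfl⟩ := mem_map.1 hx
    exact a.2
  · obtain ⟨a, ha, rfl⟩ := mem_map.1 hx
    obtain ⟨b, hb, rfl⟩ := mem_map.1 hy
    have hK : 0 < K := by
      rw [← hX1 i]
      exact card_pos.2 ⟨a, ha⟩
    have hz : ∀ l, ∃ z, z ∈ X l := fun l => card_pos.1 (by rw [hX1 l]; exact hK)
    choose z hz using hz
    have h1 := hX2 (Function.update (Function.update z i a) j b) (fun l => by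
      by_cases hj : l = j
      · subst hj
        rw [Function.update_self]
        exact hb
      · rw [Function.update_of_ne hj]
        by_cases hi : l = i
        · subst hi
          rw [Function.update_self]
          exact ha
        · rw [Function.update_of_ne hi]
          exact hz l)
    obtain ⟨u, _, hu⟩ := mem_image.1 h1
    have h2 : g u j = b := by
      rw [hu, Function.update_self]
    have h3 : g u i = a := by
      rw [hu, Function.update_of_ne hij.ne, Function.update_self]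
    have h4 := (hf2 u).1 i j hij
    have h5 : f u j = (b : ℕ) := congrArg Fin.val h2
    have h6 : f u i = (a : ℕ) := congrArg Fin.val h3
    rw [h5, h6] at h4
    exact h4

end Pool.Agent.H21.QG
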