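import Pool.Agent.H21.QG.Bracket
import Pool.Agent.H16.MT14

/-!
JOB QG-16 (about 120 lines): pointwise bound of the weight, the weighted sum of the bracket, counting.

`LQ_le`: copy of `Lam2_le` (H16/MT14.lean), `Lam_abs_le` does not depend on the level.
`sum_brQ`: linearity, interchange of sums (compare `sum_brk`).
`count_posQ`: as `count_pos`, with `brQ_le`.
-/

set_option autoImplicit false

open Finset Filter Topology

namespace Pool.Agent.H21.QG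

open Pool.Agent.H16
open Pool.Agent.H90 (MT.Col MT.Lam MT.GOK)

variable {k : ℕ}

lemma LQ_le (h : Fin k → ℕ) (P : Finset ℕ) (hP : ∀ p ∈ P, p.Prime) (z ν : ℕ)
    (hz : 1 ≤ Real.log z) (hPz : ∀ p ∈ P, z < p) (hν : 0 < ν) {ℓ : ℝ} (hℓ : 1 ≤ ℓ)
    (hνℓ : (ν : ℝ) ≤ Real.exp ℓ) (hh : ∀ j, (h j : ℝ) ≤ Real.exp ℓ) {n : ℕ} (hn : 1 ≤ n) {ρ : ℝ}
    (hρ : 0 ≤ ρ) (B : ℝ) (hB : ∏ p ∈ P, (1 + (k : ℝ) / p) ≤ B) :
    LQ h P n ρ ℓ ν ≤ Real.exp (8 * k * (ℓ / Real.log z)) * B ^ 2 := by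
  have h1 := Lam_abs_le P hP (gst n ρ) (gst_GOK hP hn hρ) (RQ ℓ) (ocol h P ν)
  have h2 := outc_count h P hP z ν hz hPz hν hℓ hνℓ hh
  set r := #{p : {p // p ∈ P} | ocol h P ν p ≠ none} with hr
  have hprod0 : 0 ≤ ∏ p ∈ P, (1 + (k : ℝ) / p) := Finset.prod_nonneg (fun p _ => by positivity)
  have h3 : |MT.Lam (gst n ρ) (RQ ℓ) (ocol h P ν)| ≤ 3 ^ r * B := by
    refine h1.trans ?_
    have : (0 : ℝ) ≤ 3 ^ r := by positivity
    exact mul_le_mul_of_nonneg_left hB this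
  unfold LQ
  rw [← sq_abs]
  calc |MT.Lam (gst n ρ) (RQ ℓ) (ocol h P ν)| ^ 2 ≤ (3 ^ r * B) ^ 2 :=
        pow_le_pow_left₀ (abs_nonneg _) h3 2
    _ = (3 : ℝ) ^ (2 * r) * B ^ 2 := by rw [mul_pow, ← pow_mul, mul_comm r 2]
    _ ≤ Real.exp (8 * k * (ℓ / Real.log z)) * B ^ 2 := by
        apply mul_le_mul_of_nonneg_right _ (sq_nonneg B)
        have h4 : (3 : ℝ) ≤ Real.exp 2 := by
          have := Real.quadratic_le_exp_of_nonneg (show (0 : ℝ) ≤ 2 by norm_num)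
          linarith
        calc (3 : ℝ) ^ (2 * r) ≤ (Real.exp 2) ^ (2 * r) := pow_le_pow_left₀ (by norm_num) h4 _
          _ = Real.exp (4 * r) := by
              rw [← Real.exp_nat_mul]; congr 1; push_cast; ring
          _ ≤ _ := by
              apply Real.exp_le_exp.mpr
              have h5 : (k : ℝ) * (2 * ℓ / Real.log z) = 2 * k * (ℓ / Real.log z) := by ring
              rw [h5] at h2
              linarith

lemma sum_brQ (S : Finset ℕ) (F : ℕ → ℝ) (ℓ : ℝ) (y : ℕ) (t : ℝ) (cl : Fin k → Fin 5)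
    (h : Fin k → ℕ) (U : Finset ℕ) :
    ∑ ν ∈ S, brQ ℓ y t cl h U ν * F ν =
      (2 / t - 1 / t ^ 2) * ((∑ j, ∑ ν ∈ S, aw ℓ y (ν + h j) * F ν) / ℓ) -
      1 / t ^ 2 * ((∑ j, ∑ j' ∈ Finset.univ.filter (fun j' => j' ≠ j ∧ cl j' = cl j),
        ∑ ν ∈ S, aw ℓ y (ν + h j) * (if (ν + h j').Prime ∧ y < ν + h j' then 1 else 0) * F ν) / ℓ) -
      ∑ ν ∈ S, tent (Real.exp ℓ / 3) ν * F ν - 1 / 2000 * ∑ ν ∈ S, F ν -
      10 * ((∑ i ∈ U, ∑ ν ∈ S, aw ℓ y (ν + i) * F ν) / ℓ) := by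
  have h1 : ∑ j, ∑ ν ∈ S, aw ℓ y (ν + h j) * F ν = ∑ ν ∈ S, ∑ j, aw ℓ y (ν + h j) * F ν :=
    Finset.sum_comm
  have h2 : ∑ j, ∑ j' ∈ Finset.univ.filter (fun j' => j' ≠ j ∧ cl j' = cl j),
        ∑ ν ∈ S, aw ℓ y (ν + h j) * (if (ν + h j').Prime ∧ y < ν + h j' then 1 else 0) * F ν =
      ∑ ν ∈ S, ∑ j, ∑ j' ∈ Finset.univ.filter (fun j' => j' ≠ j ∧ cl j' = cl j),
        aw ℓ y (ν + h j) * (if (ν + h j').Prime ∧ y < ν + h j' then 1 else 0) * F ν := by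
    rw [Finset.sum_comm (s := S)]
    exact Finset.sum_congr rfl (fun j _ => Finset.sum_comm)
  have h3 : ∑ i ∈ U, ∑ ν ∈ S, aw ℓ y (ν + i) * F ν = ∑ ν ∈ S, ∑ i ∈ U, aw ℓ y (ν + i) * F ν :=
    Finset.sum_comm
  rw [h1, h2, h3, Finset.sum_div, Finset.sum_div, Finset.sum_div, Finset.mul_sum, Finset.mul_sum,
    Finset.mul_sum, Finset.mul_sum, ← Finset.sum_sub_distrib, ← Finset.sum_sub_distrib,
    ← Finset.sum_sub_distrib, ← Finset.sum_sub_distrib]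
  apply Finset.sum_congr rfl
  intro ν _
  have e1 : ∑ j, aw ℓ y (ν + h j) * F ν = (∑ j, aw ℓ y (ν + h j)) * F ν :=
    (Finset.sum_mul _ _ _).symm
  have e1' : ∑ j, aw ℓ y (ν + h j) / ℓ = (∑ j, aw ℓ y (ν + h j)) / ℓ := (Finset.sum_div _ _ _).symm
  have e2 : ∑ j, ∑ j' ∈ Finset.univ.filter (fun j' => j' ≠ j ∧ cl j' = cl j),
        aw ℓ y (ν + h j) * (if (ν + h j').Prime ∧ y < ν + h j' then 1 else 0) * F ν =
      (∑ j, ∑ j' ∈ Finset.univ.filter (fun j' => j' ≠ j ∧ cl j' = cl j),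
        aw ℓ y (ν + h j) * (if (ν + h j').Prime ∧ y < ν + h j' then 1 else 0)) * F ν := by
    rw [Finset.sum_mul]
    exact Finset.sum_congr rfl (fun j _ => (Finset.sum_mul _ _ _).symm)
  have e2' : ∑ j, ∑ j' ∈ Finset.univ.filter (fun j' => j' ≠ j ∧ cl j' = cl j),
        aw ℓ y (ν + h j) * (if (ν + h j').Prime ∧ y < ν + h j' then 1 else 0) / ℓ =
      (∑ j, ∑ j' ∈ Finset.univ.filter (fun j' => j' ≠ j ∧ cl j' = cl j),
        aw ℓ y (ν + h j) * (if (ν + h j').Prime ∧ y < ν + h j' then 1 else 0)) / ℓ := by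
    rw [Finset.sum_div]
    exact Finset.sum_congr rfl (fun j _ => (Finset.sum_div _ _ _).symm)
  have e3 : ∑ i ∈ U, aw ℓ y (ν + i) * F ν = (∑ i ∈ U, aw ℓ y (ν + i)) * F ν :=
    (Finset.sum_mul _ _ _).symm
  have e3' : ∑ i ∈ U, aw ℓ y (ν + i) / ℓ = (∑ i ∈ U, aw ℓ y (ν + i)) / ℓ :=
    (Finset.sum_div _ _ _).symm
  unfold brQ
  rw [e1, e1', e2, e2', e3, e3']
  ring

lemma count_posQ (S : Finset ℕ) (F : ℕ → ℝ) (ℓ : ℝ) (hℓ : 1 ≤ ℓ) (y : ℕ) (t : ℝ) (ht : 1 ≤ t)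
    (cl : Fin k → Fin 5) (h : Fin k → ℕ) (U : Finset ℕ)
    (hF0 : ∀ ν ∈ S, 0 ≤ F ν) (C : ℝ) (hC : 0 ≤ C) (hF : ∀ ν ∈ S, F ν ≤ C) (G : Finset ℕ)
    (hG : ∀ ν ∈ S, 0 < brQ ℓ y t cl h U ν → ν ∈ G) :
    ∑ ν ∈ S, brQ ℓ y t cl h U ν * F ν ≤ #G * (2 * k * C) := by
  classical
  have h1 : ∑ ν ∈ S, brQ ℓ y t cl h U ν * F ν ≤
      ∑ ν ∈ S.filter (fun ν => 0 < brQ ℓ y t cl h U ν), 2 * k * C := by
    rw [Finset.sum_filter]
    apply Finset.sum_le_sum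
    intro ν hν
    split_ifs with hpos
    · exact mul_le_mul (brQ_le hℓ y ht cl h U ν) (hF ν hν) (hF0 ν hν) (by positivity)
    · push Not at hpos
      exact mul_nonpos_of_nonpos_of_nonneg hpos (hF0 ν hν)
  refine h1.trans ?_
  rw [Finset.sum_const, nsmul_eq_mul]
  apply mul_le_mul_of_nonneg_right _ (by positivity)
  have h2 : S.filter (fun ν => 0 < brQ ℓ y t cl h U ν) ⊆ G := by
    intro ν hν
    rw [Finset.mem_filter] at hν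
    exact hG ν hν.1 hν.2
  exact_mod_cast Finset.card_le_card h2

end Pool.Agent.H21.QG
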