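import Pool.Agent.H16.MT6

/-!
JOB QG-04 (about 150 lines): the sums `∑ 1/φ(b)` over squarefree `b ≤ Y` composed of given primes.

`G1_mul_le`: every `D ⊆ P` is `(D \ S) ∪ (D ∩ S)`, `∏ (D \ S) ≤ ∏ D ≤ Y`, so
`G1 P Y ≤ G1 (P \ S) Y * ∑ T ⊆ S, ∏ T 1/(p-1) = G1 (P \ S) Y * ∏ S (1 + 1/(p-1))`, and
`(1 + 1/(p-1)) (1 - 1/p) = 1`.

`G1_all`: for `P ⊇` all primes `≤ Y`: every `n ≤ Y` determines `D = n.primeFactors ∈ lev P Y`, and
`∑ {n ≤ Y, primeFactors n = D} 1/n ≤ ∏ D (1/p + 1/p^2 + ...) = ∏ D 1/(p-1)`. (Finite version: the `n ≤ N` with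
`primeFactors n = D` have the form `∏ p^(a p)`, `1 ≤ a p ≤ N`, and
`∏ p ∈ D, ∑ a ∈ Icc 1 N, 1/p^a ≤ ∏ D 1/(p-1)`, use `Finset.prod_univ_sum`/`Finset.prod_sum` or
induction; alternatively Mathlib's `Nat.factoredNumbers`, `EulerProduct` results, or the route
of `S1d_lower` in H16/MT6.lean.)  And `∑ n ≤ Y, 1/n ≥ log Y` (`log_add_one_le_harmonic`,
`Real.log_le_harmonic_floor`).

`G1_lower`: all primes `≤ Y` lie in `PE z y E ∪ (primesLE z ∪ E')`, so apply `G1_all` to this union and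
`G1_mul_le` with `S = primesLE z ∪ E'` (the set difference is contained in `PE z y E`, and `G1` is monotone
in `P`).
-/

set_option autoImplicit false

open Finset

namespace Pool.Agent.H21.QG

open Pool.Agent.H16 (lev mem_lev PE mem_PE primesIoc)

/-- `∑ 1/φ(b)` over `b ≤ Y` composed of distinct primes of `P`. -/
noncomputable def G1 (P : Finset ℕ) (Y : ℝ) : ℝ := ∑ D ∈ lev P Y, ∏ p ∈ D, 1 / ((p : ℝ) - 1)

private lemma gsum_pos {p : ℕ} (hp : p.Prime) : (0 : ℝ) < (p : ℝ) - 1 := by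
  have : (2 : ℝ) ≤ p := by exact_mod_cast hp.two_le
  linarith

private lemma gsum_nonneg {D : Finset ℕ} (hD : ∀ p ∈ D, p.Prime) :
    0 ≤ ∏ p ∈ D, 1 / ((p : ℝ) - 1) :=
  Finset.prod_nonneg fun p hp => (one_div_pos.2 (gsum_pos (hD p hp))).le

theorem G1_ge_one (P : Finset ℕ) (hP : ∀ p ∈ P, p.Prime) (Y : ℝ) (hY : 1 ≤ Y) : 1 ≤ G1 P Y := by
  have h0 : (∅ : Finset ℕ) ∈ lev P Y := by
    rw [mem_lev]
    refine ⟨Finset.empty_subset _, ?_⟩
    rw [Finset.prod_empty, Nat.cast_one]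
    exact hY
  have h1 := Finset.single_le_sum (f := fun D : Finset ℕ => ∏ p ∈ D, 1 / ((p : ℝ) - 1))
    (fun D hD => gsum_nonneg fun p hp => hP p ((mem_lev.1 hD).1 hp)) h0
  rw [Finset.prod_empty] at h1
  exact h1

theorem G1_mono (P Q : Finset ℕ) (hQ : ∀ p ∈ Q, p.Prime) (h : P ⊆ Q) (Y : ℝ) : G1 P Y ≤ G1 Q Y := by
  unfold G1
  refine Finset.sum_le_sum_of_subset_of_nonneg ?_ ?_
  · intro D hD
    rw [mem_lev] at hD ⊢
    exact ⟨hD.1.trans h, hD.2⟩
  · intro D hD _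
    exact gsum_nonneg fun p hp => hQ p ((mem_lev.1 hD).1 hp)

theorem G1_mul_le (P : Finset ℕ) (hP : ∀ p ∈ P, p.Prime) (S : Finset ℕ) (hS : S ⊆ P) (Y : ℝ) :
    G1 P Y * ∏ p ∈ S, (1 - 1 / (p : ℝ)) ≤ G1 (P \ S) Y := by
  classical
  set F : Finset ℕ → ℝ := fun D => ∏ p ∈ D, 1 / ((p : ℝ) - 1) with hF
  have hsplit : ∀ D : Finset ℕ, F D = F (D \ S) * F (D ∩ S) := by
    intro D
    simp only [hF]
    rw [← Finset.prod_union (Finset.disjoint_left.2 fun p hp hp' =>
      (Finset.mem_sdiff.1 hp).2 (Finset.mem_inter.1 hp').2), Finset.sdiff_union_inter]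
  set φ : Finset ℕ → Finset ℕ × Finset ℕ := fun D => (D \ S, D ∩ S) with hφ
  have hinj : Set.InjOn φ (lev P Y : Set (Finset ℕ)) := by
    intro D _ D' _ h
    have h1 : D \ S = D' \ S := congrArg Prod.fst h
    have h2 : D ∩ S = D' ∩ S := congrArg Prod.snd h
    rw [← Finset.sdiff_union_inter D S, h1, h2, Finset.sdiff_union_inter]
  have h1 : G1 P Y ≤ G1 (P \ S) Y * ∏ p ∈ S, (1 + 1 / ((p : ℝ) - 1)) := by
    rw [Finset.prod_one_add]
    unfold G1
    rw [Finset.sum_mul_sum, ← Finset.sum_product']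
    have e1 : ∑ D ∈ lev P Y, ∏ p ∈ D, 1 / ((p : ℝ) - 1) =
        ∑ x ∈ (lev P Y).image φ, F x.1 * F x.2 := by
      rw [Finset.sum_image hinj]
      exact Finset.sum_congr rfl fun D _ => hsplit D
    rw [e1]
    refine Finset.sum_le_sum_of_subset_of_nonneg ?_ ?_
    · intro x hx
      obtain ⟨D, hD, rfl⟩ := Finset.mem_image.1 hx
      rw [mem_lev] at hD
      rw [Finset.mem_product, Finset.mem_powerset, mem_lev]
      refine ⟨⟨Finset.sdiff_subset_sdiff hD.1 (Finset.Subset.refl _), le_trans ?_ hD.2⟩,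
        Finset.inter_subset_right⟩
      have h2 : ∏ p ∈ D \ S, p ≤ ∏ p ∈ D, p :=
        Nat.le_of_dvd (Finset.prod_pos fun p hp => (hP p (hD.1 hp)).pos)
          (Finset.prod_dvd_prod_of_subset _ _ _ Finset.sdiff_subset)
      exact_mod_cast h2
    · intro x hx _
      rw [Finset.mem_product, Finset.mem_powerset, mem_lev] at hx
      refine mul_nonneg (gsum_nonneg fun p hp => ?_) (gsum_nonneg fun p hp => ?_)
      · exact hP p (Finset.mem_sdiff.1 (hx.1.1 hp)).1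
      · exact hP p (hS (hx.2 hp))
  have h2 : (∏ p ∈ S, (1 + 1 / ((p : ℝ) - 1))) * ∏ p ∈ S, (1 - 1 / (p : ℝ)) = 1 := by
    rw [← Finset.prod_mul_distrib]
    refine Finset.prod_eq_one fun p hp => ?_
    have h3 := gsum_pos (hP p (hS hp))
    have h4 : (0 : ℝ) < p := by linarith
    field_simp
    ring
  have h3 : 0 ≤ ∏ p ∈ S, (1 - 1 / (p : ℝ)) := by
    refine Finset.prod_nonneg fun p hp => ?_
    have h4 := gsum_pos (hP p (hS hp))
    have h5 : 1 / (p : ℝ) ≤ 1 := by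
      rw [div_le_one (by linarith)]
      linarith
    linarith
  calc G1 P Y * ∏ p ∈ S, (1 - 1 / (p : ℝ))
      ≤ (G1 (P \ S) Y * ∏ p ∈ S, (1 + 1 / ((p : ℝ) - 1))) * ∏ p ∈ S, (1 - 1 / (p : ℝ)) :=
        mul_le_mul_of_nonneg_right h1 h3
    _ = G1 (P \ S) Y := by rw [mul_assoc, h2, mul_one]

private lemma gsum_geom {p : ℕ} (hp : p.Prime) (N : ℕ) :
    ∑ a ∈ Finset.Icc 1 N, 1 / (p : ℝ) ^ a = 1 / ((p : ℝ) - 1) * (1 - (1 / (p : ℝ)) ^ N) := by
  have h3 := gsum_pos hp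
  have h4 : (0 : ℝ) < p := by linarith
  induction N with
  | zero => simp
  | succ N ih =>
    rw [Finset.sum_Icc_succ_top (by omega), ih, ← one_div_pow, pow_succ]
    have h5 : (1 / ((p : ℝ) - 1) + 1) * (1 / (p : ℝ)) = 1 / ((p : ℝ) - 1) := by
      field_simp
      ring
    linear_combination (1 / (p : ℝ)) ^ N * h5

private lemma gsum_fib (N : ℕ) (D : Finset ℕ) (hD : ∀ p ∈ D, p.Prime) :
    ∑ n ∈ (Finset.Icc 1 N).filter (fun n => n.primeFactors = D), 1 / (n : ℝ) ≤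
      ∏ p ∈ D, 1 / ((p : ℝ) - 1) := by
  classical
  have h1 : ∏ p ∈ D, ∑ a ∈ Finset.Icc 1 N, 1 / (p : ℝ) ^ a ≤ ∏ p ∈ D, 1 / ((p : ℝ) - 1) := by
    refine Finset.prod_le_prod (fun p _ => Finset.sum_nonneg fun a _ => by positivity)
      fun p hp => ?_
    rw [gsum_geom (hD p hp)]
    have h2 := gsum_pos (hD p hp)
    have h4 : (0 : ℝ) < p := by linarith
    have h5 : 0 ≤ (1 / (p : ℝ)) ^ N := by positivity
    have h6 : 0 < 1 / ((p : ℝ) - 1) := one_div_pos.2 h2
    nlinarith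
  refine le_trans ?_ h1
  rw [Finset.prod_sum]
  set T := (Finset.Icc 1 N).filter (fun n => n.primeFactors = D) with hT
  have hmem : ∀ n ∈ T, (1 ≤ n ∧ n ≤ N) ∧ n.primeFactors = D := by
    intro n hn
    rw [hT, Finset.mem_filter, Finset.mem_Icc] at hn
    exact hn
  let ψ : ℕ → ((p : ℕ) → p ∈ D → ℕ) := fun n p _ => n.factorization p
  have hinj : Set.InjOn ψ (T : Set ℕ) := by
    intro n hn n' hn' h
    have h2 := hmem n hn
    have h3 := hmem n' hn'
    refine Nat.eq_of_factorization_eq (by omega) (by omega) fun p => ?_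
    by_cases hp : p ∈ D
    · exact congrFun (congrFun h p) hp
    · have e1 : n.factorization p = 0 := by
        rw [← Finsupp.notMem_support_iff, Nat.support_factorization, h2.2]
        exact hp
      have e2 : n'.factorization p = 0 := by
        rw [← Finsupp.notMem_support_iff, Nat.support_factorization, h3.2]
        exact hp
      rw [e1, e2]
  have e1 : ∀ n ∈ T, 1 / (n : ℝ) = ∏ x ∈ D.attach, 1 / (x.1 : ℝ) ^ (ψ n x.1 x.2) := by
    intro n hn
    have h2 := hmem n hn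
    have h3 : n = ∏ p ∈ D, p ^ n.factorization p := by
      have h4 := Nat.prod_factorization_pow_eq_self (n := n) (by omega)
      unfold Finsupp.prod at h4
      rw [Nat.support_factorization, h2.2] at h4
      exact h4.symm
    have h5 : (n : ℝ) = ∏ p ∈ D, (p : ℝ) ^ n.factorization p := by exact_mod_cast h3
    rw [Finset.prod_attach D (fun p => 1 / (p : ℝ) ^ n.factorization p),
      Finset.prod_div_distrib, Finset.prod_const_one, ← h5]
  rw [Finset.sum_congr rfl e1, ← Finset.sum_image (f := fun a : ((p : ℕ) → p ∈ D → ℕ) =>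
    ∏ x ∈ D.attach, 1 / (x.1 : ℝ) ^ (a x.1 x.2)) hinj]
  refine Finset.sum_le_sum_of_subset_of_nonneg ?_ ?_
  · intro a ha
    obtain ⟨n, hn, rfl⟩ := Finset.mem_image.1 ha
    have h2 := hmem n hn
    rw [Finset.mem_pi]
    intro p hp
    rw [Finset.mem_Icc]
    have h3 : p ∈ n.primeFactors := by rw [h2.2]; exact hp
    have h4 : n.factorization p ≠ 0 := by
      rw [← Finsupp.mem_support_iff, Nat.support_factorization]
      exact h3
    have h5 : n.factorization p < n := Nat.factorization_lt p (by omega)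
    exact ⟨Nat.one_le_iff_ne_zero.2 h4, by
      change n.factorization p ≤ N
      omega⟩
  · intro a _ _
    positivity

theorem G1_all (P : Finset ℕ) (hP : ∀ p ∈ P, p.Prime) (Y : ℝ) (hY : 1 ≤ Y)
    (h : ∀ p : ℕ, p.Prime → (p : ℝ) ≤ Y → p ∈ P) : Real.log Y ≤ G1 P Y := by
  classical
  have h0 : Real.log Y ≤ ∑ n ∈ Finset.Icc 1 ⌊Y⌋₊, 1 / (n : ℝ) := by
    have h1 := log_le_harmonic_floor Y (by linarith)
    rw [harmonic_eq_sum_Icc] at h1
    push_cast at h1
    simpa only [one_div] using h1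
  refine h0.trans ?_
  have hmap : ∀ n ∈ Finset.Icc 1 ⌊Y⌋₊, n.primeFactors ∈ lev P Y := by
    intro n hn
    rw [Finset.mem_Icc] at hn
    have hnY : (n : ℝ) ≤ Y := (Nat.le_floor_iff (by linarith)).mp hn.2
    rw [mem_lev]
    constructor
    · intro p hp
      refine h p (Nat.prime_of_mem_primeFactors hp) (le_trans ?_ hnY)
      exact_mod_cast Nat.le_of_mem_primeFactors hp
    · refine le_trans ?_ hnY
      exact_mod_cast Nat.le_of_dvd (by omega) (Nat.prod_primeFactors_dvd n)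
  rw [← Finset.sum_fiberwise_of_maps_to hmap]
  unfold G1
  refine Finset.sum_le_sum fun D hD => ?_
  exact gsum_fib _ D fun p hp => hP p ((mem_lev.1 hD).1 hp)

theorem G1_lower (z y : ℕ) (E : Finset ℕ) (Y : ℝ) (hY : 1 ≤ Y) (hYy : Y ≤ y) :
    Real.log Y * ∏ p ∈ Nat.primesLE z ∪ E.filter (fun p => p.Prime), (1 - 1 / (p : ℝ)) ≤
      G1 (PE z y E) Y := by
  classical
  set S := Nat.primesLE z ∪ E.filter (fun p => p.Prime) with hS
  have hSp : ∀ p ∈ S, p.Prime := by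
    intro p hp
    rw [hS, Finset.mem_union, Nat.mem_primesLE, Finset.mem_filter] at hp
    rcases hp with hp | hp
    · exact hp.2
    · exact hp.2
  have hPp : ∀ p ∈ PE z y E, p.Prime := fun p hp => (mem_PE.mp hp).1.2.2
  have hQp : ∀ p ∈ PE z y E ∪ S, p.Prime := by
    intro p hp
    rcases Finset.mem_union.1 hp with hp | hp
    · exact hPp p hp
    · exact hSp p hp
  have h1 := G1_all (PE z y E ∪ S) hQp Y hY (by
    intro p hp hpY
    rw [Finset.mem_union]
    by_cases h2 : p ∈ S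
    · exact Or.inr h2
    · left
      rw [hS, Finset.mem_union, Nat.mem_primesLE, Finset.mem_filter, not_or] at h2
      have h3 : ¬ p ≤ z := fun h4 => h2.1 ⟨h4, hp⟩
      have h4 : p ∉ E := fun h5 => h2.2 ⟨h5, hp⟩
      have h5 : p ≤ y := by
        have : (p : ℝ) ≤ y := hpY.trans hYy
        exact_mod_cast this
      exact mem_PE.2 ⟨⟨by omega, h5, hp⟩, h4⟩)
  have h2 := G1_mul_le (PE z y E ∪ S) hQp S Finset.subset_union_right Y
  have h3 : G1 ((PE z y E ∪ S) \ S) Y ≤ G1 (PE z y E) Y := by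
    refine G1_mono _ _ hPp ?_ Y
    intro p hp
    rw [Finset.mem_sdiff, Finset.mem_union] at hp
    rcases hp.1 with h4 | h4
    · exact h4
    · exact absurd h4 hp.2
  have h4 : 0 ≤ ∏ p ∈ S, (1 - 1 / (p : ℝ)) := by
    refine Finset.prod_nonneg fun p hp => ?_
    have h4 := gsum_pos (hSp p hp)
    have h5 : 1 / (p : ℝ) ≤ 1 := by
      rw [div_le_one (by linarith)]
      linarith
    linarith
  exact (mul_le_mul_of_nonneg_right h1 h4).trans (h2.trans h3)

end Pool.Agent.H21.QG
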