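import Pool.Agent.H16.MT13
import Pool.Agent.H21.QG.Gsum

/-!
Definitions for the five-cluster theorem.
-/

set_option autoImplicit false

open Finset Filter Topology

namespace Pool.Agent.H21.QG

open Pool.Agent.H16
open Pool.Agent.H90 (MT.Col MT.Lam)

variable {k : ℕ}

/-- The level `x^(1/4 - 1/100)` of the Selberg sieve for the second prime of a pair. -/
noncomputable def R1 (ℓ : ℝ) : ℝ := Real.exp ((1 / 4 - 1 / 100) * ℓ)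

/-- The level `x^(1/200)` of the Maynard-Tao weights. -/
noncomputable def RQ (ℓ : ℝ) : ℝ := Real.exp (ℓ / 200)

/-- The scale of the step function. -/
noncomputable def rQ (c : ℝ) (k n : ℕ) (ℓ : ℝ) : ℝ := c ^ 2 / (1280000 * k * n) * ℓ

/-- The sieving primes. -/
noncomputable def PQ (h : Fin k → ℕ) (e : ℕ) (ℓ : ℝ) : Finset ℕ :=
  PE (zf ℓ) ⌈R1 ℓ⌉₊ (insert e (exclh h))

/-- The squared sieve weight. -/
noncomputable def LQ (h : Fin k → ℕ) (P : Finset ℕ) (n : ℕ) (ρ ℓ : ℝ) (ν : ℕ) : ℝ :=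
  MT.Lam (gst n ρ) (RQ ℓ) (ocol h P ν) ^ 2

/-- The level of distribution `x^(1/2 - 1/100)`. -/
noncomputable def YQ (ℓ : ℝ) : ℝ := Real.exp ((1 / 2 - 1 / 100) * ℓ)

/-- The mass of the smooth weight. -/
noncomputable def TM (ℓ : ℝ) : ℝ := ∑ n ∈ Ioc 0 ⌊Real.exp ℓ⌋₊, tent (Real.exp ℓ / 3) n

lemma LQ_nonneg (h : Fin k → ℕ) (P : Finset ℕ) (n : ℕ) (ρ ℓ : ℝ) (ν : ℕ) : 0 ≤ LQ h P n ρ ℓ ν :=
  sq_nonneg _

lemma R1_pos (ℓ : ℝ) : 0 < R1 ℓ := Real.exp_pos _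
lemma RQ_pos (ℓ : ℝ) : 0 < RQ ℓ := Real.exp_pos _

lemma mem_PQ {h : Fin k → ℕ} {e : ℕ} {ℓ : ℝ} {p : ℕ} : p ∈ PQ h e ℓ ↔
    (zf ℓ < p ∧ p ≤ ⌈R1 ℓ⌉₊ ∧ p.Prime) ∧ p ≠ e ∧ p ∉ exclh h := by
  unfold PQ
  rw [mem_PE, Finset.mem_insert, not_or]

lemma PQ_ndvd {h : Fin k → ℕ} (hinj : Function.Injective h) {e : ℕ} {ℓ : ℝ} :
    ∀ p ∈ PQ h e ℓ, ∀ j j', j ≠ j' → ¬ p ∣ nd (h j) (h j') := by
  intro p hp j j' hj hd
  rw [mem_PQ] at hp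
  apply hp.2.2
  unfold exclh
  rw [Finset.mem_biUnion]
  refine ⟨(j, j'), Finset.mem_univ _, ?_⟩
  rw [Nat.mem_primeFactors]
  exact ⟨hp.1.2.2, hd, nd_ne_zero (fun h1 => hj (hinj h1))⟩

end Pool.Agent.H21.QG
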