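import Pool.Agent.H21.QG.Defs
import Pool.Agent.H16.MT15

/-!
JOB QG-17 (about 120 lines): the errors are small for large `ℓ`.

Adaptation of `ev_err`, `ev_final_mt` (H16/MT15.lean).
`ev_errQ`: `1/φ ≤ ℓ/(c W)`. The first and last term are at most
`(10 k + 10 ℓ^2) (1/c)^(2k+1) ℓ^(2k+1-2k-12) exp ℓ/W`, the second one
`40 k^2 (1/c)^(2k+5) ℓ^(4+2k+1-2k-12) exp ℓ/W`, both are `O(ℓ^(-6)) exp ℓ/W`; the third one is `exp (0.49 ℓ)` times a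
power of `ℓ`, while `exp ℓ/W ≥ exp (0.9 ℓ)`.
`ev_finalQ`: from `ev_final_mt` and `ℓ ≥ 200`.
-/

set_option autoImplicit false

open Finset Filter Topology

namespace Pool.Agent.H21.QG

open Pool.Agent.H16

lemma ev_errQ (k : ℕ) (c : ℝ) (hc : 0 < c) : ∀ᶠ ℓ : ℝ in atTop, ∀ φ W : ℝ, 0 < φ → 0 < W →
    c * W ≤ φ * ℓ → W ≤ Real.exp (1 / 10 * ℓ) → ∀ A1 : ℝ, 0 ≤ A1 → A1 ≤ ℓ / c →
    ∀ u0 : ℝ, 0 ≤ u0 → u0 ≤ ℓ ^ 2 →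
    10 * (k : ℝ) * (((ℓ / c) ^ k) ^ 2 * (Real.exp ℓ * ℓ ^ (-(2 * (k : ℝ) + 12)) / φ)) +
      10 * (k : ℝ) ^ 2 * ((2 * A1 ^ 2 * (ℓ / c) ^ k) ^ 2 *
        (Real.exp ℓ * ℓ ^ (-(2 * (k : ℝ) + 12)) / φ)) +
      2 * (((ℓ / c) ^ k) ^ 2 * (30 * (YQ ℓ * (ℓ / c) ^ ((k + 1) ^ 2)))) +
      10 * u0 * (((ℓ / c) ^ k) ^ 2 * (Real.exp ℓ * ℓ ^ (-(2 * (k : ℝ) + 12)) / φ)) ≤
      Real.exp ℓ / (10000 * W) := by
  have hk0 : (0 : ℝ) ≤ k := Nat.cast_nonneg k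
  have hD1 : (0 : ℝ) < (1 / c) ^ (2 * k + 1) := by positivity
  have hD2 : (0 : ℝ) < (1 / c) ^ (2 * k + 5) := by positivity
  have hD3 : (0 : ℝ) < (1 / c) ^ (2 * k) * (1 / c) ^ ((k + 1) ^ 2) := by positivity
  filter_upwards [ev_exp_pow (41 / 100) (2 * (k : ℝ) + ((k : ℝ) + 1) ^ 2)
    (1200000 * ((1 / c) ^ (2 * k) * (1 / c) ^ ((k + 1) ^ 2))) (by norm_num) (by positivity),
    eventually_ge_atTop (20000 * (10 * (k : ℝ) * (1 / c) ^ (2 * k + 1) +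
      10 * (1 / c) ^ (2 * k + 1) + 40 * (k : ℝ) ^ 2 * (1 / c) ^ (2 * k + 5))),
    eventually_ge_atTop (1 : ℝ)] with ℓ a1 a2 hℓ φ W hφ hW hcφ hWe A1 hA0 hA1 u0 hu0 hu1
  have hℓ0 : 0 < ℓ := by linarith
  set D1 : ℝ := (1 / c) ^ (2 * k + 1) with hD1d
  set D2 : ℝ := (1 / c) ^ (2 * k + 5) with hD2d
  set D3 : ℝ := (1 / c) ^ (2 * k) * (1 / c) ^ ((k + 1) ^ 2) with hD3d
  set E : ℝ := Real.exp ℓ / W with hE
  have hE0 : 0 < E := by positivity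
  have e1 : ((ℓ / c) ^ k) ^ 2 = ℓ ^ (2 * k) * (1 / c) ^ (2 * k) := by
    rw [← pow_mul, mul_comm k 2, div_eq_mul_one_div, mul_pow]
  -- the main factor
  set Q : ℝ := ((ℓ / c) ^ k) ^ 2 * (Real.exp ℓ * ℓ ^ (-(2 * (k : ℝ) + 12)) / φ) with hQ
  have hQ0 : 0 ≤ Q := by positivity
  have e2 : ℓ ^ (2 * k) * ℓ ^ (-(2 * (k : ℝ) + 12)) * ℓ ^ 12 = 1 := by
    rw [← Real.rpow_natCast ℓ (2 * k), ← Real.rpow_natCast ℓ 12, ← Real.rpow_add hℓ0,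
      ← Real.rpow_add hℓ0]
    push_cast
    have : 2 * (k : ℝ) + -(2 * (k : ℝ) + 12) + 12 = 0 := by ring
    rw [this, Real.rpow_zero]
  have e3 : Real.exp ℓ / φ ≤ 1 / c * ℓ * E := by
    rw [div_le_iff₀ hφ, hE]
    have h1 : Real.exp ℓ = 1 / c * (Real.exp ℓ / W) * (c * W) := by field_simp
    calc Real.exp ℓ = 1 / c * (Real.exp ℓ / W) * (c * W) := h1
      _ ≤ 1 / c * (Real.exp ℓ / W) * (φ * ℓ) := mul_le_mul_of_nonneg_left hcφ (by positivity)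
      _ = _ := by ring
  have hQ1 : Q * ℓ ^ 11 ≤ D1 * E := by
    have h1 : Q * ℓ ^ 11 * ℓ = (1 / c) ^ (2 * k) * (Real.exp ℓ / φ) *
        (ℓ ^ (2 * k) * ℓ ^ (-(2 * (k : ℝ) + 12)) * ℓ ^ 12) := by
      rw [hQ, e1]; ring
    have h2 : Q * ℓ ^ 11 * ℓ ≤ D1 * E * ℓ := by
      rw [h1, e2, mul_one]
      calc (1 / c) ^ (2 * k) * (Real.exp ℓ / φ) ≤ (1 / c) ^ (2 * k) * (1 / c * ℓ * E) :=
            mul_le_mul_of_nonneg_left e3 (by positivity)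
        _ = D1 * E * ℓ := by rw [hD1d, pow_succ]; ring
    exact le_of_mul_le_mul_right h2 hℓ0
  have hpw : ∀ a : ℕ, 1 ≤ a → ℓ ≤ ℓ ^ a := fun a ha => by
    calc ℓ = ℓ ^ 1 := (pow_one ℓ).symm
      _ ≤ ℓ ^ a := pow_le_pow_right₀ hℓ ha
  have hDE : 0 ≤ D1 * E := by positivity
  -- first and fourth
  have hQℓ : Q * ℓ ≤ D1 * E := by
    refine le_trans ?_ hQ1
    exact mul_le_mul_of_nonneg_left (hpw 11 (by norm_num)) hQ0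
  have hQu : u0 * Q * ℓ ≤ D1 * E := by
    refine le_trans ?_ hQ1
    calc u0 * Q * ℓ ≤ ℓ ^ 2 * Q * ℓ := by gcongr
      _ = Q * ℓ ^ 3 := by ring
      _ ≤ Q * ℓ ^ 11 := mul_le_mul_of_nonneg_left (pow_le_pow_right₀ hℓ (by norm_num)) hQ0
  -- second
  have hA4 : A1 ^ 4 ≤ (ℓ / c) ^ 4 := pow_le_pow_left₀ hA0 hA1 4
  have hQ2 : A1 ^ 4 * Q * ℓ ≤ D2 * E := by
    have h5 : (ℓ / c) ^ 4 = (1 / c) ^ 4 * ℓ ^ 4 := by
      rw [div_eq_mul_one_div, mul_pow]; ring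
    calc A1 ^ 4 * Q * ℓ ≤ (ℓ / c) ^ 4 * Q * ℓ := by gcongr
      _ = (1 / c) ^ 4 * (Q * ℓ ^ 5) := by rw [h5]; ring
      _ ≤ (1 / c) ^ 4 * (Q * ℓ ^ 11) := by
          apply mul_le_mul_of_nonneg_left _ (by positivity)
          exact mul_le_mul_of_nonneg_left (pow_le_pow_right₀ hℓ (by norm_num)) hQ0
      _ ≤ (1 / c) ^ 4 * (D1 * E) := mul_le_mul_of_nonneg_left hQ1 (by positivity)
      _ = D2 * E := by rw [hD1d, hD2d]; ring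
  have hsum : (10 * (k : ℝ) * Q + 10 * (k : ℝ) ^ 2 * ((2 * A1 ^ 2 * (ℓ / c) ^ k) ^ 2 *
        (Real.exp ℓ * ℓ ^ (-(2 * (k : ℝ) + 12)) / φ)) + 10 * u0 * Q) ≤ E / 20000 := by
    have h6 : (2 * A1 ^ 2 * (ℓ / c) ^ k) ^ 2 * (Real.exp ℓ * ℓ ^ (-(2 * (k : ℝ) + 12)) / φ) =
        4 * (A1 ^ 4 * Q) := by rw [hQ]; ring
    rw [h6, le_div_iff₀ (by norm_num)]
    have h7 : (10 * (k : ℝ) * Q + 10 * (k : ℝ) ^ 2 * (4 * (A1 ^ 4 * Q)) + 10 * u0 * Q) * 20000 * ℓ ≤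
        E * ℓ := by
      calc (10 * (k : ℝ) * Q + 10 * (k : ℝ) ^ 2 * (4 * (A1 ^ 4 * Q)) + 10 * u0 * Q) * 20000 * ℓ =
          20000 * (10 * (k : ℝ) * (Q * ℓ) + 10 * (u0 * Q * ℓ) +
            40 * (k : ℝ) ^ 2 * (A1 ^ 4 * Q * ℓ)) := by ring
        _ ≤ 20000 * (10 * (k : ℝ) * (D1 * E) + 10 * (D1 * E) + 40 * (k : ℝ) ^ 2 * (D2 * E)) := by
            gcongr
        _ = E * (20000 * (10 * (k : ℝ) * D1 + 10 * D1 + 40 * (k : ℝ) ^ 2 * D2)) := by ring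
        _ ≤ E * ℓ := mul_le_mul_of_nonneg_left a2 hE0.le
    exact le_of_mul_le_mul_right h7 hℓ0
  -- third
  have hthird : 2 * (((ℓ / c) ^ k) ^ 2 * (30 * (YQ ℓ * (ℓ / c) ^ ((k + 1) ^ 2)))) ≤ E / 20000 := by
    have e1' : (ℓ / c) ^ ((k + 1) ^ 2) = ℓ ^ ((k + 1) ^ 2) * (1 / c) ^ ((k + 1) ^ 2) := by
      rw [div_eq_mul_one_div, mul_pow]
    have e2' : ℓ ^ (2 * k) * ℓ ^ ((k + 1) ^ 2) = ℓ ^ (2 * (k : ℝ) + ((k : ℝ) + 1) ^ 2) := by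
      rw [← pow_add, ← Real.rpow_natCast]
      congr 1
      push_cast
      ring
    set Z := ℓ ^ (2 * (k : ℝ) + ((k : ℝ) + 1) ^ 2) with hZ
    have e4 : 1200000 * D3 * Z ≤ Real.exp (41 / 100 * ℓ) := by
      have h6 : Real.exp (-(41 / 100 * ℓ)) * Real.exp (41 / 100 * ℓ) = 1 := by
        rw [← Real.exp_add]; simp
      have h7 := mul_le_mul_of_nonneg_right a1 (Real.exp_pos (41 / 100 * ℓ)).le
      rw [mul_assoc, h6, one_mul, mul_one] at h7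
      exact h7
    have e5 : Real.exp (9 / 10 * ℓ) ≤ E := by
      rw [hE, le_div_iff₀ hW]
      calc Real.exp (9 / 10 * ℓ) * W ≤ Real.exp (9 / 10 * ℓ) * Real.exp (1 / 10 * ℓ) :=
            mul_le_mul_of_nonneg_left hWe (Real.exp_pos _).le
        _ = Real.exp ℓ := by rw [← Real.exp_add]; congr 1; ring
    have e6 : Real.exp (41 / 100 * ℓ) * YQ ℓ = Real.exp (9 / 10 * ℓ) := by
      unfold YQ
      rw [← Real.exp_add]; congr 1; ring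
    have hY0 : 0 < YQ ℓ := Real.exp_pos _
    rw [e1, e1', le_div_iff₀ (by norm_num)]
    calc 2 * (ℓ ^ (2 * k) * (1 / c) ^ (2 * k) * (30 * (YQ ℓ *
          (ℓ ^ ((k + 1) ^ 2) * (1 / c) ^ ((k + 1) ^ 2))))) * 20000 =
        1200000 * D3 * (ℓ ^ (2 * k) * ℓ ^ ((k + 1) ^ 2)) * YQ ℓ := by rw [hD3d]; ring
      _ = 1200000 * D3 * Z * YQ ℓ := by rw [e2']
      _ ≤ Real.exp (41 / 100 * ℓ) * YQ ℓ := mul_le_mul_of_nonneg_right e4 hY0.le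
      _ = Real.exp (9 / 10 * ℓ) := e6
      _ ≤ E := e5
  have hfin : Real.exp ℓ / (10000 * W) = E / 20000 + E / 20000 := by
    rw [hE]; field_simp; norm_num
  rw [hfin]
  calc 10 * (k : ℝ) * Q + 10 * (k : ℝ) ^ 2 * ((2 * A1 ^ 2 * (ℓ / c) ^ k) ^ 2 *
        (Real.exp ℓ * ℓ ^ (-(2 * (k : ℝ) + 12)) / φ)) +
        2 * (((ℓ / c) ^ k) ^ 2 * (30 * (YQ ℓ * (ℓ / c) ^ ((k + 1) ^ 2)))) + 10 * u0 * Q =
      (10 * (k : ℝ) * Q + 10 * (k : ℝ) ^ 2 * ((2 * A1 ^ 2 * (ℓ / c) ^ k) ^ 2 *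
        (Real.exp ℓ * ℓ ^ (-(2 * (k : ℝ) + 12)) / φ)) + 10 * u0 * Q) +
        2 * (((ℓ / c) ^ k) ^ 2 * (30 * (YQ ℓ * (ℓ / c) ^ ((k + 1) ^ 2)))) := by ring
    _ ≤ _ := add_le_add hsum hthird

lemma ev_finalQ (k : ℕ) (hk : 0 < k) (c ε : ℝ) (hc : 0 < c) (hε : 0 < ε) : ∀ᶠ ℓ : ℝ in atTop,
    ∀ W L : ℝ, 0 < W → W ≤ Real.exp (ε / 4 * ℓ) → Real.log ℓ / 2 ≤ L →
    Real.exp ((1 - ε) * ℓ) * (2 * k * (Real.exp (8 * k * (ℓ / L)) * ((ℓ / c) ^ k) ^ 2)) ≤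
      Real.exp ℓ / (10000 * W) := by
  filter_upwards [ev_final_mt k hk c ε hc hε, eventually_ge_atTop (200 : ℝ)] with ℓ a1 hℓ W L hW0
    hW hL
  have h1 := a1 W L hW0 hW hL
  have hk0 : (0 : ℝ) < k := by exact_mod_cast hk
  set B : ℝ := Real.exp (8 * k * (ℓ / L)) * ((ℓ / c) ^ k) ^ 2 with hB
  have hB0 : 0 ≤ B := by positivity
  have hE1 : 0 < Real.exp ((1 - ε) * ℓ) := Real.exp_pos _
  have h2 : Real.exp ((1 - ε) * ℓ) * (2 * k * B) * 100 ≤ Real.exp ((1 - ε) * ℓ) * (k * ℓ * B) := by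
    have h3 : (2 * (k : ℝ) * B) * 100 ≤ k * ℓ * B := by
      have : 0 ≤ (k : ℝ) * B := by positivity
      nlinarith
    calc Real.exp ((1 - ε) * ℓ) * (2 * k * B) * 100 = Real.exp ((1 - ε) * ℓ) * ((2 * k * B) * 100) := by
          ring
      _ ≤ _ := mul_le_mul_of_nonneg_left h3 hE1.le
  have h4 : Real.exp ℓ / (10000 * W) = Real.exp ℓ / (100 * W) / 100 := by
    rw [div_div]; congr 1; ring
  rw [h4, le_div_iff₀ (by norm_num)]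
  exact h2.trans h1

end Pool.Agent.H21.QG
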