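import Pool.Agent.H90.MT

/-!
JOB QG-06 (about 150 lines): the error term `T1` (H90/MT/T1.lean) for a general coefficient function.

Proof: exactly the proof of `MT.T1`. By `psi_expand (q := fun _ => 0) (q' := q0 p)`,
`∑ c, z c ∏ psi (q0 p) (c p) (a p) = ∑ r, lam r ∏ psi (fun _ => 0) (r p) (a p)` with
`lam r = ∑ c, z c ∏ p, mx (fun j => 0 - q0 p j) (c p) (r p)` (copy of the proof of `Lam_expand`).
`|lam r| ≤ Z * ∏ P (1 + ∑ j, q0 p j)` by `sum_abs_mx`, and `lam r = 0` unless `nn r ≤ R2` (if the product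
of the kernels is nonzero then `c` extends `r`, `mx_ne_zero`, `nn_mono`, and `z c ≠ 0` gives `nn c ≤ R2`).
The rest is word for word as in `T1` with `E0 = Z * ∏ P (1 + ∑ j, q0 p j)`.
-/

set_option autoImplicit false

open Finset

namespace Pool.Agent.H21.QG

open Pool.Agent.H90.MT

/-- quadratic form coefficients in the basis of indicator monomials -/
noncomputable def errF {P : Finset ℕ} {k : ℕ} (lam : Col P k → ℝ) (a : Col P k) : ℝ :=
  ∑ r : Col P k, lam r * ∏ p : {p // p ∈ P}, psi (fun _ => 0) (r p) (a p)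

/-- the transformed coefficients -/
noncomputable def errLam {P : Finset ℕ} {k : ℕ} (q0 : ℕ → Fin k → ℝ) (z : Col P k → ℝ) (r : Col P k) : ℝ :=
  ∑ c : Col P k, z c * ∏ p : {p // p ∈ P}, mx (fun j => 0 - q0 p j) (c p) (r p)

theorem errGen_expand {P : Finset ℕ} {k : ℕ} (q0 : ℕ → Fin k → ℝ) (z : Col P k → ℝ) (a : Col P k) :
    ∑ c : Col P k, z c * ∏ p : {p // p ∈ P}, psi (q0 p) (c p) (a p) = errF (errLam q0 z) a := by
  unfold errF errLam
  simp_rw [Finset.sum_mul]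
  rw [Finset.sum_comm]
  refine Finset.sum_congr rfl fun c _ => ?_
  simp_rw [mul_assoc]
  rw [← Finset.mul_sum]
  congr 1
  simp_rw [← Finset.prod_mul_distrib]
  rw [← Fintype.prod_sum (fun (p : {p // p ∈ P}) (s : Option (Fin k)) =>
    mx (fun j => 0 - q0 p j) (c p) s * psi (fun _ => 0) s (a p))]
  refine Finset.prod_congr rfl fun p _ => ?_
  exact psi_expand (fun _ => 0) (q0 p) _ _

theorem errGen_bound {P : Finset ℕ} {k : ℕ} (hP : ∀ p ∈ P, p.Prime) (q0 : ℕ → Fin k → ℝ)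
    (hq0 : ∀ p ∈ P, ∀ j, 0 ≤ q0 p j) (z : Col P k → ℝ) (Z R2 : ℝ) (hZ : 0 ≤ Z)
    (hz : ∀ c, |z c| ≤ Z) (hsupp : ∀ c, z c ≠ 0 → (nn c : ℝ) ≤ R2) (r : Col P k) :
    |errLam q0 z r| ≤ (if (nn r : ℝ) ≤ R2 then 1 else 0) * (Z * ∏ p ∈ P, (1 + ∑ j, q0 p j)) := by
  unfold errLam
  refine (Finset.abs_sum_le_sum_abs _ _).trans ?_
  have h1 : ∀ c : Col P k, |z c * ∏ p : {p // p ∈ P}, mx (fun j => 0 - q0 p j) (c p) (r p)|
      ≤ (if (nn r : ℝ) ≤ R2 then 1 else 0) * Z *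
        ∏ p : {p // p ∈ P}, |mx (fun j => 0 - q0 p j) (c p) (r p)| := by
    intro c
    rw [abs_mul, Finset.abs_prod]
    by_cases hz0 : ∃ p : {p // p ∈ P}, mx (fun j => 0 - q0 p j) (c p) (r p) = 0
    · obtain ⟨p, hp⟩ := hz0
      have : ∏ p : {p // p ∈ P}, |mx (fun j => 0 - q0 p j) (c p) (r p)| = 0 :=
        Finset.prod_eq_zero (Finset.mem_univ p) (by rw [hp, abs_zero])
      rw [this, mul_zero, mul_zero]
    · push Not at hz0
      have hext : ∀ p, r p ≠ none → c p = r p := fun p hp => mx_ne_zero (hz0 p) hp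
      refine mul_le_mul_of_nonneg_right ?_ (Finset.prod_nonneg fun p _ => abs_nonneg _)
      have hn : (nn r : ℝ) ≤ nn c := by exact_mod_cast nn_mono hP hext
      by_cases hzc : z c = 0
      · rw [hzc, abs_zero]
        exact mul_nonneg (by split_ifs <;> norm_num) hZ
      · rw [if_pos (hn.trans (hsupp c hzc)), one_mul]
        exact hz c
  refine (Finset.sum_le_sum fun c _ => h1 c).trans ?_
  rw [← Finset.mul_sum, mul_assoc]
  refine mul_le_mul_of_nonneg_left ?_ (by split_ifs <;> norm_num)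
  refine mul_le_mul_of_nonneg_left ?_ hZ
  rw [← Fintype.prod_sum (fun (p : {p // p ∈ P}) (o : Option (Fin k)) =>
    |mx (fun j => 0 - q0 p j) o (r p)|)]
  rw [← Finset.prod_coe_sort P (fun p => (1 + ∑ j, q0 p j))]
  refine Finset.prod_le_prod (fun p _ => Finset.sum_nonneg fun o _ => abs_nonneg _) fun p _ => ?_
  rw [sum_abs_mx]
  have h2 : ∀ j : Fin k, |0 - q0 (p : ℕ) j| = q0 p j := fun j => by
    rw [zero_sub, abs_neg, abs_of_nonneg (hq0 p p.2 j)]
  have h3 : 0 ≤ ∑ j : Fin k, q0 (p : ℕ) j := Finset.sum_nonneg fun j _ => hq0 p p.2 j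
  simp only [h2]
  split_ifs
  · exact le_refl _
  · linarith

/-- the error term for coefficients in the basis of indicator monomials -/
theorem errGen_main {P : Finset ℕ} {k : ℕ} (hk : 0 < k) (hP : ∀ p ∈ P, p.Prime) (lam : Col P k → ℝ)
    (E0 R2 : ℝ) (hE00 : 0 ≤ E0) (hR2 : 1 ≤ R2)
    (hlamb : ∀ r : Col P k, |lam r| ≤ (if (nn r : ℝ) ≤ R2 then 1 else 0) * E0)
    {ι : Type} (S : Finset ι) (ω : ι → ℝ) (a : ι → Col P k) (X : ℝ) (q : ℕ → Fin k → ℝ)
    (M : Finset ℕ → ℝ)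
    (hM : ∀ D ∈ lev P (R2 ^ 2), ∀ b : ℕ → Fin k,
      |(∑ n ∈ S, ω n * ∏ p : {p // p ∈ P}, (if (p : ℕ) ∈ D → a n p = some (b p) then (1 : ℝ) else 0)) -
        X * ∏ p ∈ D, q p (b p)| ≤ M D) :
    |∑ n ∈ S, ω n * errF lam (a n) ^ 2 - X * EE q (fun a : Col P k => errF lam a ^ 2)| ≤
      E0 ^ 2 * ∑ D ∈ lev P (R2 ^ 2), ((k : ℝ) + 1) ^ (2 * #D) * M D := by
  classical
  have hsq : ∀ x : Col P k, errF lam x ^ 2 = ∑ y : Col P k × Col P k, lam y.1 * lam y.2 * Psi y.1 y.2 x := by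
    intro x
    unfold errF
    rw [sq, Fintype.sum_mul_sum, Fintype.sum_prod_type]
    refine Finset.sum_congr rfl fun r _ => Finset.sum_congr rfl fun t _ => ?_
    unfold Psi
    rw [Finset.prod_mul_distrib]
    ring
  have hEE : EE q (fun a : Col P k => errF lam a ^ 2) =
      ∑ y : Col P k × Col P k, lam y.1 * lam y.2 * EE q (Psi y.1 y.2) := by
    unfold EE
    simp_rw [hsq, Finset.mul_sum]
    rw [Finset.sum_comm]
    refine Finset.sum_congr rfl fun y _ => Finset.sum_congr rfl fun x _ => ?_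
    ring
  have hS : ∑ n ∈ S, ω n * errF lam (a n) ^ 2 =
      ∑ y : Col P k × Col P k, lam y.1 * lam y.2 * ∑ n ∈ S, ω n * Psi y.1 y.2 (a n) := by
    simp_rw [hsq, Finset.mul_sum]
    rw [Finset.sum_comm]
    refine Finset.sum_congr rfl fun y _ => Finset.sum_congr rfl fun x _ => ?_
    ring
  rw [hEE, hS, Finset.mul_sum, ← Finset.sum_sub_distrib]
  refine (Finset.abs_sum_le_sum_abs _ _).trans ?_
  have hM0 : ∀ D ∈ lev P (R2 ^ 2), 0 ≤ M D := fun D hD =>
    (abs_nonneg _).trans (hM D hD (fun _ => ⟨0, hk⟩))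
  have hterm : ∀ y : Col P k × Col P k,
      |lam y.1 * lam y.2 * (∑ n ∈ S, ω n * Psi y.1 y.2 (a n)) - X * (lam y.1 * lam y.2 * EE q (Psi y.1 y.2))| ≤
      if supp2 y.1 y.2 ∈ lev P (R2 ^ 2) then E0 ^ 2 * M (supp2 y.1 y.2) else 0 := by
    rintro ⟨r, t⟩
    simp only
    have e1 : lam r * lam t * (∑ n ∈ S, ω n * Psi r t (a n)) - X * (lam r * lam t * EE q (Psi r t)) =
        lam r * lam t * ((∑ n ∈ S, ω n * Psi r t (a n)) - X * EE q (Psi r t)) := by ring
    rw [e1, abs_mul, abs_mul]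
    by_cases hr : (nn r : ℝ) ≤ R2
    · by_cases ht : (nn t : ℝ) ≤ R2
      · have hmem : supp2 r t ∈ lev P (R2 ^ 2) := by
          unfold lev
          rw [Finset.mem_filter, Finset.mem_powerset]
          refine ⟨supp2_subset r t, ?_⟩
          have h1 : ((∏ p ∈ supp2 r t, p : ℕ) : ℝ) ≤ (nn r : ℝ) * nn t := by
            exact_mod_cast supp2_le hP r t
          calc ((∏ p ∈ supp2 r t, p : ℕ) : ℝ) ≤ (nn r : ℝ) * nn t := h1
            _ ≤ R2 * R2 := mul_le_mul hr ht (by positivity) (by linarith)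
            _ = R2 ^ 2 := by ring
        rw [if_pos hmem]
        have h1 := hlamb r
        have h2 := hlamb t
        rw [if_pos hr, one_mul] at h1
        rw [if_pos ht, one_mul] at h2
        have h3 : |(∑ n ∈ S, ω n * Psi r t (a n)) - X * EE q (Psi r t)| ≤ M (supp2 r t) := by
          rcases Psi_cases hk r t with h | ⟨b, hb⟩
          · have h4 : EE q (Psi r t) = 0 := by
              unfold EE
              exact Finset.sum_eq_zero fun x _ => by rw [h x, mul_zero]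
            have h5 : ∑ n ∈ S, ω n * Psi r t (a n) = 0 :=
              Finset.sum_eq_zero fun n _ => by rw [h (a n), mul_zero]
            rw [h4, h5, mul_zero, sub_zero, abs_zero]
            exact hM0 _ hmem
          · have h4 : EE q (Psi r t) = ∏ p ∈ supp2 r t, q p (b p) := by
              rw [← EE_ind q (supp2 r t) (supp2_subset r t) b]
              congr 1
              funext x
              exact hb x
            rw [h4]
            have h5 : ∑ n ∈ S, ω n * Psi r t (a n) = ∑ n ∈ S, ω n * ∏ p : {p // p ∈ P},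
                (if (p : ℕ) ∈ supp2 r t → a n p = some (b p) then (1 : ℝ) else 0) :=
              Finset.sum_congr rfl fun n _ => by rw [hb (a n)]
            rw [h5]
            exact hM _ hmem b
        calc |lam r| * |lam t| * |(∑ n ∈ S, ω n * Psi r t (a n)) - X * EE q (Psi r t)|
            ≤ (E0 * E0) * M (supp2 r t) :=
              mul_le_mul (mul_le_mul h1 h2 (abs_nonneg _) hE00) h3 (abs_nonneg _) (mul_nonneg hE00 hE00)
          _ = _ := by ring
      · have h2 := hlamb t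
        rw [if_neg ht, zero_mul] at h2
        have h3 : |lam t| = 0 := le_antisymm h2 (abs_nonneg _)
        rw [h3, mul_zero, zero_mul]
        split_ifs with h4
        · exact mul_nonneg (sq_nonneg _) (hM0 _ h4)
        · exact le_refl _
    · have h2 := hlamb r
      rw [if_neg hr, zero_mul] at h2
      have h3 : |lam r| = 0 := le_antisymm h2 (abs_nonneg _)
      rw [h3, zero_mul, zero_mul]
      split_ifs with h4
      · exact mul_nonneg (sq_nonneg _) (hM0 _ h4)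
      · exact le_refl _
  refine (Finset.sum_le_sum fun y _ => hterm y).trans ?_
  rw [← Finset.sum_filter]
  have hmap : ∀ y ∈ (Finset.univ.filter fun y : Col P k × Col P k => supp2 y.1 y.2 ∈ lev P (R2 ^ 2)),
      supp2 y.1 y.2 ∈ lev P (R2 ^ 2) := fun y hy => (Finset.mem_filter.1 hy).2
  rw [← Finset.sum_fiberwise_of_maps_to hmap, Finset.mul_sum]
  refine Finset.sum_le_sum fun D hD => ?_
  rw [Finset.sum_congr rfl (g := fun _ => E0 ^ 2 * M D) (fun y hy => by
    rw [(Finset.mem_filter.1 hy).2])]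
  rw [Finset.sum_const, nsmul_eq_mul]
  have hDP : D ⊆ P := Finset.mem_powerset.1 (Finset.mem_filter.1 hD).1
  have hc : #{y ∈ (Finset.univ.filter fun y : Col P k × Col P k => supp2 y.1 y.2 ∈ lev P (R2 ^ 2)) |
      supp2 y.1 y.2 = D} ≤ (k + 1) ^ (2 * #D) := by
    refine (Finset.card_le_card ?_).trans (card_supp_le D hDP)
    intro y hy
    rw [Finset.mem_filter] at hy ⊢
    exact ⟨Finset.mem_univ _, hy.2⟩
  have hc' : (#{y ∈ (Finset.univ.filter fun y : Col P k × Col P k => supp2 y.1 y.2 ∈ lev P (R2 ^ 2)) |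
      supp2 y.1 y.2 = D} : ℝ) ≤ ((k : ℝ) + 1) ^ (2 * #D) := by
    exact_mod_cast hc
  calc _ ≤ ((k : ℝ) + 1) ^ (2 * #D) * (E0 ^ 2 * M D) :=
        mul_le_mul_of_nonneg_right hc' (mul_nonneg (sq_nonneg _) (hM0 D hD))
    _ = _ := by ring

theorem T1gen {P : Finset ℕ} {k : ℕ} (hk : 0 < k) (hP : ∀ p ∈ P, p.Prime) (q0 : ℕ → Fin k → ℝ)
    (hq0 : ∀ p ∈ P, ∀ j, 0 ≤ q0 p j) (z : Col P k → ℝ) (Z R2 : ℝ) (hZ : 0 ≤ Z) (hR2 : 1 ≤ R2)
    (hz : ∀ c, |z c| ≤ Z) (hsupp : ∀ c, z c ≠ 0 → (nn c : ℝ) ≤ R2)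
    {ι : Type} (S : Finset ι) (ω : ι → ℝ) (a : ι → Col P k) (X : ℝ) (q : ℕ → Fin k → ℝ)
    (M : Finset ℕ → ℝ)
    (hM : ∀ D ∈ lev P (R2 ^ 2), ∀ b : ℕ → Fin k,
      |(∑ n ∈ S, ω n * ∏ p : {p // p ∈ P}, (if (p : ℕ) ∈ D → a n p = some (b p) then (1 : ℝ) else 0)) -
        X * ∏ p ∈ D, q p (b p)| ≤ M D) :
    |∑ n ∈ S, ω n * (∑ c : Col P k, z c * ∏ p : {p // p ∈ P}, psi (q0 p) (c p) (a n p)) ^ 2 -
      X * EE q (fun a : Col P k =>
        (∑ c : Col P k, z c * ∏ p : {p // p ∈ P}, psi (q0 p) (c p) (a p)) ^ 2)| ≤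
      (Z * ∏ p ∈ P, (1 + ∑ j, q0 p j)) ^ 2 * ∑ D ∈ lev P (R2 ^ 2), ((k : ℝ) + 1) ^ (2 * #D) * M D := by
  simp only [errGen_expand]
  refine errGen_main hk hP (errLam q0 z) (Z * ∏ p ∈ P, (1 + ∑ j, q0 p j)) R2 ?_ hR2
    (errGen_bound hP q0 hq0 z Z R2 hZ hz hsupp) S ω a X q M hM
  refine mul_nonneg hZ (Finset.prod_nonneg fun p hp => ?_)
  have : 0 ≤ ∑ j : Fin k, q0 p j := Finset.sum_nonneg fun j _ => hq0 p hp j
  linarith

end Pool.Agent.H21.QG
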