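import Pool.Agent.H21.QG.Index
import Pool.Agent.H21.QG.Clusters

/-!
JOB QG-19 (about 150 lines): a quarter of the multiples of every `d`, `D ∣ d`, are gaps.

Proof. Let `K`, `c` be as in `five_index`, `D = ∏ p ∈ primesLE (5 K), p` (or `(5 K)!`). Given `ε > 0` (`ε ≤ 1` WLOG; for
`ε ≥ 1/4` the claim is trivial), let `M₀` be from `clusters K ε`, `N₀` from `five_index` with `ε/2` and large enough that
`25 K^2 N^(1-ε) < N^(1-ε/2)`. Let `A = {m ∈ Icc 1 M | N^(1-ε) ≤ occ N (d m)}` and suppose `#A < (1/4 - ε) M`.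
`clusters` gives `X i`; `H i = (X i).image (d * ·)`. `#(H i) = K`; disjoint since `x < y` for `x ∈ X i`, `y ∈ X j`,
`i < j`; elements `≤ d M ≤ c R N`. Admissible: for `p ≤ 5 K` all elements are `≡ 0` mod `p`, take `r = 1`; for `p > 5 K` the
`5 K` elements do not cover all residues (see `multiples` in Results/MP_6336a7_nt/ConsecutiveInTuples.lean).
So `idx5 N H` has `≥ N^(1-ε/2)` elements; for each `p_(n+1) - p_n = τ' - τ = d (y - x) > 0` with `x ∈ X i`, `y ∈ X j`, so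
`i < j` (for `i > j` the difference would be negative) and `y - x ∉ A`, `1 ≤ y - x ≤ M`; hence `occ N (d (y - x)) < N^(1-ε)`.
`idx5` is contained in the union over the pairs `(x, y)` (at most `(5 K)^2`) of these sets: contradiction.
-/

set_option autoImplicit false

open Finset Filter Topology

namespace Pool.Agent.H21.QG

/-- number of indices `n < N` with `p_{n+1} - p_n = t` -/
noncomputable def occ (N t : ℕ) : ℕ :=
  {n : ℕ | n < N ∧ Nat.nth Nat.Prime (n + 1) = Nat.nth Nat.Prime n + t}.ncard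

/-- a finite set of fewer than `p` integers, or of multiples of `p`, misses a class -/
private lemma adm_aux (K d : ℕ) (hdd : (5 * K).factorial ∣ d) (X : Fin 5 → Finset ℕ)
    (hX : ∀ i, #(X i) = K) (p : ℕ) (hp : p.Prime) :
    ∃ r, ∀ i, ∀ h ∈ (X i).image (fun x => d * x), ¬ h ≡ r [MOD p] := by
  classical
  by_cases hpk : p ≤ 5 * K
  · refine ⟨1, fun i τ hτ hcon => ?_⟩
    rw [Finset.mem_image] at hτ
    obtain ⟨x, _, rfl⟩ := hτ
    have h1 : p ∣ d * x := Dvd.dvd.mul_right ((hp.dvd_factorial.mpr hpk).trans hdd) x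
    have h2 : 0 ≡ 1 [MOD p] := (Nat.modEq_zero_iff_dvd.mpr h1).symm.trans hcon
    have h3 : p ∣ 1 := Nat.modEq_zero_iff_dvd.mp h2.symm
    exact hp.one_lt.ne' (Nat.dvd_one.mp h3)
  · push Not at hpk
    by_contra hcon
    push Not at hcon
    set H : Finset ℕ := Finset.univ.biUnion (fun i => (X i).image (fun x => d * x)) with hH
    have h1 : (Finset.range p) ⊆ H.image (fun τ => τ % p) := by
      intro r hr
      rw [Finset.mem_range] at hr
      obtain ⟨i, τ, hτ, h2⟩ := hcon r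
      rw [Finset.mem_image]
      refine ⟨τ, ?_, ?_⟩
      · rw [hH, Finset.mem_biUnion]
        exact ⟨i, Finset.mem_univ _, hτ⟩
      · have h3 : τ % p = r % p := h2
        rw [h3, Nat.mod_eq_of_lt hr]
    have h2 := (Finset.card_le_card h1).trans Finset.card_image_le
    have h3 : #H ≤ 5 * K := by
      calc #H ≤ ∑ i : Fin 5, #((X i).image (fun x => d * x)) := Finset.card_biUnion_le
        _ ≤ ∑ i : Fin 5, K := Finset.sum_le_sum (fun i _ =>
            Finset.card_image_le.trans (hX i).le)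
        _ = 5 * K := by simp
    rw [Finset.card_range] at h2
    omega

theorem quarter : ∃ D : ℕ, 0 < D ∧ ∃ c : ℝ, 0 < c ∧ ∀ ε : ℝ, 0 < ε → ∃ M₀ N₀ : ℕ, ∀ N : ℕ, N₀ ≤ N →
    ∀ d : ℕ, 0 < d → D ∣ d → ∀ M : ℕ, M₀ ≤ M →
    (d : ℝ) * M ≤ c * (Real.log N * Real.log (Real.log N) *
      Real.log (Real.log (Real.log (Real.log N))) / (Real.log (Real.log (Real.log N))) ^ 2) →
    (1 / 4 - ε) * M ≤ (({m ∈ Icc 1 M | (N : ℝ) ^ (1 - ε) ≤ occ N (d * m)} : Finset ℕ).card : ℝ) := by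
  classical
  obtain ⟨K, hK, c, hc, h5⟩ := five_index
  refine ⟨(5 * K).factorial, Nat.factorial_pos _, c, hc, fun ε hε => ?_⟩
  obtain ⟨M₀, hM₀⟩ := clusters K ε hε
  obtain ⟨N₁, hN₁⟩ := h5 (ε / 2) (by linarith)
  -- large `N`
  have hlim : Tendsto (fun N : ℕ => (N : ℝ) ^ (ε / 2)) atTop atTop :=
    (tendsto_rpow_atTop (by linarith)).comp tendsto_natCast_atTop_atTop
  obtain ⟨N₂, hN₂⟩ := eventually_atTop.mp (hlim.eventually_gt_atTop (((5 * K : ℕ) : ℝ) ^ 2))
  refine ⟨M₀, max (max N₁ N₂) 1, fun N hN d hd hdd M hM hdM => ?_⟩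
  have hNN1 : N₁ ≤ N := (le_max_left _ _).trans ((le_max_left _ _).trans hN)
  have hNN2 : N₂ ≤ N := (le_max_right _ _).trans ((le_max_left _ _).trans hN)
  have hN1 : 1 ≤ N := (le_max_right _ _).trans hN
  have hNpos : (0 : ℝ) < N := by exact_mod_cast hN1
  by_contra hlt
  push Not at hlt
  set A : Finset ℕ := {m ∈ Icc 1 M | (N : ℝ) ^ (1 - ε) ≤ occ N (d * m)} with hA
  obtain ⟨X, hXc, hXM, hX⟩ := hM₀ M hM A hlt
  have hinj : Function.Injective (fun x : ℕ => d * x) := fun a b hab =>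
    Nat.eq_of_mul_eq_mul_left hd hab
  set H : Fin 5 → Finset ℕ := fun i => (X i).image (fun x => d * x) with hH
  have hcard : ∀ i, #(H i) = K := fun i => by
    rw [hH]; simp only; rw [Finset.card_image_of_injective _ hinj, hXc]
  have hdisj : ∀ i j, i ≠ j → Disjoint (H i) (H j) := by
    intro i j hij
    rw [Finset.disjoint_left]
    intro τ h1 h2
    rw [hH] at h1 h2
    simp only [Finset.mem_image] at h1 h2
    obtain ⟨x, hx, rfl⟩ := h1
    obtain ⟨y, hy, hxy⟩ := h2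
    have hxy' : y = x := hinj hxy
    subst hxy'
    rcases lt_or_gt_of_ne hij with h | h
    · exact lt_irrefl _ (hX i j h _ hx _ hy).1
    · exact lt_irrefl _ (hX j i h _ hy _ hx).1
  have hsize : ∀ i, ∀ τ ∈ H i, (τ : ℝ) ≤ c * (Real.log N * Real.log (Real.log N) *
      Real.log (Real.log (Real.log (Real.log N))) / (Real.log (Real.log (Real.log N))) ^ 2) := by
    intro i τ hτ
    rw [hH] at hτ
    simp only [Finset.mem_image] at hτ
    obtain ⟨x, hx, rfl⟩ := hτ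
    have h1 : (x : ℝ) ≤ M := by exact_mod_cast (hXM i x hx).le
    push_cast
    exact (mul_le_mul_of_nonneg_left h1 (Nat.cast_nonneg d)).trans hdM
  have hmain := hN₁ N hNN1 H hcard hdisj (adm_aux K d hdd X hXc) hsize
  -- the covering
  set U : Finset ℕ := Finset.univ.biUnion X with hU
  have hUc : #U ≤ 5 * K := by
    calc #U ≤ ∑ i : Fin 5, #(X i) := Finset.card_biUnion_le
      _ = ∑ i : Fin 5, K := Finset.sum_congr rfl (fun i _ => hXc i)
      _ = 5 * K := by simp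
  set P : Finset (ℕ × ℕ) := (U ×ˢ U).filter (fun q => q.1 < q.2 ∧ q.2 - q.1 ∈ Icc 1 M ∧
    q.2 - q.1 ∉ A) with hP
  have hPc : #P ≤ (5 * K) ^ 2 := by
    calc #P ≤ #(U ×ˢ U) := Finset.card_filter_le _ _
      _ = #U * #U := Finset.card_product _ _
      _ ≤ (5 * K) * (5 * K) := Nat.mul_le_mul hUc hUc
      _ = (5 * K) ^ 2 := by ring
  set S : ℕ × ℕ → Set ℕ := fun q => {n : ℕ | n < N ∧ Nat.nth Nat.Prime (n + 1) =
    Nat.nth Nat.Prime n + d * (q.2 - q.1)} with hS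
  have hcover : idx5 N H ⊆ ⋃ q ∈ P, S q := by
    rintro n ⟨hnN, a, i, j, hij, τ, hτ, τ', hτ', e1, e2⟩
    rw [hH] at hτ hτ'
    simp only [Finset.mem_image] at hτ hτ'
    obtain ⟨x, hx, rfl⟩ := hτ
    obtain ⟨y, hy, rfl⟩ := hτ'
    have hlt' : Nat.nth Nat.Prime n < Nat.nth Nat.Prime (n + 1) :=
      Nat.nth_strictMono Nat.infinite_setOfPred_prime (Nat.lt_succ_self n)
    have hdxy : d * x < d * y := by omega
    have hxy : x < y := Nat.lt_of_mul_lt_mul_left hdxy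
    have hlt2 : i < j := by
      rcases lt_or_gt_of_ne hij with h | h
      · exact h
      · exact absurd (hX j i h _ hy _ hx).1 (by omega)
    have hA' := (hX i j hlt2 x hx y hy).2
    have hyM := hXM j y hy
    simp only [Set.mem_iUnion]
    refine ⟨(x, y), ?_, ?_⟩
    · rw [hP, Finset.mem_filter, Finset.mem_product]
      refine ⟨⟨?_, ?_⟩, hxy, ?_, hA'⟩
      · exact Finset.mem_biUnion.mpr ⟨i, Finset.mem_univ _, hx⟩
      · exact Finset.mem_biUnion.mpr ⟨j, Finset.mem_univ _, hy⟩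
      · rw [Finset.mem_Icc]; simp only; omega
    · refine ⟨hnN, ?_⟩
      simp only
      rw [e2, e1, Nat.mul_sub]
      omega
  have hfin : ∀ q, (S q).Finite := fun q => (Set.finite_Iio N).subset (fun n hn => hn.1)
  have hcount : ∀ q ∈ P, ((S q).ncard : ℝ) ≤ (N : ℝ) ^ (1 - ε) := by
    intro q hq
    rw [hP, Finset.mem_filter] at hq
    obtain ⟨_, _, hq1, hq2⟩ := hq
    rw [hA, Finset.mem_filter, not_and, not_le] at hq2
    exact (hq2 hq1).le
  have h1 : ((idx5 N H).ncard : ℝ) ≤ ∑ q ∈ P, ((S q).ncard : ℝ) := by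
    have h2 : (idx5 N H).ncard ≤ (⋃ q ∈ P, S q).ncard := by
      have hfU : (⋃ q ∈ P, S q).Finite :=
        Set.Finite.biUnion (Finset.finite_toSet P) (fun q _ => hfin q)
      exact Set.ncard_le_ncard hcover hfU
    have h3 : (⋃ q ∈ P, S q).ncard ≤ ∑ q ∈ P, (S q).ncard := Finset.set_ncard_biUnion_le P S
    exact_mod_cast h2.trans h3
  have h2 : ∑ q ∈ P, ((S q).ncard : ℝ) ≤ ((5 * K : ℕ) : ℝ) ^ 2 * (N : ℝ) ^ (1 - ε) := by
    calc ∑ q ∈ P, ((S q).ncard : ℝ) ≤ ∑ q ∈ P, (N : ℝ) ^ (1 - ε) := Finset.sum_le_sum hcount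
      _ = #P * (N : ℝ) ^ (1 - ε) := by rw [Finset.sum_const, nsmul_eq_mul]
      _ ≤ _ := by
        apply mul_le_mul_of_nonneg_right _ (by positivity)
        exact_mod_cast hPc
  have h3 : (N : ℝ) ^ (1 - ε / 2) = (N : ℝ) ^ (ε / 2) * (N : ℝ) ^ (1 - ε) := by
    rw [← Real.rpow_add hNpos]; congr 1; ring
  have h4 := hN₂ N hNN2
  rw [h3] at hmain
  have h5' : (0 : ℝ) < (N : ℝ) ^ (1 - ε) := Real.rpow_pos_of_pos hNpos _
  have h6 : (N : ℝ) ^ (ε / 2) * (N : ℝ) ^ (1 - ε) ≤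
      ((5 * K : ℕ) : ℝ) ^ 2 * (N : ℝ) ^ (1 - ε) := hmain.trans (h1.trans h2)
  have h7 := le_of_mul_le_mul_right h6 h5'
  exact absurd h4 (not_lt.mpr h7)

end Pool.Agent.H21.QG
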