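import Pool.Agent.H21.QG.Large

/-!
JOB QG-15 (about 100 lines): lower bound for `G1` in terms of `φ(W)/W`, `W = WW z e` (product of the primes `≤ z`
different from `e`).

Proof. `G1_lower` with `z = zf ℓ`, `y = ⌈R1 ℓ⌉₊`, `E = insert e (exclh h)`, `Y = R1 ℓ`:
`G1 ≥ (24/100) ℓ * ∏ p ∈ primesLE z ∪ E', (1 - 1/p)`, `E'` = primes in `E`. The product is
`≥ ∏ (p ≤ z, p ≠ e) (1 - 1/p) * (1 - 1/e) [if e is a prime ≤ z] * ∏ (p ∈ E', p > z) (1 - 1/p)`, the first factor is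
`φ(W)/W` (see `totient_WW_le` / `WW` in H16), `1 - 1/e ≥ 1 - 1/200`, and the last product is
`≥ (1 - 1/z)^#E ≥ 1 - #E/z ≥ 1 - 1/1000` (`F.card_E`; compare `prod_excl_le`). `(1 - 1/200)(1 - 1/1000) ≥ 1 - 1/50`.
-/

set_option autoImplicit false

open Finset Filter Topology

namespace Pool.Agent.H21.QG

open Pool.Agent.H16

variable {k n : ℕ} {c ℓ : ℝ}

lemma one_sub_sum_le_prod (S : Finset ℕ) (f : ℕ → ℝ) (h0 : ∀ p ∈ S, 0 ≤ f p) (h1 : ∀ p ∈ S, f p ≤ 1) :
    1 - ∑ p ∈ S, f p ≤ ∏ p ∈ S, (1 - f p) ∧ ∏ p ∈ S, (1 - f p) ≤ 1 := by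
  classical
  induction S using Finset.induction_on with
  | empty => simp
  | insert a s ha ih =>
    have ih' := ih (fun p hp => h0 p (Finset.mem_insert_of_mem hp)) (fun p hp => h1 p (Finset.mem_insert_of_mem hp))
    rw [Finset.sum_insert ha, Finset.prod_insert ha]
    have a0 := h0 a (Finset.mem_insert_self _ _)
    have a1 := h1 a (Finset.mem_insert_self _ _)
    have hp0 : 0 ≤ ∏ p ∈ s, (1 - f p) := Finset.prod_nonneg (fun p hp => by
      have := h1 p (Finset.mem_insert_of_mem hp)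
      linarith)
    refine ⟨?_, ?_⟩
    · nlinarith [ih'.1, ih'.2]
    · nlinarith [ih'.2]

lemma totient_WW_eq (z e : ℕ) :
    ((WW z e).totient : ℝ) = (WW z e : ℝ) * ∏ p ∈ (Nat.primesLE z).erase e, (1 - 1 / (p : ℝ)) := by
  unfold WW
  rw [totient_prod_primes _ (fun p hp => (mem_WWset.mp hp).1)]
  push_cast
  rw [← Finset.prod_mul_distrib]
  apply Finset.prod_congr rfl
  intro p hp
  have h1 := (mem_WWset.mp hp).1
  have : (p : ℝ) ≠ 0 := by exact_mod_cast h1.ne_zero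
  have h2 := h1.one_le
  field_simp

lemma MQ.G_main (F : MQ k n c ℓ) (h : Fin k → ℕ) {t : ℕ} (ht : ∀ j, h j ≤ t)
    (htℓ : (t : ℝ) ≤ ℓ ^ 2) (e : ℕ) (he : e = 1 ∨ (e.Prime ∧ 200 < e)) :
    (1 - 1 / 50) * (((WW (zf ℓ) e).totient : ℝ) / WW (zf ℓ) e) * (24 / 100 * ℓ) ≤
      G1 (PQ h e ℓ) (R1 ℓ) := by
  classical
  set z := zf ℓ with hz
  set E := insert e (exclh h) with hE
  have hcard : 1000 * #E ≤ z := F.card_E h ht htℓ e
  have hz0 : (0 : ℝ) < z := F.z0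
  have hℓ0 := F.ℓ0
  have hR1 : 1 ≤ R1 ℓ := Real.one_le_exp (by nlinarith)
  have h1 := G1_lower z ⌈R1 ℓ⌉₊ E (R1 ℓ) hR1 (Nat.le_ceil _)
  have hlogR : Real.log (R1 ℓ) = 24 / 100 * ℓ := by
    unfold R1
    rw [Real.log_exp]
    ring
  rw [hlogR] at h1
  have hPQ : PQ h e ℓ = PE z ⌈R1 ℓ⌉₊ E := rfl
  rw [hPQ]
  refine le_trans ?_ h1
  set A := (Nat.primesLE z).erase e with hA
  set B := Nat.primesLE z ∪ E.filter (fun p => p.Prime) with hB
  have hAB : A ⊆ B := by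
    intro p hp
    exact Finset.mem_union_left _ (Finset.mem_of_mem_erase hp)
  have hBp : ∀ p ∈ B, p.Prime := by
    intro p hp
    rcases Finset.mem_union.mp hp with h2 | h2
    · exact (Nat.mem_primesLE.mp h2).2
    · exact (Finset.mem_filter.mp h2).2
  have hsplit : (∏ p ∈ B \ A, (1 - 1 / (p : ℝ))) * ∏ p ∈ A, (1 - 1 / (p : ℝ)) = ∏ p ∈ B, (1 - 1 / (p : ℝ)) :=
    Finset.prod_sdiff hAB
  have hW0 : (0 : ℝ) < WW z e := by exact_mod_cast WW_pos z e
  have hφ : ((WW z e).totient : ℝ) / WW z e = ∏ p ∈ A, (1 - 1 / (p : ℝ)) := by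
    rw [totient_WW_eq, mul_comm, mul_div_assoc, div_self hW0.ne', mul_one]
  rw [hφ, ← hsplit]
  have hA0 : 0 ≤ ∏ p ∈ A, (1 - 1 / (p : ℝ)) := Finset.prod_nonneg (fun p hp => by
    have h2 : (1 : ℝ) ≤ p := by exact_mod_cast (hBp p (hAB hp)).one_le
    have : 1 / (p : ℝ) ≤ 1 := by rw [div_le_one (by linarith)]; exact h2
    linarith)
  have hkey : (1 : ℝ) - 1 / 50 ≤ ∏ p ∈ B \ A, (1 - 1 / (p : ℝ)) := by
    have h2 := (one_sub_sum_le_prod (B \ A) (fun p => 1 / (p : ℝ)) (fun p _ => by positivity) (fun p hp => by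
      have h3 : (1 : ℝ) ≤ p := by exact_mod_cast (hBp p (Finset.mem_sdiff.mp hp).1).one_le
      rw [div_le_one (by linarith)]; exact h3)).1
    refine le_trans ?_ h2
    have hsub : B \ A ⊆ ({e} : Finset ℕ).filter (fun p => p.Prime) ∪ E.filter (fun p => z < p) := by
      intro p hp
      rw [Finset.mem_sdiff] at hp
      have hpp := hBp p hp.1
      rw [Finset.mem_union, Finset.mem_filter, Finset.mem_singleton, Finset.mem_filter]
      by_cases hpe : p = e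
      · exact Or.inl ⟨hpe, hpp⟩
      · right
        have hzp : z < p := by
          by_contra hcon
          exact hp.2 (mem_WWset.mpr ⟨hpp, not_lt.mp hcon, hpe⟩)
        refine ⟨?_, hzp⟩
        rcases Finset.mem_union.mp hp.1 with h3 | h3
        · exact absurd (Nat.mem_primesLE.mp h3).1 (not_le.mpr hzp)
        · exact (Finset.mem_filter.mp h3).1
    have h3 : ∑ p ∈ B \ A, 1 / (p : ℝ) ≤
        ∑ p ∈ ({e} : Finset ℕ).filter (fun p => p.Prime), 1 / (p : ℝ) + ∑ p ∈ E.filter (fun p => z < p), 1 / (p : ℝ) := by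
      refine (Finset.sum_le_sum_of_subset_of_nonneg hsub (fun p _ _ => by positivity)).trans ?_
      have h4 := Finset.sum_union_inter (s₁ := ({e} : Finset ℕ).filter (fun p => p.Prime))
        (s₂ := E.filter (fun p => z < p)) (f := fun p : ℕ => 1 / (p : ℝ))
      have h5 : 0 ≤ ∑ p ∈ ({e} : Finset ℕ).filter (fun p => p.Prime) ∩ E.filter (fun p => z < p), 1 / (p : ℝ) :=
        Finset.sum_nonneg (fun p _ => by positivity)
      linarith
    have h4 : ∑ p ∈ ({e} : Finset ℕ).filter (fun p => p.Prime), 1 / (p : ℝ) ≤ 1 / 200 := by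
      rcases he with he | ⟨he1, he2⟩
      · have : ({e} : Finset ℕ).filter (fun p => p.Prime) = ∅ := by
          rw [Finset.filter_eq_empty_iff]
          intro p hp hpp
          rw [Finset.mem_singleton] at hp
          rw [hp, he] at hpp
          exact Nat.not_prime_one hpp
        rw [this, Finset.sum_empty]
        norm_num
      · refine (Finset.sum_le_sum_of_subset_of_nonneg (Finset.filter_subset _ _) (fun p _ _ => by positivity)).trans ?_
        rw [Finset.sum_singleton]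
        apply one_div_le_one_div_of_le (by norm_num)
        exact_mod_cast he2.le
    have h5 : ∑ p ∈ E.filter (fun p => z < p), 1 / (p : ℝ) ≤ 1 / 1000 := by
      have h6 : ∀ p ∈ E.filter (fun p => z < p), 1 / (p : ℝ) ≤ 1 / z := by
        intro p hp
        apply one_div_le_one_div_of_le hz0
        exact_mod_cast (Finset.mem_filter.mp hp).2.le
      refine (Finset.sum_le_sum h6).trans ?_
      rw [Finset.sum_const, nsmul_eq_mul]
      have h7 : (#(E.filter (fun p => z < p)) : ℝ) ≤ #E := by exact_mod_cast Finset.card_filter_le _ _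
      have h8 : (1000 : ℝ) * #E ≤ z := by exact_mod_cast hcard
      rw [mul_one_div, div_le_div_iff₀ hz0 (by norm_num)]
      linarith
    linarith
  calc (1 - 1 / 50) * (∏ p ∈ A, (1 - 1 / (p : ℝ))) * (24 / 100 * ℓ)
      ≤ (∏ p ∈ B \ A, (1 - 1 / (p : ℝ))) * (∏ p ∈ A, (1 - 1 / (p : ℝ))) * (24 / 100 * ℓ) := by
        apply mul_le_mul_of_nonneg_right _ (by positivity)
        exact mul_le_mul_of_nonneg_right hkey hA0
    _ = _ := by ring

/-- `φ(W)/W ≥ c / log z` -/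
lemma MQ.phi_ge (F : MQ k n c ℓ) (hcV : ∀ n : ℕ, 2 ≤ n → c / Real.log n ≤ Vp n) (e : ℕ) :
    c * WW (zf ℓ) e ≤ ((WW (zf ℓ) e).totient : ℝ) * Real.log (zf ℓ) := by
  classical
  have h1 := hcV (zf ℓ) F.z2'
  have hL : 0 < Real.log (zf ℓ) := by linarith [F.z1]
  have hW0 : (0 : ℝ) < WW (zf ℓ) e := by exact_mod_cast WW_pos (zf ℓ) e
  have hpr : ∀ p ∈ Nat.primesLE (zf ℓ), (0 : ℝ) ≤ 1 - 1 / (p : ℝ) ∧ 1 - 1 / (p : ℝ) ≤ 1 := by
    intro p hp
    have h3 : (1 : ℝ) ≤ p := by exact_mod_cast (Nat.mem_primesLE.mp hp).2.one_le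
    have h4 : 1 / (p : ℝ) ≤ 1 := by rw [div_le_one (by linarith)]; exact h3
    have h5 : 0 ≤ 1 / (p : ℝ) := by positivity
    constructor <;> linarith
  have h2 : Vp (zf ℓ) ≤ ∏ p ∈ (Nat.primesLE (zf ℓ)).erase e, (1 - 1 / (p : ℝ)) := by
    unfold Vp
    rw [← Finset.prod_sdiff (Finset.erase_subset e (Nat.primesLE (zf ℓ)))]
    have h3 : ∏ p ∈ Nat.primesLE (zf ℓ) \ (Nat.primesLE (zf ℓ)).erase e, (1 - 1 / (p : ℝ)) ≤ 1 :=
      Finset.prod_le_one (fun p hp => (hpr p (Finset.mem_sdiff.mp hp).1).1)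
        (fun p hp => (hpr p (Finset.mem_sdiff.mp hp).1).2)
    have h4 : 0 ≤ ∏ p ∈ (Nat.primesLE (zf ℓ)).erase e, (1 - 1 / (p : ℝ)) :=
      Finset.prod_nonneg (fun p hp => (hpr p (Finset.mem_of_mem_erase hp)).1)
    exact mul_le_of_le_one_left h4 h3
  rw [totient_WW_eq]
  have h3 : c ≤ (∏ p ∈ (Nat.primesLE (zf ℓ)).erase e, (1 - 1 / (p : ℝ))) * Real.log (zf ℓ) := by
    rw [div_le_iff₀ hL] at h1
    exact h1.trans (mul_le_mul_of_nonneg_right h2 hL.le)
  calc c * WW (zf ℓ) e ≤ ((∏ p ∈ (Nat.primesLE (zf ℓ)).erase e, (1 - 1 / (p : ℝ))) * Real.log (zf ℓ)) * WW (zf ℓ) e :=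
        mul_le_mul_of_nonneg_right h3 hW0.le
    _ = _ := by ring

end Pool.Agent.H21.QG
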