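import Pool.Agent.H21.QG.Defs

/-!
JOB QG-08 (about 120 lines): the smooth weight in residue classes, and the size of its total mass.

`tent x0 y = max 0 (1 - |log y - log x0|)` for positive arguments (`tent_eq`, H16/TypeI2 or nearby; also `tent_lip`).
`tent_class`: Abel summation. With `δ n = [n ≡ a mod q] - 1/q` and `S n = ∑ (0 < m ≤ n) δ m`, `|S n| ≤ 3`
(`card_class_abs` in H16/MT8.lean), `N = ⌊exp ℓ⌋₊`,
`∑ (0 < n ≤ N) τ n δ n = τ N S N - ∑ (0 < n < N) (τ (n+1) - τ n) S n`, and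
`|τ (n+1) - τ n| ≤ log (n+1) - log n` by `tent_lip`, it is `0` unless `n + 1 ≥ exp ℓ / 9` (`tent_big`,
H16/EB4.lean), so the sum of the differences is `≤ log N - log (exp ℓ/9 - 1) ≤ log 9 + 1 ≤ 4` (telescoping; small
`N`: then `τ` is bounded by `1` and there are few terms; choose the constant `30` generously, you may
also add a hypothesis like `10 ≤ ℓ`, it is there).
`TM_ge`: `tent (exp ℓ/3) n ≥ 1 - log 2 ≥ 3/10` for `exp ℓ/6 ≤ n ≤ 2 exp ℓ/3`, more than `exp ℓ/2 - 1`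
integers.
`TM_le`: `tent ≤ 1`.
-/

set_option autoImplicit false

open Finset Filter Topology

namespace Pool.Agent.H21.QG

open Pool.Agent.H16

/-- real summation by parts -/
lemma tentClass_abel (f w : ℕ → ℝ) (M : ℕ) :
    ∑ n ∈ Ioc 0 M, f n * w n = (∑ n ∈ Ioc 0 M, f n) * w M -
      ∑ n ∈ range M, (∑ k ∈ Ioc 0 n, f k) * (w (n + 1) - w n) := by
  induction M with
  | zero => simp
  | succ M ih =>
    rw [Finset.sum_Ioc_succ_top (Nat.zero_le M), ih, Finset.sum_range_succ,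
      Finset.sum_Ioc_succ_top (Nat.zero_le M)]
    ring

lemma tentClass_bound (f w : ℕ → ℝ) (B V : ℝ) (hB : 0 ≤ B) (N : ℕ)
    (hS : ∀ n ≤ N, |∑ k ∈ Ioc 0 n, f k| ≤ B) (hw : |w N| ≤ 1) (e : ℕ → ℝ)
    (he : ∀ n, 1 ≤ n → n < N → |w (n + 1) - w n| ≤ e n) (he0 : 0 ≤ e 0)
    (hV : ∑ n ∈ range N, e n ≤ V) :
    |∑ n ∈ Ioc 0 N, f n * w n| ≤ B * (1 + V) := by
  rw [tentClass_abel]
  have h1 : |(∑ n ∈ Ioc 0 N, f n) * w N| ≤ B * 1 := by
    rw [abs_mul]
    exact mul_le_mul (hS N le_rfl) hw (abs_nonneg _) hB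
  have h2 : |∑ n ∈ range N, (∑ k ∈ Ioc 0 n, f k) * (w (n + 1) - w n)| ≤ B * V := by
    refine (Finset.abs_sum_le_sum_abs _ _).trans ?_
    have h3 : ∀ n ∈ range N, |(∑ k ∈ Ioc 0 n, f k) * (w (n + 1) - w n)| ≤ B * e n := by
      intro n hn
      rw [Finset.mem_range] at hn
      rw [abs_mul]
      rcases Nat.eq_zero_or_pos n with h0 | h0
      · subst h0
        simp only [Finset.Ioc_self, Finset.sum_empty, abs_zero, zero_mul]
        exact mul_nonneg hB he0
      · exact mul_le_mul (hS n hn.le) (he n h0 hn) (abs_nonneg _) hB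
    refine (Finset.sum_le_sum h3).trans ?_
    rw [← Finset.mul_sum]
    exact mul_le_mul_of_nonneg_left hV hB
  calc _ ≤ |(∑ n ∈ Ioc 0 N, f n) * w N| + |∑ n ∈ range N, (∑ k ∈ Ioc 0 n, f k) * (w (n + 1) - w n)| :=
        abs_sub _ _
    _ ≤ B * 1 + B * V := add_le_add h1 h2
    _ = _ := by ring

lemma tentClass_tele (n0 : ℕ) : ∀ M, n0 ≤ M →
    ∑ n ∈ range M, (if n0 ≤ n then Real.log ((n + 1 : ℕ) : ℝ) - Real.log n else 0) =
      Real.log M - Real.log n0 := by
  intro M hM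
  induction M, hM using Nat.le_induction with
  | base =>
    rw [sub_self]
    refine Finset.sum_eq_zero fun n hn => ?_
    rw [Finset.mem_range] at hn
    rw [if_neg (by omega)]
  | succ m hm ih =>
    rw [Finset.sum_range_succ, ih, if_pos hm]
    ring

lemma tentClass_exp_big {ℓ : ℝ} (hℓ : 10 ≤ ℓ) : 1000 ≤ Real.exp ℓ := by
  have h1 : Real.exp 10 ≤ Real.exp ℓ := Real.exp_le_exp.mpr hℓ
  have h2 : Real.exp 10 = Real.exp 1 ^ 10 := by
    rw [← Real.exp_nat_mul]; norm_num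
  have h3 : (2 : ℝ) ^ 10 ≤ Real.exp 1 ^ 10 :=
    pow_le_pow_left₀ (by norm_num) (by have := Real.exp_one_gt_d9; linarith) 10
  rw [h2] at h1
  have : (2 : ℝ) ^ 10 = 1024 := by norm_num
  linarith

lemma tentClass_log18 : Real.log 18 ≤ 3 := by
  rw [Real.log_le_iff_le_exp (by norm_num)]
  have h2 : Real.exp 3 = Real.exp 1 ^ 3 := by
    rw [← Real.exp_nat_mul]; norm_num
  rw [h2]
  have h3 : (2.7 : ℝ) ^ 3 ≤ Real.exp 1 ^ 3 :=
    pow_le_pow_left₀ (by norm_num) (by have := Real.exp_one_gt_d9; linarith) 3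
  have : (2.7 : ℝ) ^ 3 = 19.683 := by norm_num
  linarith

lemma tent_class {ℓ : ℝ} (hℓ : 10 ≤ ℓ) (q a : ℕ) (hq : 0 < q) :
    |∑ n ∈ (Ioc 0 ⌊Real.exp ℓ⌋₊).filter (fun n => n ≡ a [MOD q]), tent (Real.exp ℓ / 3) n -
      TM ℓ / q| ≤ 30 := by
  classical
  have hX := tentClass_exp_big hℓ
  set N := ⌊Real.exp ℓ⌋₊ with hN
  set τ : ℕ → ℝ := fun n => tent (Real.exp ℓ / 3) n with hτ
  set f : ℕ → ℝ := fun n => (if n ≡ a [MOD q] then 1 else 0) - 1 / (q : ℝ) with hf
  have h0 : ∑ n ∈ (Ioc 0 N).filter (fun n => n ≡ a [MOD q]), tent (Real.exp ℓ / 3) n - TM ℓ / q =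
      ∑ n ∈ Ioc 0 N, f n * τ n := by
    unfold TM
    rw [Finset.sum_filter, Finset.sum_div, ← hN, ← Finset.sum_sub_distrib]
    refine Finset.sum_congr rfl fun n _ => ?_
    rw [hf, hτ]
    simp only
    split_ifs <;> ring
  rw [h0]
  set n0 := ⌊Real.exp ℓ / 9⌋₊ with hn0
  have hn0N : n0 ≤ N := Nat.floor_le_floor (by linarith)
  have hn0low : Real.exp ℓ / 18 ≤ (n0 : ℝ) := by
    have := Nat.lt_floor_add_one (Real.exp ℓ / 9)
    rw [← hn0] at this
    linarith
  have hNle : (N : ℝ) ≤ Real.exp ℓ := Nat.floor_le (Real.exp_pos _).le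
  have hN1 : 1 ≤ N := by
    rw [hN, Nat.le_floor_iff (Real.exp_pos _).le]
    push_cast
    linarith
  have hx0 : 0 < Real.exp ℓ / 3 := by positivity
  have hV : ∑ n ∈ range N, (if n0 ≤ n then Real.log ((n + 1 : ℕ) : ℝ) - Real.log n else 0) ≤ 3 := by
    rw [tentClass_tele n0 N hn0N]
    have h1 : Real.log N ≤ ℓ := by
      rw [Real.log_le_iff_le_exp (by exact_mod_cast hN1)]
      exact hNle
    have h2 : Real.log (Real.exp ℓ / 18) ≤ Real.log n0 := Real.log_le_log (by positivity) hn0low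
    rw [Real.log_div (Real.exp_pos _).ne' (by norm_num), Real.log_exp] at h2
    have := tentClass_log18
    linarith
  refine (tentClass_bound f τ 3 3 (by norm_num) N ?_ ?_
    (fun n => if n0 ≤ n then Real.log ((n + 1 : ℕ) : ℝ) - Real.log n else 0) ?_ ?_ hV).trans (by norm_num)
  · intro n _
    have h1 := card_class_abs n q a hq
    have h2 : ∑ k ∈ Ioc 0 n, f k = (#((Ioc 0 n).filter (fun n => n ≡ a [MOD q])) : ℝ) - (n : ℝ) / q := by
      rw [hf, Finset.sum_sub_distrib, Finset.card_filter, Finset.sum_const, Nat.card_Ioc]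
      push_cast
      rw [nsmul_eq_mul]
      simp
      ring
    rw [h2]
    exact h1
  · have h1 : (0 : ℝ) < N := by exact_mod_cast hN1
    rw [hτ]
    simp only
    rw [abs_of_nonneg (tent_nonneg _ _ hx0 h1)]
    exact tent_le_one _ _ hx0 h1
  · intro n hn _
    have hn' : (0 : ℝ) < n := by exact_mod_cast hn
    split_ifs with hc
    · have h1 := tent_lip (Real.exp ℓ / 3) n ((n + 1 : ℕ) : ℝ) hx0 hn' (by push_cast; linarith)
      exact h1
    · have h3 : ¬ (Real.exp ℓ / 9 < ((n + 1 : ℕ) : ℝ)) := by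
        intro h4
        apply hc
        have h5 : n0 < n + 1 := by
          rw [hn0, Nat.floor_lt (by positivity)]
          exact h4
        omega
      have h1 : tent (Real.exp ℓ / 3) ((n + 1 : ℕ) : ℝ) = 0 := by
        by_contra hne
        exact h3 (tent_big ℓ (n + 1) (by omega) hne)
      have h2 : tent (Real.exp ℓ / 3) (n : ℝ) = 0 := by
        by_contra hne
        apply h3
        have := tent_big ℓ n hn hne
        push_cast
        linarith
      rw [hτ]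
      simp only
      rw [h1, h2, sub_zero, abs_zero]
  · split_ifs
    · simp
    · exact le_rfl

lemma TM_ge {ℓ : ℝ} (hℓ : 10 ≤ ℓ) : Real.exp ℓ / 20 ≤ TM ℓ := by
  have hX := tentClass_exp_big hℓ
  set X := Real.exp ℓ with hXdef
  have hx0 : 0 < X / 3 := by positivity
  set N1 := ⌈X / 6⌉₊ with hN1
  set N2 := ⌊2 * X / 3⌋₊ with hN2
  have h1 : X / 6 ≤ (N1 : ℝ) := Nat.le_ceil _
  have h1' : (N1 : ℝ) < X / 6 + 1 := Nat.ceil_lt_add_one (by positivity)
  have h2 : (N2 : ℝ) ≤ 2 * X / 3 := Nat.floor_le (by positivity)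
  have h2' : 2 * X / 3 < (N2 : ℝ) + 1 := Nat.lt_floor_add_one _
  have h12 : N1 ≤ N2 := by
    have : (N1 : ℝ) ≤ (N2 : ℝ) := by linarith
    exact_mod_cast this
  have hN1pos : 0 < N1 := by
    have : (0 : ℝ) < N1 := by linarith
    exact_mod_cast this
  have hsub : Icc N1 N2 ⊆ Ioc 0 ⌊X⌋₊ := by
    intro n hn
    rw [Finset.mem_Icc] at hn
    rw [Finset.mem_Ioc]
    refine ⟨by omega, hn.2.trans (Nat.floor_le_floor (by linarith))⟩
  have h3 : ∑ n ∈ Icc N1 N2, tent (X / 3) n ≤ TM ℓ := by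
    unfold TM
    refine Finset.sum_le_sum_of_subset_of_nonneg hsub fun n hn _ => ?_
    rw [Finset.mem_Ioc] at hn
    exact tent_nonneg _ _ hx0 (by exact_mod_cast hn.1)
  have h4 : ∀ n ∈ Icc N1 N2, (3 / 10 : ℝ) ≤ tent (X / 3) n := by
    intro n hn
    rw [Finset.mem_Icc] at hn
    have hn1 : X / 6 ≤ (n : ℝ) := h1.trans (by exact_mod_cast hn.1)
    have hn2 : (n : ℝ) ≤ 2 * X / 3 := le_trans (by exact_mod_cast hn.2) h2
    have hn0 : (0 : ℝ) < n := by linarith
    rw [tent_eq _ _ hx0 hn0]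
    refine le_max_of_le_right ?_
    have g1 : Real.log n ≤ Real.log (X / 3) + Real.log 2 := by
      rw [← Real.log_mul hx0.ne' (by norm_num)]
      exact Real.log_le_log hn0 (by linarith)
    have g2 : Real.log (X / 3) ≤ Real.log n + Real.log 2 := by
      rw [← Real.log_mul hn0.ne' (by norm_num)]
      exact Real.log_le_log hx0 (by linarith)
    have g3 := Real.log_two_lt_d9
    have g4 : |Real.log (X / 3) - Real.log n| ≤ Real.log 2 := by
      rw [abs_le]
      constructor <;> linarith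
    linarith
  have h5 : (3 / 10 : ℝ) * (N2 + 1 - N1) ≤ ∑ n ∈ Icc N1 N2, tent (X / 3) n := by
    refine le_trans ?_ (Finset.card_nsmul_le_sum _ _ _ h4)
    rw [Nat.card_Icc, nsmul_eq_mul, Nat.cast_sub (by omega)]
    push_cast
    linarith
  linarith

lemma TM_le (ℓ : ℝ) : TM ℓ ≤ Real.exp ℓ := by
  unfold TM
  have h1 : ∀ n ∈ Ioc 0 ⌊Real.exp ℓ⌋₊, tent (Real.exp ℓ / 3) n ≤ 1 := by
    intro n hn
    rw [Finset.mem_Ioc] at hn
    exact tent_le_one _ _ (by positivity) (by exact_mod_cast hn.1)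
  refine (Finset.sum_le_sum h1).trans ?_
  rw [Finset.sum_const, nsmul_eq_mul, mul_one, Nat.card_Ioc]
  simp only [tsub_zero]
  exact Nat.floor_le (Real.exp_pos _).le

end Pool.Agent.H21.QG
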