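import Pool.Agent.H90.PNT
import Pool.Agent.H21.QG.TentClass

/-!
JOB QG-09 (about 150 lines): the prime number theorem for the smooth weight.

`XT ℓ y = ∑ (n ≤ exp ℓ, n prime, n > y) log n * tent (exp ℓ / 3) n` (`aw`, H16/SAN.lean), and
`Pool.Agent.H90.tendsto_theta_div : θ x / x → 1`.
Proof of `XT_ge`: let `x = exp ℓ`, `η = 1/1000`, and cut `(x/9, x]` (or the support `(x/(3e), e x/3]`) into
finitely many (number independent of `x`) intervals `(u_j, u_(j+1)]`, `u_(j+1) = (1+η) u_j`. On such an interval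
`tent` varies by at most `η` (`tent_lip`, `log (1+η) ≤ η`). By the PNT, with `δ' ` small,
`θ (u_(j+1)) - θ (u_j) ≥ (u_(j+1) - u_j) - δ' x`. Therefore
`XT ≥ ∑ j, (inf tent) (θ (u_(j+1)) - θ (u_j)) ≥ ∑ j (inf tent) (u_(j+1) - u_j) - J δ' x`
and `TM ≤ ∑ j (sup tent) (u_(j+1) - u_j + 1) `, `sup - inf ≤ η`. As `TM ≥ x/20` the claim follows. (All
the primes in the range are `> y` because `y ≤ exp (ℓ/2) < x/9`.)
Alternative: Abel summation, `∑ a_n τ(n)` with `a_n = log n [n prime] - 1`, `|∑ (m ≤ n) a_m| ≤ δ' x` for all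
`n ≤ x` (this follows from the PNT: for `n ≥ sqrt x` use `|θ n - n| ≤ δ' n`, for `n < sqrt x` it is
`≤ 3 sqrt x`), and the total variation of `τ` on the integers is `≤ 4` (as in TentClass). This is shorter.
`XT_le`: same, or Chebyshev: `XT ≤ θ x ≤ log 4 * x ≤ 2 x`.
-/

set_option autoImplicit false

open Finset Filter Topology

namespace Pool.Agent.H21.QG

open Pool.Agent.H16

/-- Abel summation. -/
lemma PM_abel (τ δ : ℕ → ℝ) (N : ℕ) :
    ∑ n ∈ Ioc 0 N, τ n * δ n = τ N * (∑ m ∈ Ioc 0 N, δ m) -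
      ∑ n ∈ range N, (τ (n + 1) - τ n) * ∑ m ∈ Ioc 0 n, δ m := by
  induction N with
  | zero => simp
  | succ N ih =>
    rw [Finset.sum_Ioc_succ_top (Nat.zero_le N), ih, Finset.sum_range_succ,
      Finset.sum_Ioc_succ_top (Nat.zero_le N) (fun m => δ m)]
    ring

lemma PM_abel_bound (τ δ g : ℕ → ℝ) (B : ℝ) (N : ℕ) (hB : 0 ≤ B) (hτ : |τ N| ≤ 1)
    (hS : ∀ n ≤ N, |∑ m ∈ Ioc 0 n, δ m| ≤ B)
    (hg : ∀ n, 1 ≤ n → n < N → |τ (n + 1) - τ n| ≤ g (n + 1) - g n) (hg0 : g 0 ≤ g 1) :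
    |∑ n ∈ Ioc 0 N, τ n * δ n| ≤ B + (g N - g 0) * B := by
  rw [PM_abel]
  have h1 : |τ N * (∑ m ∈ Ioc 0 N, δ m)| ≤ B := by
    rw [abs_mul]
    calc |τ N| * |∑ m ∈ Ioc 0 N, δ m| ≤ 1 * B :=
          mul_le_mul hτ (hS N le_rfl) (abs_nonneg _) zero_le_one
      _ = B := one_mul B
  have h2 : |∑ n ∈ range N, (τ (n + 1) - τ n) * ∑ m ∈ Ioc 0 n, δ m| ≤ (g N - g 0) * B := by
    refine (Finset.abs_sum_le_sum_abs _ _).trans ?_
    rw [← Finset.sum_range_sub g N, Finset.sum_mul]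
    apply Finset.sum_le_sum
    intro n hn
    rw [Finset.mem_range] at hn
    rcases Nat.eq_zero_or_pos n with h0 | h0
    · subst h0
      simp only [Finset.Ioc_self, Finset.sum_empty, mul_zero, abs_zero]
      exact mul_nonneg (by simpa using hg0) hB
    · rw [abs_mul]
      exact mul_le_mul (hg n h0 hn) (hS n hn.le) (abs_nonneg _)
        ((abs_nonneg _).trans (hg n h0 hn))
  have h3 := abs_sub (τ N * (∑ m ∈ Ioc 0 N, δ m))
    (∑ n ∈ range N, (τ (n + 1) - τ n) * ∑ m ∈ Ioc 0 n, δ m)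
  linarith

/-- the error terms of the prime number theorem -/
lemma PM_theta (η : ℝ) (hη : 0 < η) : ∀ᶠ x : ℝ in atTop, ∀ n : ℕ, (n : ℝ) ≤ x →
    |Chebyshev.theta n - n| ≤ η * x := by
  have h1 := Pool.Agent.H90.tendsto_theta_div
  rw [Metric.tendsto_atTop] at h1
  obtain ⟨Y, hY⟩ := h1 η hη
  filter_upwards [eventually_ge_atTop (max 1 (4 * (|Y| + 1) / η))] with x hx n hn
  have hx1 : 1 ≤ x := (le_max_left _ _).trans hx
  have hx2 : 4 * (|Y| + 1) / η ≤ x := (le_max_right _ _).trans hx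
  by_cases hc : |Y| + 1 ≤ n
  · have hYn : Y ≤ n := by linarith [le_abs_self Y]
    have hn0 : (0 : ℝ) < n := by linarith [abs_nonneg Y]
    have h2 := hY n hYn
    rw [Real.dist_eq] at h2
    have h3 : Chebyshev.theta n / n - 1 = (Chebyshev.theta n - n) / n := by
      field_simp
    rw [h3, abs_div, abs_of_pos hn0, div_lt_iff₀ hn0] at h2
    calc |Chebyshev.theta n - n| ≤ η * n := h2.le
      _ ≤ η * x := by gcongr
  · push Not at hc
    rw [div_le_iff₀ hη] at hx2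
    have h4 : Chebyshev.theta n ≤ Real.log 4 * n := Chebyshev.theta_le_log4_mul_x (Nat.cast_nonneg n)
    have h5 := Chebyshev.theta_nonneg (n : ℝ)
    have hlog : Real.log 4 ≤ 2 := by
      have : Real.log 4 = 2 * Real.log 2 := by
        rw [show (4 : ℝ) = 2 ^ 2 by norm_num, Real.log_pow]
        norm_num
      linarith [Real.log_two_lt_d9]
    have hn0 : (0 : ℝ) ≤ n := Nat.cast_nonneg n
    have h6 : Real.log 4 * n ≤ 2 * n := by gcongr
    rw [abs_le]
    constructor <;> nlinarith [abs_nonneg Y]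

lemma PM_sum_delta (n : ℕ) :
    ∑ m ∈ Ioc 0 n, ((if m.Prime then Real.log m else 0) - 1) = Chebyshev.theta n - n := by
  rw [Finset.sum_sub_distrib, Chebyshev.theta, Nat.floor_natCast, Finset.sum_filter]
  simp

lemma PM_log18 : Real.log 18 ≤ 3 := by
  have h1 : (18 : ℝ) ≤ Real.exp 3 := by
    have h2 : Real.exp 3 = Real.exp 1 ^ 3 := by
      rw [← Real.exp_nat_mul]
      norm_num
    rw [h2]
    have h3 := Real.exp_one_gt_d9
    have h4 : (2.7 : ℝ) ≤ Real.exp 1 := by linarith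
    calc (18 : ℝ) ≤ 2.7 ^ 3 := by norm_num
      _ ≤ Real.exp 1 ^ 3 := by gcongr
  calc Real.log 18 ≤ Real.log (Real.exp 3) := Real.log_le_log (by norm_num) h1
    _ = 3 := Real.log_exp 3

lemma PM_tv {ℓ : ℝ} (n : ℕ) (hn : 1 ≤ n) :
    |tent (Real.exp ℓ / 3) ((n + 1 : ℕ) : ℝ) - tent (Real.exp ℓ / 3) n| ≤
      max (Real.log ((n + 1 : ℕ) : ℝ)) (Real.log (Real.exp ℓ / 18)) -
        max (Real.log n) (Real.log (Real.exp ℓ / 18)) := by
  have hn0 : (0 : ℝ) < n := by exact_mod_cast hn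
  have hle : (n : ℝ) ≤ ((n + 1 : ℕ) : ℝ) := by push_cast; linarith
  have hlog : Real.log n ≤ Real.log ((n + 1 : ℕ) : ℝ) := Real.log_le_log hn0 hle
  by_cases hc : Real.exp ℓ / 9 < ((n + 1 : ℕ) : ℝ)
  · have h1 : Real.exp ℓ / 18 ≤ n := by
      push_cast at hc
      have : (1 : ℝ) ≤ n := by exact_mod_cast hn
      linarith
    have h2 : Real.log (Real.exp ℓ / 18) ≤ Real.log n := Real.log_le_log (by positivity) h1
    rw [max_eq_left h2, max_eq_left (h2.trans hlog)]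
    exact tent_lip _ _ _ (by positivity) hn0 hle
  · have h1 : tent (Real.exp ℓ / 3) ((n + 1 : ℕ) : ℝ) = 0 := by
      by_contra h
      exact hc (tent_big ℓ (n + 1) (Nat.succ_pos n) h)
    have h2 : tent (Real.exp ℓ / 3) n = 0 := by
      by_contra h
      exact hc ((tent_big ℓ n hn h).trans_le hle)
    rw [h1, h2, sub_zero, abs_zero, sub_nonneg]
    exact max_le_max hlog le_rfl

lemma PM_aw {ℓ : ℝ} (hℓ : 10 ≤ ℓ) (y : ℕ) (hy : (y : ℝ) ≤ Real.exp (ℓ / 2)) (n : ℕ) (hn : 0 < n) :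
    aw ℓ y n = tent (Real.exp ℓ / 3) n * ((if n.Prime then Real.log n else 0) - 1) +
      tent (Real.exp ℓ / 3) n := by
  have h0 : tent (Real.exp ℓ / 3) n * ((if n.Prime then Real.log n else 0) - 1) +
      tent (Real.exp ℓ / 3) n = tent (Real.exp ℓ / 3) n * (if n.Prime then Real.log n else 0) := by
    ring
  rw [h0]
  unfold aw
  by_cases hp : n.Prime
  · by_cases hyn : y < n
    · rw [if_pos ⟨hp, hyn⟩, if_pos hp, mul_comm]
    · rw [if_neg (fun h => hyn h.2), if_pos hp]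
      have h1 : tent (Real.exp ℓ / 3) n = 0 := by
        by_contra h
        have h2 := tent_big ℓ n hn h
        have h3 : (n : ℝ) ≤ y := by exact_mod_cast not_lt.1 hyn
        have h4 : Real.exp ℓ = Real.exp (ℓ / 2) * Real.exp (ℓ / 2) := by
          rw [← Real.exp_add]
          congr 1
          ring
        have h5 : (9 : ℝ) ≤ Real.exp (ℓ / 2) := by
          have h6 : Real.exp 5 ≤ Real.exp (ℓ / 2) := Real.exp_le_exp.2 (by linarith)
          have h7 : Real.exp 5 = Real.exp 1 ^ 5 := by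
            rw [← Real.exp_nat_mul]
            norm_num
          have h8 := Real.exp_one_gt_d9
          have h9 : (2 : ℝ) ≤ Real.exp 1 := by linarith
          have h10 : (9 : ℝ) ≤ Real.exp 1 ^ 5 := by
            calc (9 : ℝ) ≤ 2 ^ 5 := by norm_num
              _ ≤ Real.exp 1 ^ 5 := by gcongr
          linarith
        have h6 : Real.exp (ℓ / 2) * 9 ≤ Real.exp ℓ := by
          rw [h4]
          gcongr
        linarith
      rw [h1, zero_mul]
  · rw [if_neg (fun h => hp h.1), if_neg hp, mul_zero]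

lemma XT_ge : ∀ᶠ ℓ : ℝ in atTop, ∀ y : ℕ, (y : ℝ) ≤ Real.exp (ℓ / 2) →
    (1 - 1 / 100) * TM ℓ ≤ XT ℓ y := by
  filter_upwards [Real.tendsto_exp_atTop.eventually (PM_theta (1 / 8000) (by norm_num)),
    eventually_ge_atTop 10] with ℓ h1 hℓ y hy
  have hx : (1000 : ℝ) ≤ Real.exp ℓ := by
    have h6 : Real.exp 10 ≤ Real.exp ℓ := Real.exp_le_exp.2 hℓ
    have h7 : Real.exp 10 = Real.exp 1 ^ 10 := by
      rw [← Real.exp_nat_mul]
      norm_num
    have h8 := Real.exp_one_gt_d9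
    have h9 : (2 : ℝ) ≤ Real.exp 1 := by linarith
    have h10 : (1000 : ℝ) ≤ Real.exp 1 ^ 10 := by
      calc (1000 : ℝ) ≤ 2 ^ 10 := by norm_num
        _ ≤ Real.exp 1 ^ 10 := by gcongr
    linarith
  have hN : (⌊Real.exp ℓ⌋₊ : ℝ) ≤ Real.exp ℓ := Nat.floor_le (Real.exp_pos ℓ).le
  have hN0 : 0 < ⌊Real.exp ℓ⌋₊ := Nat.floor_pos.2 (by linarith)
  have hN0' : (0 : ℝ) < ⌊Real.exp ℓ⌋₊ := by exact_mod_cast hN0
  have h2 : XT ℓ y = ∑ n ∈ Ioc 0 ⌊Real.exp ℓ⌋₊, tent (Real.exp ℓ / 3) n *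
      ((if n.Prime then Real.log n else 0) - 1) + TM ℓ := by
    unfold XT TM
    rw [← Finset.sum_add_distrib]
    apply Finset.sum_congr rfl
    intro n hn
    exact PM_aw hℓ y hy n (Finset.mem_Ioc.1 hn).1
  have hlog0 : 0 ≤ Real.log (Real.exp ℓ / 18) := Real.log_nonneg (by linarith)
  have h3 := PM_abel_bound (fun n => tent (Real.exp ℓ / 3) n)
    (fun n => (if n.Prime then Real.log n else 0) - 1)
    (fun n => max (Real.log n) (Real.log (Real.exp ℓ / 18))) (1 / 8000 * Real.exp ℓ)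
    ⌊Real.exp ℓ⌋₊ (by positivity)
    (by
      rw [abs_of_nonneg (tent_nonneg _ _ (by positivity) hN0')]
      exact tent_le_one _ _ (by positivity) hN0')
    (by
      intro n hn
      rw [PM_sum_delta]
      apply h1
      calc (n : ℝ) ≤ ⌊Real.exp ℓ⌋₊ := by exact_mod_cast hn
        _ ≤ Real.exp ℓ := hN)
    (fun n hn _ => PM_tv n hn)
    (by simp)
  have h4 : max (Real.log (⌊Real.exp ℓ⌋₊ : ℝ)) (Real.log (Real.exp ℓ / 18)) -
      max (Real.log ((0 : ℕ) : ℝ)) (Real.log (Real.exp ℓ / 18)) ≤ 3 := by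
    have e1 : max (Real.log (⌊Real.exp ℓ⌋₊ : ℝ)) (Real.log (Real.exp ℓ / 18)) ≤
        Real.log (Real.exp ℓ) :=
      max_le (Real.log_le_log hN0' hN) (Real.log_le_log (by positivity) (by linarith))
    have e2 : Real.log (Real.exp ℓ / 18) ≤
        max (Real.log ((0 : ℕ) : ℝ)) (Real.log (Real.exp ℓ / 18)) := le_max_right _ _
    have e3 : Real.log (Real.exp ℓ / 18) = Real.log (Real.exp ℓ) - Real.log 18 :=
      Real.log_div (Real.exp_pos ℓ).ne' (by norm_num)
    linarith [PM_log18]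
  have h5 : |∑ n ∈ Ioc 0 ⌊Real.exp ℓ⌋₊, tent (Real.exp ℓ / 3) n *
      ((if n.Prime then Real.log n else 0) - 1)| ≤ Real.exp ℓ / 2000 := by
    refine h3.trans ?_
    have h6 := mul_le_mul_of_nonneg_right h4 (show (0 : ℝ) ≤ 1 / 8000 * Real.exp ℓ by positivity)
    linarith
  have h6 := TM_ge hℓ
  rw [h2]
  have h7 := (abs_le.1 h5).1
  linarith

lemma XT_le {ℓ : ℝ} (y : ℕ) : XT ℓ y ≤ 2 * Real.exp ℓ := by
  have h1 : XT ℓ y ≤ Chebyshev.theta (Real.exp ℓ) := by
    unfold XT Chebyshev.theta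
    rw [Finset.sum_filter]
    apply Finset.sum_le_sum
    intro n hn
    have hn0 : (0 : ℝ) < n := by exact_mod_cast (Finset.mem_Ioc.1 hn).1
    have h2 := tent_le_one (Real.exp ℓ / 3) n (by positivity) hn0
    have h3 := tent_nonneg (Real.exp ℓ / 3) n (by positivity) hn0
    have h4 := Real.log_natCast_nonneg n
    unfold aw
    split_ifs with h5 h6
    · nlinarith
    · exact absurd h5.1 h6
    · exact h4
    · exact le_rfl
  have h2 := Chebyshev.theta_le_log4_mul_x (Real.exp_pos ℓ).le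
  have hlog : Real.log 4 ≤ 2 := by
    have : Real.log 4 = 2 * Real.log 2 := by
      rw [show (4 : ℝ) = 2 ^ 2 by norm_num, Real.log_pow]
      norm_num
    linarith [Real.log_two_lt_d9]
  have h3 : Real.log 4 * Real.exp ℓ ≤ 2 * Real.exp ℓ := by gcongr
  linarith

end Pool.Agent.H21.QG
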