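import Pool.Agent.H21.QG.PairSum
import Pool.Agent.H21.QG.PNTmass
import Pool.Agent.H21.QG.Count
import Pool.Agent.H21.QG.Err2
import Pool.Agent.H21.QG.GFinal
import Pool.Agent.H21.QG.Core
import Pool.Agent.H16.MT2
import Pool.Agent.H16.PG7

/-!
The five-cluster theorem (assembly by helper21).
-/

set_option autoImplicit false

open Finset Filter Topology

namespace Pool.Agent.H21.QG

open Pool.Agent.H16
open Pool.Agent.H90 (MT.Col MT.Lam MT.GOK MT.A1 MT.A2)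

/-- good integers: primes in two different clusters of `ν + H`, and no prime outside `ν + H` up to the end -/
noncomputable def MG5 (ℓ : ℝ) (H : Fin 5 → Finset ℕ) : Finset ℕ := by
  classical
  exact (Ioc 0 ⌊Real.exp ℓ⌋₊).filter (fun ν =>
    (∃ i j, i ≠ j ∧ (∃ τ ∈ H i, (ν + τ).Prime ∧ ν + τ ≤ ⌊Real.exp ℓ⌋₊) ∧
      ∃ τ ∈ H j, (ν + τ).Prime ∧ ν + τ ≤ ⌊Real.exp ℓ⌋₊) ∧
    ∀ u ≤ (Finset.univ.biUnion H).sup id, u ∉ Finset.univ.biUnion H → ¬ (ν + u).Prime)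

theorem five_good : ∃ K : ℕ, 0 < K ∧ ∃ c : ℝ, 0 < c ∧ ∀ ε : ℝ, 0 < ε →
    ∀ᶠ ℓ : ℝ in atTop, ∀ H : Fin 5 → Finset ℕ, (∀ i, #(H i) = K) →
    (∀ i j, i ≠ j → Disjoint (H i) (H j)) →
    (∀ p, p.Prime → ∃ r, ∀ i, ∀ τ ∈ H i, r % p ≠ τ % p) →
    (∀ i, ∀ τ ∈ H i, (τ : ℝ) ≤ c * RS ℓ) → Real.exp ((1 - ε) * ℓ) ≤ #(MG5 ℓ H) := by
  classical
  -- constants
  obtain ⟨c0, hc0, hcV0⟩ := Vp_ge
  set c : ℝ := min c0 1 with hcdef
  have hc : 0 < c := by positivity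
  have hc1 : c ≤ 1 := min_le_right _ _
  have hcV : ∀ n : ℕ, 2 ≤ n → c / Real.log n ≤ Vp n := by
    intro n hn
    refine le_trans ?_ (hcV0 n hn)
    have : 0 ≤ Real.log n := Real.log_natCast_nonneg n
    exact div_le_div_of_nonneg_right (min_le_left _ _) this
  set n1 : ℕ := ⌈40 * 5 * 1100 * 1280000 / c ^ 5⌉₊ with hn1def
  have hn1 : 40 * 5 * 1100 * 1280000 / c ^ 5 ≤ n1 := Nat.le_ceil _
  set n : ℕ := n1 + 1 with hn
  have hn0 : 0 < n := by omega
  have hnm : 40 * 5 * 1100 * 1280000 ≤ c ^ 5 * n := by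
    rw [div_le_iff₀ (by positivity)] at hn1
    have h1 : (n1 : ℝ) * c ^ 5 ≤ n * c ^ 5 := by
      apply mul_le_mul_of_nonneg_right _ (by positivity)
      exact_mod_cast Nat.le_succ n1
    linarith
  set K : ℕ := 2 ^ n with hKdef
  have hK0 : 0 < K := by positivity
  set k : ℕ := 5 * K with hkdef
  have hk2n : 2 ^ n ≤ k := by omega
  have hk2 : 2 ≤ k := by omega
  have hk0 : 0 < k := by omega
  have hk0' : (0 : ℝ) < k := by exact_mod_cast hk0
  have hK1 : (1 : ℝ) ≤ K := by exact_mod_cast hK0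
  have hkK : (k : ℝ) = 5 * K := by rw [hkdef]; push_cast; ring
  obtain ⟨cc, hcc, hcov⟩ := cover_eT k (c / 400000) (by positivity)
  obtain ⟨cR, hcR, hRS⟩ := ev_RS cc hcc
  set A : ℝ := 2 * (k : ℝ) + 12 with hA
  have hA0 : 0 ≤ A := by positivity
  obtain ⟨L1, hL1⟩ := RP_supK (1 / 100) (by norm_num) (by norm_num) A hA0 ((k + 1) ^ 2)
  obtain ⟨L3, hL3⟩ := smallProp_exists
    ((2 * A + 4 + (((k + 1) ^ 2 : ℕ) : ℝ) ^ 2) + 1 + 4)
    ((2 * A + 4 + (((k + 1) ^ 2 : ℕ) : ℝ) ^ 2) + 1 + 3 + 12) (by positivity) (by positivity) (4 ^ 200)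
  refine ⟨K, hK0, cR / 2, by positivity, fun ε hε => ?_⟩
  filter_upwards [eventually_ge_atTop L1, eventually_ge_atTop L3, tendsto_zf.eventually hcov, hRS,
    tendsto_RS.eventually (eventually_ge_atTop (2 / cR)), ev_MQ k n hk0 hn0 c hc, ev_W (1 / 10) (by norm_num),
    ev_W (ε / 4) (by positivity), ev_errQ k c hc, ev_finalQ k hk0 c ε hc hε, zf_le_exp, XT_ge,
    eventually_ge_atTop (10 ^ 9 * (K : ℝ) ^ 2)]
    with ℓ l1 l3 hcov hRS hRS1 F hW10 hWε herr hfin hzy hXge hℓK H hH hdisj hadm hHle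
  obtain ⟨zy1, zy2, _, _⟩ := hzy
  have hℓ0 := F.ℓ0
  have hℓbig := F.ℓbig
  have hYQ0 : 0 ≤ YQ ℓ := by unfold YQ; positivity
  set x := Real.exp ℓ with hx
  have hx0 : 0 < x := Real.exp_pos _
  set z := zf ℓ with hz
  set L := Real.log (z : ℝ) with hL
  have hL1' : 1 ≤ L := by linarith [F.z1]
  have hLpos : 0 < L := by linarith
  set ρ := rQ c k n ℓ with hρ
  have hn0' : (0 : ℝ) < n := by exact_mod_cast hn0
  have hρ0 : 0 < ρ := by rw [hρ]; unfold rQ; positivity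
  set y := yy ℓ with hy
  have hyle : (y : ℝ) ≤ Real.exp (ℓ / 2) := yy_le ℓ
  -- exceptional prime
  obtain ⟨q₁, hq₁, hSP⟩ := hL3 ℓ l3
  obtain ⟨e, he, hexc⟩ := exc_prime 200 q₁ hq₁
  have he1 : 1 ≤ e := by
    rcases he with h | ⟨h, _⟩
    · omega
    · exact h.one_le
  set W := WW z e with hWdef
  have hWpos : 0 < W := WW_pos z e
  have hWpos' : (0 : ℝ) < W := by exact_mod_cast hWpos
  have hφpos : (0 : ℝ) < (W.totient : ℝ) := by exact_mod_cast Nat.totient_pos.mpr hWpos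
  -- the tuple
  set T : Finset ℕ := Finset.univ.biUnion H with hTdef
  have hTcard : #T ≤ k := by
    calc #T ≤ ∑ i : Fin 5, #(H i) := Finset.card_biUnion_le
      _ = k := by simp [hH, hkdef]
  set h : Fin k → ℕ := fun j => (H (Fin.divNat (m := 5) (n := K) j)).orderEmbOfFin (hH _)
    (Fin.modNat (m := 5) (n := K) j) with hh
  set cl : Fin k → Fin 5 := fun j => Fin.divNat (m := 5) (n := K) j with hcldef
  have hmemH : ∀ j, h j ∈ H (cl j) := fun j => Finset.orderEmbOfFin_mem _ (hH _) _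
  have hdm : ∀ j j' : Fin k, Fin.divNat (m := 5) (n := K) j = Fin.divNat (m := 5) (n := K) j' →
      Fin.modNat (m := 5) (n := K) j = Fin.modNat (m := 5) (n := K) j' → j = j' := by
    intro j j' h1 h2
    have h3 : (finProdFinEquiv (m := 5) (n := K)).symm j = (finProdFinEquiv (m := 5) (n := K)).symm j' :=
      Prod.ext h1 h2
    exact (finProdFinEquiv (m := 5) (n := K)).symm.injective h3
  have hclh : ∀ j j', h j = h j' → cl j = cl j' := by
    intro j j' hjj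
    by_contra hne
    have h1 := hmemH j
    have h2 := hmemH j'
    rw [hjj] at h1
    exact (Finset.disjoint_left.mp (hdisj _ _ hne)) h1 h2
  have horder : ∀ (i i' : Fin 5) (s s' : Fin K), i = i' →
      (H i).orderEmbOfFin (hH i) s = (H i').orderEmbOfFin (hH i') s' → s = s' := by
    rintro i _ s s' rfl h1
    exact ((H i).orderEmbOfFin (hH i)).injective h1
  have hinj : Function.Injective h := by
    intro j j' hjj
    exact hdm j j' (hclh j j' hjj) (horder _ _ _ _ (hclh j j' hjj) hjj)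
  have hmemT : ∀ j, h j ∈ T := fun j => Finset.mem_biUnion.mpr ⟨_, Finset.mem_univ _, hmemH j⟩
  have hTiff : ∀ i, i ∈ T ↔ ∃ j, h j = i := by
    intro i
    constructor
    · intro hi
      rw [hTdef, Finset.mem_biUnion] at hi
      obtain ⟨i0, _, hi0⟩ := hi
      have h2 : i ∈ Set.range ((H i0).orderEmbOfFin (hH i0)) := by
        rw [Finset.range_orderEmbOfFin]; exact hi0
      obtain ⟨s, hs⟩ := h2
      refine ⟨finProdFinEquiv (i0, s), ?_⟩
      have h3 : (finProdFinEquiv (m := 5) (n := K)).symm (finProdFinEquiv (i0, s)) = (i0, s) :=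
        Equiv.symm_apply_apply _ _
      have h4 : Fin.divNat (m := 5) (n := K) (finProdFinEquiv (i0, s)) = i0 := congrArg Prod.fst h3
      have h5 : Fin.modNat (m := 5) (n := K) (finProdFinEquiv (i0, s)) = s := congrArg Prod.snd h3
      rw [← hs, hh]
      have h6 : ∀ (i i' : Fin 5) (s s' : Fin K), i = i' → s = s' →
        (H i).orderEmbOfFin (hH i) s = (H i').orderEmbOfFin (hH i') s' := by
        rintro i _ s _ rfl rfl; rfl
      exact h6 _ _ _ _ h4 h5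
    · rintro ⟨j, rfl⟩; exact hmemT j
  have hcl : ∀ i, #(Finset.univ.filter (fun j => cl j = i)) ≤ K := by
    intro i
    have h1 : #(Finset.univ.filter (fun j => cl j = i)) ≤ #(Finset.univ : Finset (Fin K)) := by
      apply Finset.card_le_card_of_injOn (fun j => Fin.modNat (m := 5) (n := K) j)
        (fun _ _ => Finset.mem_coe.mpr (Finset.mem_univ _))
      intro j hj j' hj' hjj
      rw [Finset.mem_coe, Finset.mem_filter] at hj hj'
      exact hdm j j' (hj.2.trans hj'.2.symm) hjj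
    rwa [Finset.card_univ, Fintype.card_fin] at h1
  have hadmT : ∀ p, p.Prime → ∃ r, ∀ τ ∈ T, r % p ≠ τ % p := by
    intro p hp
    obtain ⟨r, hr⟩ := hadm p hp
    refine ⟨r, fun τ hτ => ?_⟩
    rw [hTdef, Finset.mem_biUnion] at hτ
    obtain ⟨i, _, hi⟩ := hτ
    exact hr i τ hi
  have hTle : ∀ τ ∈ T, (τ : ℝ) ≤ cR / 2 * RS ℓ := by
    intro τ hτ
    rw [hTdef, Finset.mem_biUnion] at hτ
    obtain ⟨i, _, hi⟩ := hτ
    exact hHle i τ hi
  set t : ℕ := T.sup id + 1 with ht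
  have htT : ∀ τ ∈ T, τ < t := by
    intro τ hτ
    have : τ ≤ T.sup id := Finset.le_sup (f := id) hτ
    omega
  have hhj : ∀ j, h j < t := fun j => htT _ (hmemT j)
  have hRSpos : 0 < RS ℓ := by
    have : 0 < 2 / cR := by positivity
    linarith
  have hsup : ((T.sup id : ℕ) : ℝ) ≤ cR / 2 * RS ℓ := by
    rcases T.eq_empty_or_nonempty with hemp | hne
    · rw [hemp, Finset.sup_empty]
      simp only [bot_eq_zero', CharP.cast_eq_zero]
      positivity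
    · obtain ⟨τ, hτ, hτs⟩ := Finset.exists_mem_eq_sup T hne id
      rw [hτs]
      exact hTle τ hτ
  have htle : (t : ℝ) ≤ cR * RS ℓ := by
    have h1 : 1 ≤ cR / 2 * RS ℓ := by
      rw [div_le_iff₀ hcR] at hRS1
      linarith
    rw [ht]
    push_cast
    linarith
  have ht54 : (t : ℝ) ≤ ℓ ^ (5 / 4 : ℝ) := htle.trans hRS.2
  have ht2 : (t : ℝ) ≤ ℓ ^ 2 := by
    refine ht54.trans ?_
    calc ℓ ^ (5 / 4 : ℝ) ≤ ℓ ^ (2 : ℝ) :=
          Real.rpow_le_rpow_of_exponent_le (by linarith) (by norm_num)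
      _ = ℓ ^ 2 := by norm_cast
  have hk1 : (1 : ℝ) ≤ k := by exact_mod_cast hk0
  have hKK : (1 : ℝ) ≤ (K : ℝ) ^ 2 := one_le_pow₀ hK1
  have hbig : 10 ^ 8 * (K : ℝ) ^ 2 * t ≤ x := by
    have h1 := cube_div_six_le_exp (show 0 ≤ ℓ by linarith)
    have h2 : 10 ^ 8 * (K : ℝ) ^ 2 * ℓ ^ 2 ≤ ℓ ^ 3 / 6 := by
      have h3 : ℓ ^ 3 / 6 = (ℓ / 6) * ℓ ^ 2 := by ring
      rw [h3]
      apply mul_le_mul_of_nonneg_right _ (by positivity)
      linarith
    calc 10 ^ 8 * (K : ℝ) ^ 2 * t ≤ 10 ^ 8 * (K : ℝ) ^ 2 * ℓ ^ 2 :=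
          mul_le_mul_of_nonneg_left ht2 (by positivity)
      _ ≤ ℓ ^ 3 / 6 := h2
      _ ≤ x := h1
  have htx : (t : ℝ) ≤ x / 100 := by
    have ht0 : (0 : ℝ) ≤ t := Nat.cast_nonneg _
    have h1 : 1 * (t : ℝ) ≤ (K : ℝ) ^ 2 * t := mul_le_mul_of_nonneg_right hKK ht0
    linarith
  have hix : ∀ i : ℕ, i ≤ t → (i : ℝ) ≤ x / 9 := by
    intro i hi
    have : (i : ℝ) ≤ t := by exact_mod_cast hi
    linarith
  -- the cover
  obtain ⟨a, ha, hunc⟩ := hcov e t T he1 hTcard htT hadmT (htle.trans hRS.1)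
  obtain ⟨A0, _, hA0⟩ := exists_crt z a
  set U := uncovT T z e t a with hU
  have hUt : ∀ i ∈ U, i < t ∧ i ∉ T := by
    intro i hi
    rw [hU] at hi
    unfold uncovT at hi
    rw [Finset.mem_filter, Finset.mem_range] at hi
    exact ⟨hi.1, hi.2.1⟩
  have hcop : ∀ j, Nat.Coprime (A0 + h j) W := by
    intro j
    rw [hWdef]
    unfold WW
    apply Nat.Coprime.prod_right
    intro p hp
    rw [mem_WWset] at hp
    rw [Nat.coprime_comm, Nat.Prime.coprime_iff_not_dvd hp.1]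
    intro hd
    have h1 := (dvd_add_iff_mod (hA0 p hp.1 hp.2.1)).mp hd
    exact ha p hp.1 hp.2.1 (h j) (hmemT j) (nd_dvd_iff.mp h1)
  -- the sieving set
  set P := PQ h e ℓ with hP
  have hPp : ∀ p ∈ P, p.Prime := fun p hp => (mem_PQ.mp hp).1.2.2
  have hPz : ∀ p ∈ P, z < p := fun p hp => (mem_PQ.mp hp).1.1
  have hPe : ∀ p ∈ P, p ≠ e := fun p hp => (mem_PQ.mp hp).2.1
  have hPsub : P ⊆ primesIoc z y := PQ_sub hℓbig h e
  have hPy : ∀ p ∈ P, p ≤ y := fun p hp => (mem_primesIoc.mp (hPsub hp)).2.1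
  have hPh : ∀ p ∈ P, ∀ j j', j ≠ j' → ¬ p ∣ nd (h j) (h j') := PQ_ndvd hinj
  have hPW : ∀ p ∈ P, ¬ p ∣ W := by
    intro p hp hd
    have h1 := (prime_dvd_WW (hPp p hp)).mp hd
    have h2 := hPz p hp
    omega
  have hzbig := F.zbig
  have hk2sq : (0 : ℝ) ≤ (k : ℝ) ^ 2 := sq_nonneg _
  have hPk : ∀ p ∈ P, 2 * k + 2 < p := by
    intro p hp
    have h1 : ((2 * k + 2 : ℕ) : ℝ) < z := by
      push_cast
      linarith
    have h2 : 2 * k + 2 < z := by exact_mod_cast h1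
    exact h2.trans (hPz p hp)
  have hWy : ∀ p, p.Prime → p ∣ W → p ≤ y := by
    intro p hp hpW
    have := (prime_dvd_WW hp).mp hpW
    omega
  -- remainders
  obtain ⟨M, hM0, hMsum, hM⟩ := hL1 ℓ l1 q₁ hSP W hWpos (hW10 e).1 y hyle hWy z hL1' zy2 P hPsub hPW
    (exc_ok he hexc P (fun p hp => ⟨hPp p hp, hPz p hp, hPe p hp⟩))
  change ∑ D ∈ lev P (YQ ℓ), _ ≤ _ at hMsum
  change ∀ (A0 : ℕ) (b : ℕ → ℕ), Nat.Coprime A0 W → ∀ D ∈ lev P (YQ ℓ), _ at hM
  set B := (ℓ / c) ^ k with hB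
  set B' := (ℓ / c) ^ ((k + 1) ^ 2) with hB'
  have hprodB : ∏ p ∈ P, (1 + (k : ℝ) / p) ≤ B :=
    prodk_le hc hcV z y F.z2' hL1' zy2 hyle hℓ0 hPsub k
  have hprodB' : ∏ p ∈ P, (1 + (((k + 1) ^ 2 : ℕ) : ℝ) / p) ≤ B' :=
    prodk_le hc hcV z y F.z2' hL1' zy2 hyle hℓ0 hPsub ((k + 1) ^ 2)
  have hy0 : (0 : ℝ) < y := by
    have := F.z2'
    have : 0 < y := by omega
    exact_mod_cast this
  have hly : Real.log y ≤ ℓ := by
    rw [Real.log_le_iff_le_exp hy0]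
    refine hyle.trans (Real.exp_le_exp.mpr (by linarith))
  have hg0 : ∀ p ∈ P, 0 ≤ 1 / ((p : ℝ) - 1) := by
    intro p hp
    have : (2 : ℝ) ≤ p := by exact_mod_cast (hPp p hp).two_le
    exact div_nonneg zero_le_one (by linarith)
  have hprodg : ∏ p ∈ P, (1 + 1 / ((p : ℝ) - 1)) ≤ ℓ / c := by
    refine (prod_g1_le hc hcV z y F.z2' zy2 P hPsub).trans ?_
    apply div_le_div₀ hℓ0.le hly hc
    exact le_mul_of_one_le_right hc.le hL1'
  have hprodB1 : ∏ p ∈ P, (1 + (k : ℝ) / ((p : ℝ) - 1)) ≤ B := by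
    have h1 : ∏ p ∈ P, (1 + (k : ℝ) / ((p : ℝ) - 1)) = ∏ p ∈ P, (1 + (k : ℝ) * (1 / ((p : ℝ) - 1))) :=
      Finset.prod_congr rfl (fun p _ => by rw [mul_one_div])
    rw [h1]
    refine (prod_one_add_mul_le P _ hg0 k).trans ?_
    exact pow_le_pow_left₀ (Finset.prod_nonneg (fun p hp => by have := hg0 p hp; linarith)) hprodg k
  set E := x * ℓ ^ (-A) / (W.totient : ℝ) with hE
  have hE0 : 0 ≤ E := div_nonneg (mul_nonneg hx0.le (Real.rpow_nonneg hℓ0.le _)) hφpos.le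
  have hB0 : 0 ≤ B := pow_nonneg (div_nonneg hℓ0.le hc.le) _
  have hB'0 : 0 ≤ B' := pow_nonneg (div_nonneg hℓ0.le hc.le) _
  -- one-dimensional sums
  have hHL := F.HL hk0 hn0 hc hc1 hk2n hcV h (fun j => (hhj j).le) ht2 e
  have hHU := F.HU hc hcV h e
  have hsig := F.sigma h e
  have hzpos := F.z0
  have hσ1 : 8000 * (k : ℝ) ^ 2 * ∑ p ∈ P, 1 / ((p : ℝ) - 1) ^ 2 ≤ 1 := by
    calc 8000 * (k : ℝ) ^ 2 * ∑ p ∈ P, 1 / ((p : ℝ) - 1) ^ 2 ≤ 8000 * (k : ℝ) ^ 2 * (2 / z) :=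
          mul_le_mul_of_nonneg_left hsig (by positivity)
      _ = 16000 * (k : ℝ) ^ 2 / z := by ring
      _ ≤ 1 := by
          rw [div_le_one hzpos]
          linarith
  have hσ0 : 0 ≤ ∑ p ∈ P, 1 / ((p : ℝ) - 1) ^ 2 := Finset.sum_nonneg (fun p _ => by positivity)
  have hσ2 : (k : ℝ) * ∑ p ∈ P, 1 / ((p : ℝ) - 1) ^ 2 ≤ 1 / 4 := by
    have h1 : (k : ℝ) ≤ k ^ 2 := le_self_pow₀ hk1 (by norm_num)
    have h2 := mul_le_mul_of_nonneg_right h1 hσ0
    linarith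
  set a1 := MT.A1 P (gst n ρ) with ha1
  set a2 := MT.A2 P (gst n ρ) with ha2
  set G := G1 P (R1 ℓ) with hG
  have hA21 : 1 ≤ a2 := A2_ge_one (P := P) hPp (n := n) hn0 hρ0.le
  have ha1nn : 0 ≤ a1 := by
    have h1 := A1_lower (c1 := c / 4) (L := L) (P := P) hn0 hρ0.le (div_pos hc four_pos).le hLpos hHL
    exact le_trans (div_nonneg (mul_nonneg (mul_nonneg (div_pos hc four_pos).le hn0'.le) hρ0.le)
      (mul_pos two_pos hLpos).le) h1
  have ha1le : a1 ≤ ℓ / c := by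
    refine le_trans ?_ hprodg
    rw [ha1, Pool.Agent.H90.MT.A1_eq, Finset.prod_one_add]
    apply Finset.sum_le_sum
    intro D hD
    have hDP := Finset.mem_powerset.mp hD
    have hg1 := (gst_GOK hPp hn0 hρ0.le).le_one hDP
    have h1 : ∏ p ∈ D, 1 / (p : ℝ) ≤ ∏ p ∈ D, 1 / ((p : ℝ) - 1) := by
      apply Finset.prod_le_prod
      · intro p _; positivity
      · intro p hp
        have : (2 : ℝ) ≤ p := by exact_mod_cast (hPp p (hDP hp)).two_le
        exact one_div_le_one_div_of_le (by linarith) (by linarith)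
    have h0 : 0 ≤ ∏ p ∈ D, 1 / (p : ℝ) := Finset.prod_nonneg (fun p _ => by positivity)
    calc gst n ρ (∏ p ∈ D, p) * ∏ p ∈ D, 1 / (p : ℝ) ≤ 1 * ∏ p ∈ D, 1 / (p : ℝ) :=
          mul_le_mul_of_nonneg_right hg1 h0
      _ ≤ _ := by rw [one_mul]; exact h1
  -- the sums
  set Fn : ℕ → ℝ := LQ h P n ρ ℓ with hFn
  have hpow1 : a2 ^ (k - 1) = a2 ^ (k - 2) * a2 := by
    rw [← pow_succ]; congr 1; omega
  have hpow2 : a2 ^ k = a2 ^ (k - 2) * a2 ^ 2 := by
    rw [← pow_add]; congr 1; omega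
  have hS2 : ∀ j : Fin k, XT ℓ y / (W.totient : ℝ) *
      (a1 ^ 2 * ((1 - 1 / 100) * (a2 ^ (k - 2) * a2))) - B ^ 2 * E ≤
      ∑ ν ∈ S0 ℓ W A0, aw ℓ y (ν + h j) * Fn ν := by
    intro j
    rw [← hpow1]
    exact S2Q hPp hPk hk2 hc hc1 hLpos hℓ0 hn0 hk2n hρ hHL hHU hσ1 h hPh y W A0 j hPy
      (hix _ (hhj j).le) (hcop j) M hM0 hM B E hprodB hMsum
  have hS1 := S1Q_tent (n := n) (ρ := ρ) (ℓ := ℓ) hk0 hPp (fun p hp => by have := hPk p hp; omega) hn0 hρ0.le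
    (by linarith) h hPh W A0 hWpos hPW B B' hprodB hprodB'
  have hS1f := S1Q_flat (n := n) (ρ := ρ) (ℓ := ℓ) hk0 hPp (fun p hp => by have := hPk p hp; omega) hn0 hρ0.le
    (by linarith) h hPh W A0 hWpos hPW B B' hprodB hprodB'
  have hS3 : ∀ i ∈ U, ∑ ν ∈ S0 ℓ W A0, aw ℓ y (ν + i) * Fn ν ≤
      XT ℓ y / (W.totient : ℝ) * (8 * (a2 ^ (k - 2) * a2 ^ 2)) + B ^ 2 * E := by
    intro i hi
    obtain ⟨hit, hiH⟩ := hUt i hi
    have hih : ∀ j, i ≠ h j := by
      intro j hij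
      exact hiH (hij ▸ hmemT j)
    rw [← hpow2]
    exact S3Q hPp hPk hk0 hℓ0.le hn0 hρ0.le h hPh y W A0 i
      (F.qqsum h e (fun j => (hhj j).le) hit.le hih ht2) hσ2 hPy (hix i hit.le)
      M hM0 hM B E hprodB hMsum hWy
  have hSP : ∀ j j' : Fin k, j ≠ j' → ∑ ν ∈ S0 ℓ W A0, aw ℓ y (ν + h j) *
      (if (ν + h j').Prime ∧ y < ν + h j' then 1 else 0) * Fn ν ≤
      XT ℓ y / (W.totient : ℝ) * ((1 + 1 / 100) * a1 ^ 4 * a2 ^ (k - 2) / G) +
        (2 * a1 ^ 2 * B) ^ 2 * E := by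
    intro j j' hjj
    exact pair_sum hPp hPk hℓ0.le hn0 hρ0.le hσ1 h hPh y W A0 j j' hjj hPy (hix _ (hhj j).le) (hcop j)
      M hM0 hM B E hprodB1 hMsum
  -- assembly
  have hXTnn : 0 ≤ XT ℓ y := Finset.sum_nonneg (fun n _ => aw_nonneg _ _ _)
  have hGpos : 0 < G := by
    have h1 := G1_ge_one P hPp (R1 ℓ) (Real.one_le_exp (by linarith))
    linarith
  have hub : (#U : ℝ) ≤ c / 400000 * (z * L ^ 2) := hunc
  have hzL3 : (z : ℝ) * L ^ 3 ≤ ℓ := F.z3
  have hul : 400000 * (#U : ℝ) * L ≤ c * ℓ := by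
    calc 400000 * (#U : ℝ) * L ≤ 400000 * (c / 400000 * (z * L ^ 2)) * L := by
          apply mul_le_mul_of_nonneg_right _ hLpos.le
          exact mul_le_mul_of_nonneg_left hub (by norm_num)
      _ = c * (z * L ^ 3) := by ring
      _ ≤ c * ℓ := mul_le_mul_of_nonneg_left hzL3 hc.le
  have hUsq : (#U : ℝ) ≤ ℓ ^ 2 := by
    have h1 : (z : ℝ) * L ^ 2 ≤ z * L ^ 3 := by
      apply mul_le_mul_of_nonneg_left _ hzpos.le
      exact pow_le_pow_right₀ hL1' (by norm_num)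
    have h2 : ℓ ≤ ℓ ^ 2 := le_self_pow₀ (by linarith) (by norm_num)
    have h3 : c / 400000 * (z * L ^ 2) ≤ 1 * (z * L ^ 2) := by
      apply mul_le_mul_of_nonneg_right _ (by positivity)
      linarith
    linarith
  have hphi2 : c * W ≤ (W.totient : ℝ) * L := F.phi_ge hcV e
  have herr' := herr (W.totient : ℝ) (W : ℝ) hφpos hWpos' (by
      refine hphi2.trans ?_
      apply mul_le_mul_of_nonneg_left _ hφpos.le
      refine F.z2.trans ?_
      have := Real.add_one_le_exp (Real.log ℓ)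
      rw [Real.exp_log hℓ0] at this
      linarith) (hW10 e).2 a1 ha1nn ha1le (#U : ℝ) (Nat.cast_nonneg _) hUsq
  obtain ⟨ht1, hcore⟩ := coreQ (x := x) (ℓ := ℓ) (L := L) (φ := (W.totient : ℝ)) (W := (W : ℝ))
    (X := XT ℓ y) (T := TM ℓ)
    (A1 := a1) (A2 := a2) (Ap := a2 ^ (k - 2)) (G := G) (ρ := ρ)
    (c := c) (n := (n : ℝ)) (k := (k : ℝ)) (K := (K : ℝ)) (u0 := (#U : ℝ))
    (t := 1 + 9 / 2 * (K * ((XT ℓ y / (W.totient : ℝ)) * (1 - 1 / 100) * a1 ^ 2 *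
      (a2 ^ (k - 2) * a2) / (ℓ * (TM ℓ / W * (a2 ^ (k - 2) * a2 ^ 2))))))
    (e1 := B ^ 2 * (30 * (YQ ℓ * B'))) (e2 := B ^ 2 * E) (e3 := (2 * a1 ^ 2 * B) ^ 2 * E)
    (S1 := ∑ ν ∈ S0 ℓ W A0, tent (Real.exp ℓ / 3) ν * Fn ν)
    (S1f := ∑ ν ∈ S0 ℓ W A0, Fn ν)
    (S2 := ∑ j, ∑ ν ∈ S0 ℓ W A0, aw ℓ y (ν + h j) * Fn ν)
    (S3 := ∑ j, ∑ j' ∈ Finset.univ.filter (fun j' => j' ≠ j ∧ cl j' = cl j),
        ∑ ν ∈ S0 ℓ W A0, aw ℓ y (ν + h j) * (if (ν + h j').Prime ∧ y < ν + h j' then 1 else 0) * Fn ν)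
    (SU := ∑ i ∈ U, ∑ ν ∈ S0 ℓ W A0, aw ℓ y (ν + i) * Fn ν)
    hx0 (by linarith) hLpos hφpos hWpos' hc hc1 hn0' hK1 hkK (Nat.cast_nonneg _)
    (by
      have h1 := A1_lower (c1 := c / 4) (L := L) (P := P) hn0 hρ0.le (div_pos hc four_pos).le hLpos hHL
      refine le_trans (le_of_eq ?_) h1
      field_simp; norm_num)
    (by
      have h1 := A2_upper (C1 := 1 / c) (L := L) (P := P) hn0 hρ0.le (one_div_pos.mpr hc).le hLpos hHU
      refine le_trans h1 (le_of_eq ?_)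
      field_simp)
    hA21 (one_le_pow₀ hA21)
    (by have := TM_ge (ℓ := ℓ) (by linarith); linarith)
    (hXge y hyle) (XT_le y)
    (totient_WW_le z e F.z2') hphi2 (F.G_main h (fun j => (hhj j).le) ht2 e he)
    rfl hnm hul rfl rfl
    (by
      refine le_trans ?_ herr'
      have hKk : (K : ℝ) ≤ k := by rw [hkK]; linarith
      have hKk2 : (K : ℝ) ^ 2 ≤ (k : ℝ) ^ 2 := pow_le_pow_left₀ (by linarith) hKk 2
      apply add_le_add _ le_rfl
      apply add_le_add _ le_rfl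
      apply add_le_add
      · refine mul_le_mul_of_nonneg_right ?_ (mul_nonneg (sq_nonneg _) hE0)
        linarith
      · refine mul_le_mul_of_nonneg_right ?_ (mul_nonneg (sq_nonneg _) hE0)
        linarith)
    (mul_nonneg (sq_nonneg _) (mul_nonneg (by norm_num) (mul_nonneg hYQ0 hB'0)))
    (mul_nonneg (sq_nonneg _) hE0) (mul_nonneg (sq_nonneg _) hE0)
    (by
      have h1 : ∑ _j : Fin k, (XT ℓ y / (W.totient : ℝ) *
          (a1 ^ 2 * ((1 - 1 / 100) * (a2 ^ (k - 2) * a2))) - B ^ 2 * E) ≤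
          ∑ j, ∑ ν ∈ S0 ℓ W A0, aw ℓ y (ν + h j) * Fn ν := Finset.sum_le_sum (fun j _ => hS2 j)
      rw [Finset.sum_const, Finset.card_univ, Fintype.card_fin, nsmul_eq_mul] at h1
      exact h1)
    (by
      set V3 := XT ℓ y / (W.totient : ℝ) * ((1 + 1 / 100) * a1 ^ 4 * a2 ^ (k - 2) / G) +
        (2 * a1 ^ 2 * B) ^ 2 * E with hV3
      have hV30 : 0 ≤ V3 := add_nonneg (mul_nonneg (div_nonneg hXTnn hφpos.le)
        (div_nonneg (mul_nonneg (mul_nonneg (by norm_num) (pow_nonneg ha1nn 4))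
          (pow_nonneg (zero_le_one.trans hA21) _)) hGpos.le)) (mul_nonneg (sq_nonneg _) hE0)
      calc _ ≤ ∑ j : Fin k, ∑ j' ∈ Finset.univ.filter (fun j' => j' ≠ j ∧ cl j' = cl j), V3 := by
            apply Finset.sum_le_sum
            intro j _
            apply Finset.sum_le_sum
            intro j' hj'
            exact hSP j j' (Finset.mem_filter.mp hj').2.1.symm
        _ ≤ ∑ _j : Fin k, ((K : ℝ) - 1) * V3 := by
            apply Finset.sum_le_sum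
            intro j _
            rw [Finset.sum_const, nsmul_eq_mul]
            apply mul_le_mul_of_nonneg_right _ hV30
            have h1 : Finset.univ.filter (fun j' => j' ≠ j ∧ cl j' = cl j) =
                (Finset.univ.filter (fun j' => cl j' = cl j)).erase j := by
              ext j'
              simp only [Finset.mem_filter, Finset.mem_univ, true_and, Finset.mem_erase]
            have h2 : j ∈ Finset.univ.filter (fun j' => cl j' = cl j) := by simp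
            have h3 := Finset.card_erase_add_one h2
            have h4 := hcl (cl j)
            rw [h1]
            have h5 : #((Finset.univ.filter (fun j' => cl j' = cl j)).erase j) + 1 ≤ K := by omega
            have h6 : ((#((Finset.univ.filter (fun j' => cl j' = cl j)).erase j) + 1 : ℕ) : ℝ) ≤ K := by
              exact_mod_cast h5
            push_cast at h6
            linarith
        _ = _ := by
            rw [Finset.sum_const, Finset.card_univ, Fintype.card_fin, nsmul_eq_mul]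
            ring)
    (by rw [← hpow2]; exact hS1)
    (by rw [← hpow2]; exact hS1f)
    (by
      have h1 : ∑ i ∈ U, ∑ ν ∈ S0 ℓ W A0, aw ℓ y (ν + i) * Fn ν ≤
          ∑ _i ∈ U, (XT ℓ y / (W.totient : ℝ) * (8 * (a2 ^ (k - 2) * a2 ^ 2)) + B ^ 2 * E) :=
        Finset.sum_le_sum hS3
      rw [Finset.sum_const, nsmul_eq_mul] at h1
      exact h1)
  rw [← sum_brQ] at hcore
  -- counting
  have hcount := count_posQ (S0 ℓ W A0) Fn ℓ (by linarith) y _ ht1 cl h U (fun ν _ => LQ_nonneg _ _ _ _ _ _)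
    (Real.exp (8 * k * (ℓ / L)) * B ^ 2) (mul_nonneg (Real.exp_pos _).le (sq_nonneg _))
    (by
      intro ν hν
      unfold S0 at hν
      rw [Finset.mem_filter, Finset.mem_Ioc] at hν
      apply LQ_le h P hPp z ν hL1' hPz hν.1.1 (by linarith) _ _ hn0 hρ0.le B hprodB
      · exact (Nat.le_floor_iff hx0.le).mp hν.1.2
      · intro j
        have := hix _ (hhj j).le
        linarith)
    (MG5 ℓ H)
    (by
      intro ν hν hpos
      unfold S0 at hν
      rw [Finset.mem_filter] at hν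
      obtain ⟨⟨j, j', hjj, p1, p2, p3, p4⟩, h2⟩ := brQ_pos hK0 (by linarith) ht1 cl hcl h T hTiff z e t y A0 a
        hA0 hhj hyle zy2 hbig (by linarith) ν hν.2 hpos
      unfold MG5
      rw [Finset.mem_filter]
      refine ⟨hν.1, ⟨cl j, cl j', hjj, ⟨h j, hmemH j, p1, p2⟩, ⟨h j', hmemH j', p3, p4⟩⟩, ?_⟩
      intro i hi hiH
      have hi' : i ≤ T.sup id := by rw [hTdef]; convert hi
      have hiH' : i ∉ T := by rw [hTdef]; convert hiH
      exact h2 i (by omega) hiH')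
  have hfinal := hfin (W : ℝ) L hWpos' (hWε e).2 (by
    have h1 := F.z6
    calc Real.log ℓ / 2 = Real.log (ℓ ^ (1 / 2 : ℝ)) := by rw [Real.log_rpow hℓ0]; ring
      _ ≤ L := Real.log_le_log (by positivity) h1)
  have hchain : Real.exp ((1 - ε) * ℓ) * (2 * k * (Real.exp (8 * k * (ℓ / L)) * B ^ 2)) ≤
      #(MG5 ℓ H) * (2 * k * (Real.exp (8 * k * (ℓ / L)) * B ^ 2)) :=
    hfinal.trans (hcore.trans hcount)
  have hBpos : 0 < B := pow_pos (div_pos hℓ0 hc) _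
  exact le_of_mul_le_mul_right hchain (mul_pos (mul_pos two_pos hk0') (mul_pos (Real.exp_pos _)
    (pow_pos hBpos 2)))

end Pool.Agent.H21.QG
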