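import Mathlib

/-!
JOB QG-01 (about 120 lines): many increasing 5-tuples without difference in `A`.

Proof. For a finite list `L` of naturals (the already chosen numbers) let
`Pr L b := ∀ x ∈ L, x < b ∧ b - x ∉ A`. The set `{b | Pr L b}` is infinite (all large `b`), so
`Nat.nth (Pr L)` is strictly increasing and `Nat.nth_mem_of_infinite`, `Nat.count_nth` are available.
For `u : Fin 5 → Fin s` put `b 0 = u 0`, `b (j+1) = Nat.nth (Pr [b 0, .., b j]) (u (j+1))`.
(It is convenient to do this for a general length `r` by induction: from
`f : (Fin r → Fin s) → Fin r → ℕ` build `f' u := Fin.snoc (f (Fin.init u)) (Nat.nth P (u (Fin.last r)))`.)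
* `b i < b j` and `b j - b i ∉ A` for `i < j` because `Nat.nth` lies in the set.
* injective: `b 0 = u 0` and `u (j+1) = Nat.count (Pr [b 0,..,b j]) (b (j+1))`.
* size: let `g j` be the number of `n ≤ b j` which are in none of the sets `b i + A`, `i ≤ j`.
  `g 0 ≤ s` (at most `b 0 + 1 ≤ s` integers), and `g (j+1) ≤ g j + s`: such an `n ≤ b (j+1)` is either
  `≤ b j` (then it is counted by `g j`) or `> b j` and then `Pr [b 0..b j] n` holds, and there are
  exactly `u (j+1) + 1 ≤ s` such `n ≤ b (j+1)`. All the other `n ≤ b j` lie in one of the sets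
  `b i + A`, `i < j` (`i = j` gives only numbers `≥ b j`; those `> b j` are irrelevant and `b j`
  itself is not in `b j + A` unless `0 ∈ A`; remove `0` from `A` first, or note that
  `b j ∈ b j + A` adds at most the one number `b j`, which satisfies no `b i + A`, `i < j`;
  so simply use the sets `b i + A`, `i < j`, in the definition of `g j`).
  Hence `b j + 1 ≤ (j + 1) * s + j * #A`.
-/

set_option autoImplicit false

open Finset

namespace Pool.Agent.H21.QG

/-- the admissible next elements -/
def GreedyP (A : Finset ℕ) {r : ℕ} (b : Fin r → ℕ) (n : ℕ) : Prop :=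
  ∀ i : Fin r, b i < n ∧ n - b i ∉ A

lemma GreedyP_infinite (A : Finset ℕ) {r : ℕ} (b : Fin r → ℕ) :
    {n | GreedyP A b n}.Infinite := by
  rw [Set.infinite_iff_exists_gt]
  intro N
  refine ⟨N + ∑ i, b i + ∑ a ∈ A, a + 1, fun i => ?_, by omega⟩
  have h1 : b i ≤ ∑ i, b i := Finset.single_le_sum (fun _ _ => Nat.zero_le _) (Finset.mem_univ i)
  refine ⟨by omega, fun h => ?_⟩
  have h2 : N + ∑ i, b i + ∑ a ∈ A, a + 1 - b i ≤ ∑ a ∈ A, a :=
    Finset.single_le_sum (f := fun a : ℕ => a) (fun _ _ => Nat.zero_le _) h
  omega

theorem greedy_gen (A : Finset ℕ) (s r : ℕ) :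
    ∃ f : (Fin r → Fin s) → (Fin r → ℕ), Function.Injective f ∧
      ∀ u, (∀ i j, i < j → f u i < f u j ∧ f u j - f u i ∉ A) ∧
        ∀ i : Fin r, #((range (f u i + 1)).filter (fun n => ∀ i' < i, ∀ a ∈ A, n ≠ f u i' + a)) ≤
          ((i : ℕ) + 1) * s := by
  classical
  induction r with
  | zero =>
    refine ⟨fun _ i => i.elim0, fun u v _ => Subsingleton.elim u v, fun u => ⟨?_, ?_⟩⟩
    · intro i; exact i.elim0
    · intro i; exact i.elim0
  | succ r ih =>
    obtain ⟨f, hf, h⟩ := ih
    let f' : (Fin (r + 1) → Fin s) → (Fin (r + 1) → ℕ) := fun u =>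
      Fin.snoc (α := fun _ => ℕ) (f (Fin.init u)) (Nat.nth (GreedyP A (f (Fin.init u))) (u (Fin.last r)))
    have hc : ∀ u (i : Fin r), f' u i.castSucc = f (Fin.init u) i := fun u i => by
      simp [f']
    have hl : ∀ u, f' u (Fin.last r) =
        Nat.nth (GreedyP A (f (Fin.init u))) (u (Fin.last r)) := fun u => by
      simp [f']
    have hP : ∀ u, GreedyP A (f (Fin.init u)) (f' u (Fin.last r)) := fun u => by
      rw [hl]
      exact Nat.nth_mem_of_infinite (GreedyP_infinite A _) _
    refine ⟨f', fun u v huv => ?_, fun u => ⟨fun i j hij => ?_, fun i => ?_⟩⟩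
    · have h1 : f (Fin.init u) = f (Fin.init v) := by
        funext i
        rw [← hc u i, ← hc v i, huv]
      have h2 : (Fin.init u : Fin r → Fin s) = Fin.init v := hf h1
      have h3 : u (Fin.last r) = v (Fin.last r) := by
        have h4 := congrFun huv (Fin.last r)
        rw [hl, hl, h2] at h4
        exact Fin.ext (Nat.nth_injective (GreedyP_infinite A _) h4)
      rw [← Fin.snoc_init_self u, ← Fin.snoc_init_self v, h2, h3]
    · induction j using Fin.lastCases with
      | last =>
        induction i using Fin.lastCases with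
        | last => exact absurd hij (lt_irrefl _)
        | cast i =>
          rw [hc]
          exact hP u i
      | cast j =>
        induction i using Fin.lastCases with
        | last => exact absurd (hij.trans (Fin.castSucc_lt_last j)) (lt_irrefl _)
        | cast i =>
          rw [hc, hc]
          exact (h (Fin.init u)).1 i j (Fin.castSucc_lt_castSucc_iff.1 hij)
    · induction i using Fin.lastCases with
      | last =>
        set b := f (Fin.init u) with hb
        have h1 : (range (f' u (Fin.last r) + 1)).filter
            (fun n => ∀ i' < Fin.last r, ∀ a ∈ A, n ≠ f' u i' + a) ⊆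
            ((range (f' u (Fin.last r) + 1)).filter (fun n => ∃ i : Fin r, n ≤ b i ∧
              ∀ i' : Fin r, ∀ a ∈ A, n ≠ b i' + a)) ∪
            (range (f' u (Fin.last r) + 1)).filter (GreedyP A b) := by
          intro n hn
          rw [Finset.mem_filter] at hn
          rw [Finset.mem_union, Finset.mem_filter, Finset.mem_filter]
          by_cases hn2 : ∃ i : Fin r, n ≤ b i
          · obtain ⟨i, hi⟩ := hn2
            refine Or.inl ⟨hn.1, i, hi, fun i' a ha => ?_⟩
            have := hn.2 i'.castSucc (Fin.castSucc_lt_last i') a ha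
            rwa [hc] at this
          · push Not at hn2
            refine Or.inr ⟨hn.1, fun i => ⟨hn2 i, fun ha => ?_⟩⟩
            have := hn.2 i.castSucc (Fin.castSucc_lt_last i) _ ha
            rw [hc] at this
            have h2 := hn2 i
            exact this (by rw [← hb]; omega)
        have h2 : #((range (f' u (Fin.last r) + 1)).filter (GreedyP A b)) ≤ s := by
          rw [← Nat.count_eq_card_filter_range, hl, Nat.count_succ,
            Nat.count_nth_of_infinite (GreedyP_infinite A _)]
          have h3 := (u (Fin.last r)).2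
          split_ifs <;> omega
        have h3 : #((range (f' u (Fin.last r) + 1)).filter (fun n => ∃ i : Fin r, n ≤ b i ∧
              ∀ i' : Fin r, ∀ a ∈ A, n ≠ b i' + a)) ≤ r * s := by
          rcases Nat.eq_zero_or_pos r with hr | hr
          · subst hr
            rw [Finset.filter_false_of_mem]
            · simp
            · rintro n _ ⟨i, _⟩
              exact i.elim0
          · let m : Fin r := ⟨r - 1, by omega⟩
            have h4 := (h (Fin.init u)).2 m
            have h5 : ((m : ℕ) + 1) = r := by
              show r - 1 + 1 = r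
              omega
            rw [h5] at h4
            refine le_trans (Finset.card_le_card ?_) h4
            intro n hn
            rw [Finset.mem_filter] at hn
            obtain ⟨_, i, hi, hn2⟩ := hn
            rw [Finset.mem_filter, Finset.mem_range]
            refine ⟨?_, fun i' _ a ha => hn2 i' a ha⟩
            have h6 : b i ≤ b m := by
              rcases (Fin.le_def.2 (by show (i : ℕ) ≤ r - 1; omega) : i ≤ m).eq_or_lt with h7 | h7
              · rw [h7]
              · exact ((h (Fin.init u)).1 i m h7).1.le
            rw [← hb]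
            omega
        refine (Finset.card_le_card h1).trans ((Finset.card_union_le _ _).trans ?_)
        rw [Fin.val_last]
        calc _ ≤ r * s + s := Nat.add_le_add h3 h2
          _ = (r + 1) * s := by ring
      | cast i =>
        have h1 := (h (Fin.init u)).2 i
        refine le_trans (le_of_eq ?_) h1
        congr 1
        rw [hc]
        apply Finset.filter_congr
        intro n _
        constructor
        · intro h2 i' hi' a ha
          have := h2 i'.castSucc (Fin.castSucc_lt_castSucc_iff.2 hi') a ha
          rwa [hc] at this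
        · intro h2 i' hi' a ha
          induction i' using Fin.lastCases with
          | last => exact absurd (hi'.trans (Fin.castSucc_lt_last i)) (lt_irrefl _)
          | cast i' =>
            rw [hc]
            exact h2 i' (Fin.castSucc_lt_castSucc_iff.1 hi') a ha

/-- `s ^ 5` increasing 5-tuples below `4 #A + 5 s` without difference in `A`. -/
theorem greedy (A : Finset ℕ) (s : ℕ) :
    ∃ f : (Fin 5 → Fin s) → (Fin 5 → ℕ), Function.Injective f ∧
      ∀ u, (∀ i j, i < j → f u i < f u j ∧ f u j - f u i ∉ A) ∧
        ∀ i, f u i < 4 * #A + 5 * s := by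
  classical
  obtain ⟨f, hf, h⟩ := greedy_gen A s 5
  refine ⟨f, hf, fun u => ⟨(h u).1, fun i => ?_⟩⟩
  have h1 := (h u).2 i
  have h2 : range (f u i + 1) ⊆
      ((range (f u i + 1)).filter (fun n => ∀ i' < i, ∀ a ∈ A, n ≠ f u i' + a)) ∪
      (Finset.univ.filter (fun i' : Fin 5 => i' < i)).biUnion (fun i' => A.image (fun a => f u i' + a)) := by
    intro n hn
    rw [Finset.mem_union, Finset.mem_filter]
    by_cases h3 : ∀ i' < i, ∀ a ∈ A, n ≠ f u i' + a
    · exact Or.inl ⟨hn, h3⟩
    · push Not at h3
      obtain ⟨i', hi', a, ha, h4⟩ := h3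
      refine Or.inr ?_
      rw [Finset.mem_biUnion]
      exact ⟨i', Finset.mem_filter.2 ⟨Finset.mem_univ _, hi'⟩, Finset.mem_image.2 ⟨a, ha, h4.symm⟩⟩
  have h3 := Finset.card_le_card h2
  rw [Finset.card_range] at h3
  have h4 : #((Finset.univ.filter (fun i' : Fin 5 => i' < i)).biUnion
      (fun i' => A.image (fun a => f u i' + a))) ≤ 4 * #A := by
    refine Finset.card_biUnion_le.trans ?_
    refine (Finset.sum_le_sum (fun i' _ => Finset.card_image_le)).trans ?_
    rw [Finset.sum_const, smul_eq_mul]
    refine Nat.mul_le_mul_right _ ?_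
    have h5 : (Finset.univ.filter (fun i' : Fin 5 => i' < i)) ⊆ Finset.univ.erase i := by
      intro j hj
      rw [Finset.mem_filter] at hj
      exact Finset.mem_erase.2 ⟨hj.2.ne, Finset.mem_univ _⟩
    have := Finset.card_le_card h5
    rwa [Finset.card_erase_of_mem (Finset.mem_univ _), Finset.card_univ, Fintype.card_fin] at this
  have h5 := Finset.card_union_le ((range (f u i + 1)).filter (fun n => ∀ i' < i, ∀ a ∈ A, n ≠ f u i' + a))
    ((Finset.univ.filter (fun i' : Fin 5 => i' < i)).biUnion (fun i' => A.image (fun a => f u i' + a)))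
  have h6 : ((i : ℕ) + 1) * s ≤ 5 * s := Nat.mul_le_mul_right _ (by omega)
  omega

end Pool.Agent.H21.QG
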