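import Mathlib

/-!
Many increasing 5-tuples avoiding a relation: a version of `Greedy.lean` in which the translates
`b + A` are replaced by arbitrary sets `B b` of at most `a` elements.
-/

set_option autoImplicit false

open Finset

namespace Pool.Agent.H21.QG

/-- the admissible next elements -/
def GreedyQ (B : ℕ → Finset ℕ) {r : ℕ} (b : Fin r → ℕ) (n : ℕ) : Prop :=
  ∀ i : Fin r, b i < n ∧ n ∉ B (b i)

lemma GreedyQ_infinite (B : ℕ → Finset ℕ) {r : ℕ} (b : Fin r → ℕ) :
    {n | GreedyQ B b n}.Infinite := by
  rw [Set.infinite_iff_exists_gt]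
  intro N
  refine ⟨N + ∑ i, b i + ∑ i, ∑ a ∈ B (b i), a + 1, fun i => ?_, by omega⟩
  have h1 : b i ≤ ∑ i, b i := Finset.single_le_sum (fun _ _ => Nat.zero_le _) (Finset.mem_univ i)
  refine ⟨by omega, fun h => ?_⟩
  have h2 : N + ∑ i, b i + ∑ i, ∑ a ∈ B (b i), a + 1 ≤ ∑ a ∈ B (b i), a :=
    Finset.single_le_sum (f := fun a : ℕ => a) (fun _ _ => Nat.zero_le _) h
  have h3 : ∑ a ∈ B (b i), a ≤ ∑ i, ∑ a ∈ B (b i), a :=
    Finset.single_le_sum (f := fun i => ∑ a ∈ B (b i), a) (fun _ _ => Nat.zero_le _)
      (Finset.mem_univ i)
  omega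

theorem greedy_genQ (B : ℕ → Finset ℕ) (s r : ℕ) :
    ∃ f : (Fin r → Fin s) → (Fin r → ℕ), Function.Injective f ∧
      ∀ u, (∀ i j, i < j → f u i < f u j ∧ f u j ∉ B (f u i)) ∧
        ∀ i : Fin r, #((range (f u i + 1)).filter (fun n => ∀ i' < i, n ∉ B (f u i'))) ≤
          ((i : ℕ) + 1) * s := by
  classical
  induction r with
  | zero =>
    refine ⟨fun _ i => i.elim0, fun u v _ => Subsingleton.elim u v, fun u => ⟨?_, ?_⟩⟩
    · intro i; exact i.elim0
    · intro i; exact i.elim0
  | succ r ih =>
    obtain ⟨f, hf, h⟩ := ih
    let f' : (Fin (r + 1) → Fin s) → (Fin (r + 1) → ℕ) := fun u =>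
      Fin.snoc (α := fun _ => ℕ) (f (Fin.init u)) (Nat.nth (GreedyQ B (f (Fin.init u))) (u (Fin.last r)))
    have hc : ∀ u (i : Fin r), f' u i.castSucc = f (Fin.init u) i := fun u i => by
      simp [f']
    have hl : ∀ u, f' u (Fin.last r) =
        Nat.nth (GreedyQ B (f (Fin.init u))) (u (Fin.last r)) := fun u => by
      simp [f']
    have hP : ∀ u, GreedyQ B (f (Fin.init u)) (f' u (Fin.last r)) := fun u => by
      rw [hl]
      exact Nat.nth_mem_of_infinite (GreedyQ_infinite B _) _
    refine ⟨f', fun u v huv => ?_, fun u => ⟨fun i j hij => ?_, fun i => ?_⟩⟩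
    · have h1 : f (Fin.init u) = f (Fin.init v) := by
        funext i
        rw [← hc u i, ← hc v i, huv]
      have h2 : (Fin.init u : Fin r → Fin s) = Fin.init v := hf h1
      have h3 : u (Fin.last r) = v (Fin.last r) := by
        have h4 := congrFun huv (Fin.last r)
        rw [hl, hl, h2] at h4
        exact Fin.ext (Nat.nth_injective (GreedyQ_infinite B _) h4)
      rw [← Fin.snoc_init_self u, ← Fin.snoc_init_self v, h2, h3]
    · induction j using Fin.lastCases with
      | last =>
        induction i using Fin.lastCases with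
        | last => exact absurd hij (lt_irrefl _)
        | cast i =>
          rw [hc]
          exact hP u i
      | cast j =>
        induction i using Fin.lastCases with
        | last => exact absurd (hij.trans (Fin.castSucc_lt_last j)) (lt_irrefl _)
        | cast i =>
          rw [hc, hc]
          exact (h (Fin.init u)).1 i j (Fin.castSucc_lt_castSucc_iff.1 hij)
    · induction i using Fin.lastCases with
      | last =>
        set b := f (Fin.init u) with hb
        have h1 : (range (f' u (Fin.last r) + 1)).filter
            (fun n => ∀ i' < Fin.last r, n ∉ B (f' u i')) ⊆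
            ((range (f' u (Fin.last r) + 1)).filter (fun n => ∃ i : Fin r, n ≤ b i ∧
              ∀ i' : Fin r, n ∉ B (b i'))) ∪
            (range (f' u (Fin.last r) + 1)).filter (GreedyQ B b) := by
          intro n hn
          rw [Finset.mem_filter] at hn
          rw [Finset.mem_union, Finset.mem_filter, Finset.mem_filter]
          by_cases hn2 : ∃ i : Fin r, n ≤ b i
          · obtain ⟨i, hi⟩ := hn2
            refine Or.inl ⟨hn.1, i, hi, fun i' => ?_⟩
            have := hn.2 i'.castSucc (Fin.castSucc_lt_last i')
            rwa [hc] at this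
          · push Not at hn2
            refine Or.inr ⟨hn.1, fun i => ⟨hn2 i, fun ha => ?_⟩⟩
            have := hn.2 i.castSucc (Fin.castSucc_lt_last i)
            rw [hc] at this
            exact this ha
        have h2 : #((range (f' u (Fin.last r) + 1)).filter (GreedyQ B b)) ≤ s := by
          rw [← Nat.count_eq_card_filter_range, hl, Nat.count_succ,
            Nat.count_nth_of_infinite (GreedyQ_infinite B _)]
          have h3 := (u (Fin.last r)).2
          split_ifs <;> omega
        have h3 : #((range (f' u (Fin.last r) + 1)).filter (fun n => ∃ i : Fin r, n ≤ b i ∧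
              ∀ i' : Fin r, n ∉ B (b i'))) ≤ r * s := by
          rcases Nat.eq_zero_or_pos r with hr | hr
          · subst hr
            rw [Finset.filter_false_of_mem]
            · simp
            · rintro n _ ⟨i, _⟩
              exact i.elim0
          · let m : Fin r := ⟨r - 1, by omega⟩
            have h4 := (h (Fin.init u)).2 m
            have h5 : ((m : ℕ) + 1) = r := by
              show r - 1 + 1 = r
              omega
            rw [h5] at h4
            refine le_trans (Finset.card_le_card ?_) h4
            intro n hn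
            rw [Finset.mem_filter] at hn
            obtain ⟨_, i, hi, hn2⟩ := hn
            rw [Finset.mem_filter, Finset.mem_range]
            refine ⟨?_, fun i' _ => hn2 i'⟩
            have h6 : b i ≤ b m := by
              rcases (Fin.le_def.2 (by show (i : ℕ) ≤ r - 1; omega) : i ≤ m).eq_or_lt with h7 | h7
              · rw [h7]
              · exact ((h (Fin.init u)).1 i m h7).1.le
            rw [← hb]
            omega
        refine (Finset.card_le_card h1).trans ((Finset.card_union_le _ _).trans ?_)
        rw [Fin.val_last]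
        calc _ ≤ r * s + s := Nat.add_le_add h3 h2
          _ = (r + 1) * s := by ring
      | cast i =>
        have h1 := (h (Fin.init u)).2 i
        refine le_trans (le_of_eq ?_) h1
        congr 1
        rw [hc]
        apply Finset.filter_congr
        intro n _
        constructor
        · intro h2 i' hi'
          have := h2 i'.castSucc (Fin.castSucc_lt_castSucc_iff.2 hi')
          rwa [hc] at this
        · intro h2 i' hi'
          induction i' using Fin.lastCases with
          | last => exact absurd (hi'.trans (Fin.castSucc_lt_last i)) (lt_irrefl _)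
          | cast i' =>
            rw [hc]
            exact h2 i' (Fin.castSucc_lt_castSucc_iff.1 hi')

/-- `s ^ 5` increasing 5-tuples below `4 a + 5 s` avoiding the sets `B b` of at most `a` elements. -/
theorem greedyQ (B : ℕ → Finset ℕ) (a : ℕ) (hB : ∀ b, #(B b) ≤ a) (s : ℕ) :
    ∃ f : (Fin 5 → Fin s) → (Fin 5 → ℕ), Function.Injective f ∧
      ∀ u, (∀ i j, i < j → f u i < f u j ∧ f u j ∉ B (f u i)) ∧
        ∀ i, f u i < 4 * a + 5 * s := by
  classical
  obtain ⟨f, hf, h⟩ := greedy_genQ B s 5
  refine ⟨f, hf, fun u => ⟨(h u).1, fun i => ?_⟩⟩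
  have h1 := (h u).2 i
  have h2 : range (f u i + 1) ⊆
      ((range (f u i + 1)).filter (fun n => ∀ i' < i, n ∉ B (f u i'))) ∪
      (Finset.univ.filter (fun i' : Fin 5 => i' < i)).biUnion (fun i' => B (f u i')) := by
    intro n hn
    rw [Finset.mem_union, Finset.mem_filter]
    by_cases h3 : ∀ i' < i, n ∉ B (f u i')
    · exact Or.inl ⟨hn, h3⟩
    · push Not at h3
      obtain ⟨i', hi', h4⟩ := h3
      refine Or.inr ?_
      rw [Finset.mem_biUnion]
      exact ⟨i', Finset.mem_filter.2 ⟨Finset.mem_univ _, hi'⟩, h4⟩
  have h3 := Finset.card_le_card h2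
  rw [Finset.card_range] at h3
  have h4 : #((Finset.univ.filter (fun i' : Fin 5 => i' < i)).biUnion
      (fun i' => B (f u i'))) ≤ 4 * a := by
    refine Finset.card_biUnion_le.trans ?_
    refine (Finset.sum_le_sum (fun i' _ => hB _)).trans ?_
    rw [Finset.sum_const, smul_eq_mul]
    refine Nat.mul_le_mul_right _ ?_
    have h5 : (Finset.univ.filter (fun i' : Fin 5 => i' < i)) ⊆ Finset.univ.erase i := by
      intro j hj
      rw [Finset.mem_filter] at hj
      exact Finset.mem_erase.2 ⟨hj.2.ne, Finset.mem_univ _⟩
    have := Finset.card_le_card h5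
    rwa [Finset.card_erase_of_mem (Finset.mem_univ _), Finset.card_univ, Fintype.card_fin] at this
  have h5 := Finset.card_union_le ((range (f u i + 1)).filter (fun n => ∀ i' < i, n ∉ B (f u i')))
    ((Finset.univ.filter (fun i' : Fin 5 => i' < i)).biUnion (fun i' => B (f u i')))
  have h6 : ((i : ℕ) + 1) * s ≤ 5 * s := Nat.mul_le_mul_right _ (by omega)
  omega

end Pool.Agent.H21.QG
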