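import Pool.Agent.H21.QG.Good
import Pool.Agent.H16.MT17

/-!
JOB QG-18 (about 180 lines): from good integers to consecutive primes in different clusters.

Adaptation of H16/MT17.lean (`count_step`, `count_lt`, `consec_of_MG`, `card_MG_le`, `mt_index`).
For `ν ∈ MG5 ℓ H` let `ν + τ0` be the smallest prime `ν + τ`, `τ ∈ ⋃ H i`, say `τ0 ∈ H i0`; it is `≤ N = ⌊exp ℓ⌋₊`, and there is
a prime `ν + τ1 ≤ N` with `τ1` in another cluster. Let `j = Nat.count Nat.Prime (ν + τ0)`, so `nth Prime j = ν + τ0`, and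
`nth Prime (j + s) = ν + τ1` for some `s > 0`. All the primes `nth Prime (j + i)`, `i ≤ s`, lie between and so are of the
form `ν + τ`, `τ ∈ ⋃ H i` (no prime outside `ν + H`). Take the least `i > 0` for which this `τ` is not in `H i0`: then
`nth Prime (j + i - 1)` and `nth Prime (j + i)` are in different clusters (`a = ν`), and `j + i - 1 < N`
(`count_lt`). Each index comes from at most `5 K` integers `ν` (`ν = nth Prime (index) - τ`).
`RS (log N) = log N loglog N ... ` as in `mt_index`.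
-/

set_option autoImplicit false

open Finset Filter Topology

namespace Pool.Agent.H21.QG

open Pool.Agent.H16

/-- the indices `n < N` such that `p_n`, `p_{n+1}` lie in different clusters of one translate of `H` -/
def idx5 (N : ℕ) (H : Fin 5 → Finset ℕ) : Set ℕ :=
  {n : ℕ | n < N ∧ ∃ a : ℕ, ∃ i j, i ≠ j ∧ ∃ τ ∈ H i, ∃ τ' ∈ H j,
    Nat.nth Nat.Prime n = a + τ ∧ Nat.nth Nat.Prime (n + 1) = a + τ'}

/-- consecutive primes in different clusters of a translate of `H` -/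
lemma consec_of_MG5 {ℓ : ℝ} {H : Fin 5 → Finset ℕ} (hdis : ∀ i j, i ≠ j → Disjoint (H i) (H j))
    {n : ℕ} (hn : n ∈ MG5 ℓ H) :
    ∃ m, m < ⌊Real.exp ℓ⌋₊ ∧ (∃ τ ∈ Finset.univ.biUnion H, Nat.nth Nat.Prime m = n + τ) ∧
      ∃ i j, i ≠ j ∧ ∃ τ ∈ H i, ∃ τ' ∈ H j,
        Nat.nth Nat.Prime m = n + τ ∧ Nat.nth Nat.Prime (m + 1) = n + τ' := by
  classical
  unfold MG5 at hn
  rw [Finset.mem_filter, Finset.mem_Ioc] at hn
  obtain ⟨⟨hn0, hnN⟩, ⟨a, b, hab, ⟨τa, hτa, hpa, hNa⟩, ⟨τb, hτb, hpb, hNb⟩⟩, hno⟩ := hn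
  set N := ⌊Real.exp ℓ⌋₊ with hN
  set U := Finset.univ.biUnion H with hU
  have hUmem : ∀ i, ∀ τ ∈ H i, τ ∈ U := fun i τ hτ => by
    rw [hU, Finset.mem_biUnion]
    exact ⟨i, Finset.mem_univ _, hτ⟩
  set Q := U.filter (fun τ => (n + τ).Prime ∧ n + τ ≤ N) with hQ
  have hQmem : ∀ τ ∈ Q, τ ∈ U ∧ (n + τ).Prime ∧ n + τ ≤ N := by
    intro τ hτ
    rw [hQ, Finset.mem_filter] at hτ
    exact ⟨hτ.1, hτ.2.1, hτ.2.2⟩
  have haQ : τa ∈ Q := by
    rw [hQ, Finset.mem_filter]; exact ⟨hUmem a τa hτa, hpa, hNa⟩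
  have hbQ : τb ∈ Q := by
    rw [hQ, Finset.mem_filter]; exact ⟨hUmem b τb hτb, hpb, hNb⟩
  have hQne : Q.Nonempty := ⟨τa, haQ⟩
  set τ0 := Q.min' hQne with hτ0
  have hτ0Q : τ0 ∈ Q := Finset.min'_mem Q hQne
  obtain ⟨h0U, h0p, h0N⟩ := hQmem τ0 hτ0Q
  obtain ⟨i0, _, hi0⟩ := Finset.mem_biUnion.mp h0U
  -- a prime in another cluster
  have hother : ∃ τ1 ∈ Q, τ1 ∉ H i0 := by
    by_cases hai : a = i0
    · refine ⟨τb, hbQ, fun h => ?_⟩
      have hbi : b ≠ i0 := fun h2 => hab (hai.trans h2.symm)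
      exact (Finset.disjoint_left.mp (hdis b i0 hbi)) hτb h
    · exact ⟨τa, haQ, fun h => (Finset.disjoint_left.mp (hdis a i0 hai)) hτa h⟩
  obtain ⟨τ1, h1Q, h1not⟩ := hother
  obtain ⟨h1U, h1p, h1N⟩ := hQmem τ1 h1Q
  have h01 : τ0 ≤ τ1 := Finset.min'_le Q τ1 h1Q
  set j := Nat.count Nat.Prime (n + τ0) with hj
  set j' := Nat.count Nat.Prime (n + τ1) with hj'
  have hnth : Nat.nth Nat.Prime j = n + τ0 := Nat.nth_count h0p
  have hnth' : Nat.nth Nat.Prime j' = n + τ1 := Nat.nth_count h1p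
  have hmono := Nat.nth_monotone Nat.infinite_setOfPred_prime
  have hjj : j ≤ j' := Nat.count_monotone _ (by omega)
  have hex : ∃ m, j ≤ m ∧ ¬ ∃ τ ∈ H i0, Nat.nth Nat.Prime m = n + τ := by
    refine ⟨j', hjj, ?_⟩
    rintro ⟨τ, hτ, hτ2⟩
    have : τ = τ1 := by omega
    exact h1not (this ▸ hτ)
  set m0 := Nat.find hex with hm0
  obtain ⟨hm1, hm2⟩ := Nat.find_spec hex
  have hm3 : m0 ≤ j' := Nat.find_min' hex ⟨hjj, by
    rintro ⟨τ, hτ, hτ2⟩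
    have : τ = τ1 := by omega
    exact h1not (this ▸ hτ)⟩
  have hm4 : m0 ≠ j := by
    intro h
    apply hm2
    refine ⟨τ0, hi0, ?_⟩
    rw [← hm0, h]
    exact hnth
  have hm5 : j < m0 := lt_of_le_of_ne hm1 (Ne.symm hm4)
  obtain ⟨τ, hτ, hτ2⟩ : ∃ τ ∈ H i0, Nat.nth Nat.Prime (m0 - 1) = n + τ := by
    by_contra hcon
    exact Nat.find_min hex (m := m0 - 1) (by omega) ⟨by omega, hcon⟩
  set q := Nat.nth Nat.Prime m0 with hq
  have hqp : q.Prime := Nat.prime_nth_prime _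
  have hq1 : q ≤ n + τ1 := hnth' ▸ hmono hm3
  have hq0 : n + τ0 ≤ q := hnth ▸ hmono hm1
  have hqU : q - n ∈ U := by
    by_contra hcon
    have h5 : τ1 ≤ U.sup id := Finset.le_sup (f := id) h1U
    apply hno (q - n) (by omega) hcon
    rw [Nat.add_sub_cancel' (by omega)]
    exact hqp
  obtain ⟨i1, _, hi1⟩ := Finset.mem_biUnion.mp hqU
  have hne : i0 ≠ i1 := by
    intro h
    apply hm2
    refine ⟨q - n, h ▸ hi1, ?_⟩
    omega
  refine ⟨m0 - 1, ?_, ⟨τ, hUmem i0 τ hτ, hτ2⟩, i0, i1, hne, τ, hτ, q - n, hi1, hτ2, ?_⟩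
  · have h5 : j' < n + τ1 := count_lt (n + τ1) (by omega)
    omega
  · rw [Nat.sub_add_cancel (by omega)]
    omega

lemma card_MG5_le {ℓ : ℝ} {H : Fin 5 → Finset ℕ} (hdis : ∀ i j, i ≠ j → Disjoint (H i) (H j))
    {K : ℕ} (hK : ∀ i, #(H i) = K) :
    #(MG5 ℓ H) ≤ 5 * K * (idx5 ⌊Real.exp ℓ⌋₊ H).ncard := by
  classical
  have hfin : (idx5 ⌊Real.exp ℓ⌋₊ H).Finite :=
    (Set.finite_Iio ⌊Real.exp ℓ⌋₊).subset (fun j hj => hj.1)
  have hex : ∀ n ∈ MG5 ℓ H, ∃ m, m < ⌊Real.exp ℓ⌋₊ ∧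
      (∃ τ ∈ Finset.univ.biUnion H, Nat.nth Nat.Prime m = n + τ) ∧
      ∃ i j, i ≠ j ∧ ∃ τ ∈ H i, ∃ τ' ∈ H j,
        Nat.nth Nat.Prime m = n + τ ∧ Nat.nth Nat.Prime (m + 1) = n + τ' :=
    fun n hn => consec_of_MG5 hdis hn
  choose! f hf1 hf2 hf3 using hex
  have hUcard : #(Finset.univ.biUnion H) ≤ 5 * K := by
    refine Finset.card_biUnion_le.trans ?_
    simp [hK]
  have h1 : #(MG5 ℓ H) ≤ 5 * K * #((MG5 ℓ H).image f) := by
    apply Finset.card_le_mul_card_image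
    intro j _
    have hsub : (MG5 ℓ H).filter (fun n => f n = j) ⊆
        (Finset.univ.biUnion H).image (fun τ => Nat.nth Nat.Prime j - τ) := by
      intro n hn
      rw [Finset.mem_filter] at hn
      obtain ⟨τ, hτ, hτ2⟩ := hf2 n hn.1
      rw [Finset.mem_image]
      refine ⟨τ, hτ, ?_⟩
      rw [← hn.2, hτ2]
      omega
    exact ((Finset.card_le_card hsub).trans Finset.card_image_le).trans hUcard
  refine h1.trans (Nat.mul_le_mul_left _ ?_)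
  rw [← Set.ncard_coe_finset]
  apply Set.ncard_le_ncard _ hfin
  intro j hj
  rw [Finset.mem_coe, Finset.mem_image] at hj
  obtain ⟨n, hn, rfl⟩ := hj
  exact ⟨hf1 n hn, n, hf3 n hn⟩

theorem five_index : ∃ K : ℕ, 0 < K ∧ ∃ c : ℝ, 0 < c ∧ ∀ ε : ℝ, 0 < ε → ∃ N₀ : ℕ, ∀ N : ℕ, N₀ ≤ N →
    ∀ H : Fin 5 → Finset ℕ, (∀ i, #(H i) = K) → (∀ i j, i ≠ j → Disjoint (H i) (H j)) →
    (∀ p, p.Prime → ∃ r, ∀ i, ∀ h ∈ H i, ¬ h ≡ r [MOD p]) →
    (∀ i, ∀ h ∈ H i, (h : ℝ) ≤ c * (Real.log N * Real.log (Real.log N) *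
      Real.log (Real.log (Real.log (Real.log N))) / (Real.log (Real.log (Real.log N))) ^ 2)) →
    (N : ℝ) ^ (1 - ε) ≤ ((idx5 N H).ncard : ℝ) := by
  classical
  obtain ⟨K, hK, c, hc, hmain⟩ := five_good
  refine ⟨K, hK, c, hc, fun ε hε => ?_⟩
  have hk0 : (0 : ℝ) < 5 * K := by
    have : (0 : ℝ) < K := by exact_mod_cast hK
    linarith
  have hlogN : Tendsto (fun N : ℕ => Real.log (N : ℝ)) atTop atTop :=
    Real.tendsto_log_atTop.comp tendsto_natCast_atTop_atTop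
  have hpow : Tendsto (fun N : ℕ => (N : ℝ) ^ (ε / 2)) atTop atTop :=
    (tendsto_rpow_atTop (by positivity)).comp tendsto_natCast_atTop_atTop
  have hev := (hlogN.eventually (hmain (ε / 2) (by positivity))).and
    ((hpow.eventually (eventually_ge_atTop (5 * K : ℝ))).and (eventually_ge_atTop 1))
  obtain ⟨N₀, hN₀⟩ := eventually_atTop.mp hev
  refine ⟨N₀, fun N hN H hHK hdis hadm hHle => ?_⟩
  obtain ⟨h1, h2, h3⟩ := hN₀ N hN
  have hN0 : (0 : ℝ) < N := by exact_mod_cast h3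
  have h4 := h1 H hHK hdis (by
    intro p hp
    obtain ⟨r, hr⟩ := hadm p hp
    refine ⟨r, fun i τ hτ h5 => hr i τ hτ h5.symm⟩) (by
    intro i τ hτ
    exact hHle i τ hτ)
  have h5 : Real.exp (Real.log N) = N := Real.exp_log hN0
  have h6 := card_MG5_le (ℓ := Real.log N) (H := H) hdis hHK
  rw [h5, Nat.floor_natCast] at h6
  have h9 : (#(MG5 (Real.log N) H) : ℝ) ≤ 5 * K * ((idx5 N H).ncard : ℝ) := by
    exact_mod_cast h6
  have h10 : (N : ℝ) ^ (1 - ε) * (5 * K) ≤ Real.exp ((1 - ε / 2) * Real.log N) := by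
    have e1 : Real.exp ((1 - ε / 2) * Real.log N) = (N : ℝ) ^ (1 - ε / 2) := by
      rw [Real.rpow_def_of_pos hN0, mul_comm]
    rw [e1]
    have e2 : (N : ℝ) ^ (1 - ε / 2) = (N : ℝ) ^ (1 - ε) * (N : ℝ) ^ (ε / 2) := by
      rw [← Real.rpow_add hN0]; congr 1; ring
    rw [e2]
    exact mul_le_mul_of_nonneg_left h2 (by positivity)
  have h11 : (N : ℝ) ^ (1 - ε) * (5 * K) ≤ ((idx5 N H).ncard : ℝ) * (5 * K) := by
    calc (N : ℝ) ^ (1 - ε) * (5 * K) ≤ 5 * K * ((idx5 N H).ncard : ℝ) := h10.trans (h4.trans h9)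
      _ = _ := mul_comm _ _
  exact le_of_mul_le_mul_right h11 hk0

end Pool.Agent.H21.QG
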