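import Pool.Agent.H21.QG.Defs

/-!
JOB QG-14 (about 250 lines): the sieving set `PQ h e ℓ` for large `ℓ`.

Adaptation of H16/MT13.lean (structure `MF`, `ev_MF`, `HL`, `HU`, `sigma`, `qqsum`, `card_E`, `gYle`), with
`rQ c k n ℓ = c^2/(1280000 k n) ℓ` in place of `c^2/(640 k n) ℓ` and `PQ h e ℓ = PE (zf ℓ) ⌈R1 ℓ⌉₊ (insert e (exclh h))` in
place of `PMT h n e ρ ℓ`. The only new point: for `HL` one needs `gY ρ i ≤ R1 ℓ ≤ ⌈R1 ℓ⌉₊`
(`gY ρ i ≤ exp (ℓ/400)`, `R1 ℓ = exp (0.24 ℓ)`). All the sums over primes are bounded by sums over integers `> zf ℓ`.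
-/

set_option autoImplicit false

open Finset Filter Topology

namespace Pool.Agent.H21.QG

open Pool.Agent.H16

/-- facts for large `ℓ` -/
structure MQ (k n : ℕ) (c ℓ : ℝ) : Prop where
  ℓbig : 1000 ≤ ℓ
  z1 : 100 ≤ Real.log (zf ℓ)
  z2 : Real.log (zf ℓ) ≤ Real.log ℓ
  z3 : zf ℓ * (Real.log (zf ℓ)) ^ 3 ≤ ℓ
  z6 : ℓ ^ (1 / 2 : ℝ) ≤ zf ℓ
  zρ : Real.log ℓ ≤ rQ c k n ℓ
  a1 : 1000 * (2 + 6 * (k : ℝ) ^ 2 * Real.log ℓ) ≤ ℓ ^ (1 / 2 : ℝ)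
  a2 : 16000 * (k : ℝ) ^ 2 + 2 * k + 3 ≤ ℓ ^ (1 / 2 : ℝ)
  a3 : 4 * k * (2 + 3 * Real.log ℓ) ≤ ℓ ^ (1 / 2 : ℝ)

lemma ev_MQ (k n : ℕ) (hk : 0 < k) (hn : 0 < n) (c : ℝ) (hc : 0 < c) : ∀ᶠ ℓ : ℝ in atTop, MQ k n c ℓ := by
  have hk0 : (0 : ℝ) < k := by exact_mod_cast hk
  have hn0 : (0 : ℝ) < n := by exact_mod_cast hn
  have hpow : Tendsto (fun ℓ : ℝ => ℓ ^ (1 / 2 : ℝ)) atTop atTop := tendsto_rpow_atTop (by norm_num)
  filter_upwards [ev_z, eventually_ge_atTop (1000 : ℝ),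
    ev_log_pow 1 1 (c ^ 2 / (1280000 * k * n)) one_pos (by positivity),
    ev_log_pow 1 (1 / 2) (1 / (12000 * (k : ℝ) ^ 2)) (by norm_num) (by positivity),
    ev_log_pow 1 (1 / 2) (1 / (24 * (k : ℝ))) (by norm_num) (by positivity),
    hpow.eventually (eventually_ge_atTop (16000 * (k : ℝ) ^ 2 + 2 * k + 3)),
    hpow.eventually (eventually_ge_atTop (16 * (k : ℝ) + 4000))] with ℓ hz h1 h2 h3 h4 h5 h6
  obtain ⟨z1, z2, z3, _, _, z6⟩ := hz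
  rw [pow_one, Real.rpow_one] at h2
  rw [pow_one] at h3 h4
  have hs0 : 0 < ℓ ^ (1 / 2 : ℝ) := by positivity
  refine ⟨h1, z1, z2, z3, z6, h2, ?_, h5, ?_⟩
  · have e1 : 6000 * (k : ℝ) ^ 2 * Real.log ℓ ≤ ℓ ^ (1 / 2 : ℝ) / 2 := by
      calc 6000 * (k : ℝ) ^ 2 * Real.log ℓ ≤ 6000 * (k : ℝ) ^ 2 * (1 / (12000 * (k : ℝ) ^ 2) * ℓ ^ (1 / 2 : ℝ)) :=
            mul_le_mul_of_nonneg_left h3 (by positivity)
        _ = _ := by field_simp; norm_num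
    have e2 : 1000 * (2 + 6 * (k : ℝ) ^ 2 * Real.log ℓ) = 2000 + 6000 * (k : ℝ) ^ 2 * Real.log ℓ := by ring
    rw [e2]
    linarith
  · have e1 : 12 * (k : ℝ) * Real.log ℓ ≤ ℓ ^ (1 / 2 : ℝ) / 2 := by
      calc 12 * (k : ℝ) * Real.log ℓ ≤ 12 * (k : ℝ) * (1 / (24 * (k : ℝ)) * ℓ ^ (1 / 2 : ℝ)) :=
            mul_le_mul_of_nonneg_left h4 (by positivity)
        _ = _ := by field_simp; norm_num
    have e2 : 4 * (k : ℝ) * (2 + 3 * Real.log ℓ) = 8 * k + 12 * k * Real.log ℓ := by ring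
    rw [e2]
    linarith

variable {k n : ℕ} {c ℓ : ℝ}

lemma MQ.ℓ0 (F : MQ k n c ℓ) : 0 < ℓ := by linarith [F.ℓbig]

lemma MQ.z0 (F : MQ k n c ℓ) : (0 : ℝ) < zf ℓ := lt_of_lt_of_le (by have := F.ℓ0; positivity) F.z6

lemma MQ.zbig (F : MQ k n c ℓ) : 16000 * (k : ℝ) ^ 2 + 2 * k + 3 ≤ zf ℓ := F.a2.trans F.z6

lemma MQ.z2' (F : MQ k n c ℓ) : 2 ≤ zf ℓ := by
  have h1 := F.zbig
  have h2 : (0 : ℝ) ≤ k := Nat.cast_nonneg k
  have : (2 : ℝ) ≤ zf ℓ := by nlinarith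
  exact_mod_cast this

/-- `1000 #E ≤ z` -/
lemma MQ.card_E (F : MQ k n c ℓ) (h : Fin k → ℕ) {t : ℕ} (ht : ∀ j, h j ≤ t)
    (htℓ : (t : ℝ) ≤ ℓ ^ 2) (e : ℕ) : 1000 * #(insert e (exclh h)) ≤ zf ℓ := by
  have h1 := card_exclh h ht (by linarith [F.ℓbig]) htℓ
  have h2 : #(insert e (exclh h)) ≤ #(exclh h) + 1 := Finset.card_insert_le _ _
  have h3 : (#(insert e (exclh h)) : ℝ) ≤ #(exclh h) + 1 := by exact_mod_cast h2
  have h4 := F.a1.trans F.z6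
  have h0 : 0 ≤ Real.log ℓ := Real.log_nonneg (by linarith [F.ℓbig])
  have h6 : 0 ≤ (k : ℝ) ^ 2 * Real.log ℓ := by positivity
  have h5 : ((1000 * #(insert e (exclh h)) : ℕ) : ℝ) ≤ zf ℓ := by
    push_cast
    nlinarith
  exact_mod_cast h5

lemma rQ_nonneg (F : MQ k n c ℓ) : 0 ≤ rQ c k n ℓ := by
  unfold rQ
  have := F.ℓ0
  positivity

lemma MQ.gYle (F : MQ k n c ℓ) (hk : 0 < k) (hn : 0 < n) (hc : 0 < c) (hc1 : c ≤ 1) (hk2 : 2 ^ n ≤ k) {i : ℕ}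
    (hi : i < n) : gY (rQ c k n ℓ) i ≤ R1 ℓ := by
  unfold gY R1 rQ
  apply Real.exp_le_exp.mpr
  have hk0 : (0 : ℝ) < k := by exact_mod_cast hk
  have hn1 : (1 : ℝ) ≤ n := by exact_mod_cast hn
  have hℓ := F.ℓ0
  have h1 : (2 : ℝ) ^ i ≤ k := by
    have h2 : 2 ^ i ≤ k := (Nat.pow_le_pow_right (by norm_num) hi.le).trans hk2
    exact_mod_cast h2
  have hc2 : c ^ 2 ≤ 1 := pow_le_one₀ hc.le hc1
  calc (2 : ℝ) ^ i * (c ^ 2 / (1280000 * k * n) * ℓ) ≤ k * (1 / (1280000 * k * 1) * ℓ) := by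
        apply mul_le_mul h1 _ (by positivity) hk0.le
        apply mul_le_mul_of_nonneg_right _ hℓ.le
        apply div_le_div₀ zero_le_one hc2 (by positivity)
        exact mul_le_mul_of_nonneg_left hn1 (by positivity)
    _ = ℓ / 1280000 := by field_simp
    _ ≤ (1 / 4 - 1 / 100) * ℓ := by linarith

lemma MQ.HL (F : MQ k n c ℓ) (hk : 0 < k) (hn : 0 < n) (hc : 0 < c) (hc1 : c ≤ 1) (hk2 : 2 ^ n ≤ k)
    (hcV : ∀ n : ℕ, 2 ≤ n → c / Real.log n ≤ Vp n) (h : Fin k → ℕ) {t : ℕ}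
    (ht : ∀ j, h j ≤ t) (htℓ : (t : ℝ) ≤ ℓ ^ 2) (e : ℕ) : ∀ i < n,
    c / 4 * (2 ^ i * rQ c k n ℓ) / Real.log (zf ℓ) ≤ S1d (PQ h e ℓ) (gY (rQ c k n ℓ) i) := by
  intro i hi
  have hρ0 := rQ_nonneg F
  have hY := F.gYle hk hn hc hc1 hk2 hi
  set ρ := rQ c k n ℓ with hρ
  have hL : 0 < Real.log (zf ℓ) := by linarith [F.z1]
  have hE : 2 * #(insert e (exclh h)) ≤ zf ℓ := by
    have := F.card_E h ht htℓ e
    omega
  have h1 := S1d_lower (zf ℓ) ⌈R1 ℓ⌉₊ F.z2' (insert e (exclh h)) hE (gY ρ i)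
    (gY_ge_one hρ0 i) (hY.trans (Nat.le_ceil _))
  rw [log_gY] at h1
  refine le_trans ?_ h1
  have h2 := hcV (zf ℓ) F.z2'
  calc c / 4 * (2 ^ i * ρ) / Real.log (zf ℓ) = 2 ^ i * ρ * (c / Real.log (zf ℓ) / 4) := by ring
    _ ≤ 2 ^ i * ρ * (Vp (zf ℓ) / 4) := by
        apply mul_le_mul_of_nonneg_left _ (by positivity)
        linarith

lemma MQ.HU (F : MQ k n c ℓ) (hc : 0 < c)
    (hcV : ∀ n : ℕ, 2 ≤ n → c / Real.log n ≤ Vp n) (h : Fin k → ℕ) (e : ℕ) : ∀ i < n,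
    S1d (PQ h e ℓ) (gY (rQ c k n ℓ) i) ≤ 1 / c * (2 ^ i * rQ c k n ℓ) / Real.log (zf ℓ) := by
  intro i _
  have hρ0 := rQ_nonneg F
  have hzρ := F.zρ
  set ρ := rQ c k n ℓ with hρ
  have hzY : (zf ℓ : ℝ) ≤ gY ρ i := by
    refine le_trans ?_ (gY_mono hρ0 (Nat.zero_le i))
    unfold gY
    rw [pow_zero, one_mul, ← Real.log_le_iff_le_exp F.z0]
    exact F.z2.trans hzρ
  have h1 := S1d_upper hc hcV (zf ℓ) ⌈R1 ℓ⌉₊ (by linarith [F.z1]) (PQ h e ℓ)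
    (PE_sub _ _ _) (gY ρ i) hzY
  rw [log_gY] at h1
  refine h1.trans (le_of_eq ?_)
  field_simp

lemma MQ.sigma (F : MQ k n c ℓ) (h : Fin k → ℕ) (e : ℕ) :
    ∑ p ∈ PQ h e ℓ, 1 / ((p : ℝ) - 1) ^ 2 ≤ 2 / (zf ℓ : ℝ) := by
  set z := zf ℓ with hz
  have hz2 := F.z2'
  have hz0 := F.z0
  have hinj : Set.InjOn (fun p : ℕ => p - 1) (PQ h e ℓ : Set ℕ) := by
    intro a ha b hb hab
    have h1 := (mem_PQ.mp (Finset.mem_coe.mp ha)).1.2.2.two_le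
    have h2 := (mem_PQ.mp (Finset.mem_coe.mp hb)).1.2.2.two_le
    simp only at hab
    omega
  have h1 : ∑ p ∈ PQ h e ℓ, 1 / ((p : ℝ) - 1) ^ 2 =
      ∑ q ∈ (PQ h e ℓ).image (fun p : ℕ => p - 1), 1 / (q : ℝ) ^ 2 := by
    rw [Finset.sum_image hinj]
    apply Finset.sum_congr rfl
    intro p hp
    have h2 := (mem_PQ.mp hp).1.2.2.one_le
    rw [Nat.cast_sub h2, Nat.cast_one]
  rw [h1]
  have h2 : (PQ h e ℓ).image (fun p : ℕ => p - 1) ⊆ Finset.Ioc (z - 1) ⌈R1 ℓ⌉₊ := by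
    intro q hq
    rw [Finset.mem_image] at hq
    obtain ⟨p, hp, rfl⟩ := hq
    have h3 := (mem_PQ.mp hp).1
    rw [Finset.mem_Ioc]
    omega
  refine (Finset.sum_le_sum_of_subset_of_nonneg h2 (fun q _ _ => by positivity)).trans ?_
  refine (sum_inv_sq_Ioc (z - 1) _ (by omega)).trans ?_
  have h3 : ((z - 1 : ℕ) : ℝ) = (z : ℝ) - 1 := by rw [Nat.cast_sub (by omega), Nat.cast_one]
  rw [h3]
  have hzr : (2 : ℝ) ≤ z := by exact_mod_cast hz2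
  rw [div_le_div_iff₀ (by linarith) hz0]
  linarith

lemma MQ.qqsum (F : MQ k n c ℓ) (h : Fin k → ℕ) (e : ℕ) {t i : ℕ}
    (ht : ∀ j, h j ≤ t) (hi : i ≤ t) (hih : ∀ j, i ≠ h j) (htℓ : (t : ℝ) ≤ ℓ ^ 2) :
    ∑ p ∈ PQ h e ℓ, ∑ j : Fin k, |qq h i p j - 1 / (p : ℝ)| ≤ 1 / 4 := by
  classical
  have hz0 := F.z0
  have hσ := F.sigma h e
  rw [Finset.sum_comm]
  have h1 : ∀ j : Fin k, ∑ p ∈ PQ h e ℓ, |qq h i p j - 1 / (p : ℝ)| ≤
      2 / (zf ℓ : ℝ) + 3 * Real.log ℓ * (1 / (zf ℓ : ℝ)) := by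
    intro j
    have h2 : ∀ p ∈ PQ h e ℓ, |qq h i p j - 1 / (p : ℝ)| ≤
        1 / ((p : ℝ) - 1) ^ 2 + (if p ∣ nd i (h j) then 1 / (zf ℓ : ℝ) else 0) := by
      intro p hp
      have hp1 := (mem_PQ.mp hp).1
      have hp2 : (2 : ℝ) ≤ p := by exact_mod_cast hp1.2.2.two_le
      have hpz : (zf ℓ : ℝ) ≤ p := by exact_mod_cast hp1.1.le
      unfold qq
      split_ifs with hd
      · rw [zero_sub, abs_neg, abs_of_nonneg (by positivity)]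
        have : 1 / (p : ℝ) ≤ 1 / zf ℓ := one_div_le_one_div_of_le hz0 hpz
        have h3 : 0 ≤ 1 / ((p : ℝ) - 1) ^ 2 := by positivity
        linarith
      · rw [add_zero]
        have h3 : 1 / ((p : ℝ) - 1) - 1 / p = 1 / (((p : ℝ) - 1) * p) := by
          have : (p : ℝ) - 1 ≠ 0 := by linarith
          have : (p : ℝ) ≠ 0 := by linarith
          field_simp
          ring
        rw [h3, abs_of_nonneg (div_nonneg zero_le_one (mul_nonneg (by linarith) (by linarith)))]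
        apply one_div_le_one_div_of_le
        · apply pow_pos; linarith
        · rw [sq]
          apply mul_le_mul_of_nonneg_left _ (by linarith)
          linarith
    refine (Finset.sum_le_sum h2).trans ?_
    rw [Finset.sum_add_distrib]
    apply add_le_add hσ
    rw [← Finset.sum_filter, Finset.sum_const, nsmul_eq_mul]
    apply mul_le_mul_of_nonneg_right _ (by positivity)
    have hnd := nd_ne_zero (hih j)
    have h3 : (PQ h e ℓ).filter (fun p => p ∣ nd i (h j)) ⊆ (nd i (h j)).primeFactors := by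
      intro p hp
      rw [Finset.mem_filter] at hp
      rw [Nat.mem_primeFactors]
      exact ⟨(mem_PQ.mp hp.1).1.2.2, hp.2, hnd⟩
    have h4 : (#((PQ h e ℓ).filter (fun p => p ∣ nd i (h j))) : ℝ) ≤ #((nd i (h j)).primeFactors) := by
      exact_mod_cast Finset.card_le_card h3
    refine h4.trans (card_pf_le _ hnd (by linarith [F.ℓbig]) ?_)
    refine le_trans ?_ htℓ
    exact_mod_cast nd_le hi (ht j)
  refine (Finset.sum_le_sum (fun j _ => h1 j)).trans ?_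
  rw [Finset.sum_const, Finset.card_univ, Fintype.card_fin, nsmul_eq_mul]
  have h2 := F.a3.trans F.z6
  have h3 : (k : ℝ) * (2 / (zf ℓ : ℝ) + 3 * Real.log ℓ * (1 / (zf ℓ : ℝ))) = k * (2 + 3 * Real.log ℓ) / zf ℓ := by
    field_simp
  rw [h3, div_le_div_iff₀ hz0 (by norm_num)]
  linarith

/-- all sieving primes are `≤ yy ℓ` -/
lemma PQ_sub (hℓ : 1000 ≤ ℓ) (h : Fin k → ℕ) (e : ℕ) : PQ h e ℓ ⊆ primesIoc (zf ℓ) (yy ℓ) := by
  have hR : ⌈R1 ℓ⌉₊ ≤ yy ℓ := by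
    unfold yy
    apply Nat.le_floor
    have h0 := R1_pos ℓ
    have h1 := Nat.ceil_lt_add_one h0.le
    have h2 : R1 ℓ * 2 ≤ Real.exp (ℓ / 2) := by
      have h3 : Real.exp (ℓ / 2) = R1 ℓ * Real.exp (13 * ℓ / 50) := by
        unfold R1
        rw [← Real.exp_add]; congr 1; ring
      rw [h3]
      apply mul_le_mul_of_nonneg_left _ h0.le
      have := Real.add_one_le_exp (13 * ℓ / 50)
      linarith
    have h4 : 1 ≤ R1 ℓ := Real.one_le_exp (by linarith)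
    linarith
  intro p hp
  have h1 := (mem_PQ.mp hp).1
  unfold primesIoc
  rw [Finset.mem_filter, Finset.mem_Ioc]
  exact ⟨⟨h1.1, h1.2.1.trans hR⟩, h1.2.2⟩

end Pool.Agent.H21.QG
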