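import Pool.Agent.H21.QG.Defs

/-!
JOB QG-07 (about 90 lines): the lower bound for a prime at a position of the tuple, constant `1 - 1/100`.

Copy the proof of `EE_lower_bd` in H16/MT10.lean with `RR` replaced by `RQ` (`log (RQ ℓ) = ℓ/200`) and
`ρ = c^2/(1280000 k n) ℓ`: `log Q = 2^(n-1) ρ ≤ k ρ ≤ ℓ/1280000 ≤ ℓ/400`, `log (RQ/Q) ≥ ℓ/400`;
`(k-1) B1 / log (RQ/Q) ≤ k (4/c n ρ^2/L) / (ℓ/400) = (1600 k n ρ/(c ℓ)) (ρ/L) = (c/800) (ρ/L) = (1/200) (c/4 ρ/L) ≤ A2/200`;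
and `40 k^2 σ ≤ 1/200` by `hσ`. Together `≥ (1 - 1/200 - 1/200) A2^(k-1)`.
-/

set_option autoImplicit false

open Finset Filter Topology

namespace Pool.Agent.H21.QG

open Pool.Agent.H16
open Pool.Agent.H90 (MT.Col MT.Lam MT.psi MT.zz MT.part MT.nn MT.GOK MT.EE MT.A1 MT.A2 MT.B1 MT.T4)

variable {k : ℕ} {P : Finset ℕ} {n : ℕ} {c ρ L ℓ : ℝ}

lemma EE_lower_bd' (hP : ∀ p ∈ P, p.Prime) (hPk : ∀ p ∈ P, 2 * k + 2 < p) (hk : 2 ≤ k) (hc : 0 < c)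
    (hc1 : c ≤ 1) (hL : 0 < L) (hℓ : 0 < ℓ) (hn : 1 ≤ n) (hk2 : 2 ^ n ≤ k)
    (hρ : ρ = rQ c k n ℓ)
    (HL : ∀ i < n, c / 4 * (2 ^ i * ρ) / L ≤ S1d P (gY ρ i))
    (HU : ∀ i < n, S1d P (gY ρ i) ≤ 1 / c * (2 ^ i * ρ) / L)
    (hσ : 8000 * (k : ℝ) ^ 2 * ∑ p ∈ P, 1 / ((p : ℝ) - 1) ^ 2 ≤ 1) (m : Fin k) :
    MT.A1 P (gst n ρ) ^ 2 * ((1 - 1 / 100) * MT.A2 P (gst n ρ) ^ (k - 1)) ≤
      MT.EE (fun p (j : Fin k) => if j = m then 0 else 1 / ((p : ℝ) - 1))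
        (fun a : MT.Col P k => MT.Lam (gst n ρ) (RQ ℓ) a ^ 2) := by
  have hk0 : (0 : ℝ) < k := by
    have : 0 < k := by omega
    exact_mod_cast this
  have hn0 : (0 : ℝ) < n := by exact_mod_cast hn
  have hρ0 : 0 < ρ := by rw [hρ]; unfold rQ; positivity
  have hR : 0 < RQ ℓ := Real.exp_pos _
  set Q := gY ρ (n - 1) with hQ
  have hlogQ : Real.log Q ≤ ℓ / 400 := by
    rw [hQ, log_gY, hρ]
    unfold rQ
    have h1 : (2 : ℝ) ^ (n - 1) ≤ k := by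
      have h2 : 2 ^ (n - 1) ≤ k := (Nat.pow_le_pow_right (by norm_num) (by omega)).trans hk2
      exact_mod_cast h2
    have hn1 : (1 : ℝ) ≤ n := by exact_mod_cast hn
    have hc2 : c ^ 2 ≤ 1 := pow_le_one₀ hc.le hc1
    calc (2 : ℝ) ^ (n - 1) * (c ^ 2 / (1280000 * k * n) * ℓ) ≤ k * (1 / (1280000 * k * 1) * ℓ) := by
          apply mul_le_mul h1 _ (by positivity) hk0.le
          apply mul_le_mul_of_nonneg_right _ hℓ.le
          apply div_le_div₀ zero_le_one hc2 (by positivity)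
          exact mul_le_mul_of_nonneg_left hn1 (by positivity)
      _ = ℓ / 1280000 := by field_simp
      _ ≤ ℓ / 400 := by linarith
  have hQ0 : 0 < Q := Real.exp_pos _
  have hlogR : Real.log (RQ ℓ) = ℓ / 200 := by unfold RQ; rw [Real.log_exp]
  have hlogRQ : ℓ / 400 ≤ Real.log (RQ ℓ / Q) := by
    rw [Real.log_div hR.ne' hQ0.ne', hlogR]; linarith
  have hQR : Q < RQ ℓ := by
    have h1 : Real.log Q < Real.log (RQ ℓ) := by rw [hlogR]; linarith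
    exact (Real.log_lt_log_iff hQ0 hR).mp h1
  have hσ' : 0 ≤ ∑ p ∈ P, 1 / ((p : ℝ) - 1) ^ 2 := Finset.sum_nonneg (fun p _ => by positivity)
  have h4 := MT.T4 hP hPk hk (gst n ρ) (gst_GOK hP hn hρ0.le) (RQ ℓ) Q (gY_ge_one hρ0.le _) hQR
    (fun D _ hDQ => gst_eq_zero hρ0.le hDQ) m (by
      have : (k : ℝ) ^ 2 * ∑ p ∈ P, 1 / ((p : ℝ) - 1) ^ 2 =
        (8000 * (k : ℝ) ^ 2 * ∑ p ∈ P, 1 / ((p : ℝ) - 1) ^ 2) / 8000 := by ring
      rw [this]; linarith)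
  refine le_trans ?_ h4
  apply mul_le_mul_of_nonneg_left _ (sq_nonneg _)
  have hA2low : c / 4 * ρ / L ≤ MT.A2 P (gst n ρ) := by
    apply A2_lower hn hρ0.le
    have := HL 0 (by omega)
    rwa [pow_zero, one_mul] at this
  have hA2pos : 0 < MT.A2 P (gst n ρ) := lt_of_lt_of_le (by positivity) hA2low
  have hB1 : MT.B1 P (gst n ρ) ≤ 4 * (1 / c) * n * ρ ^ 2 / L := B1_upper hn hρ0.le hL hP HU
  have hB1' : ((k : ℝ) - 1) * MT.B1 P (gst n ρ) / Real.log (RQ ℓ / Q) ≤ MT.A2 P (gst n ρ) / 200 := by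
    have hB0 : 0 ≤ MT.B1 P (gst n ρ) := by
      unfold MT.B1
      apply Finset.sum_nonneg
      intro D hD
      have : 0 ≤ Real.log ((∏ p ∈ D, p : ℕ) : ℝ) := Real.log_natCast_nonneg _
      positivity
    have e1 : ((k : ℝ) - 1) * MT.B1 P (gst n ρ) / Real.log (RQ ℓ / Q) ≤
        k * (4 * (1 / c) * n * ρ ^ 2 / L) / (ℓ / 400) := by
      apply div_le_div₀ (by positivity) _ (by positivity) hlogRQ
      apply mul_le_mul (by linarith) hB1 hB0 hk0.le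
    refine e1.trans ?_
    have e2 : k * (4 * (1 / c) * n * ρ ^ 2 / L) / (ℓ / 400) = (c / 4 * ρ / L) / 200 := by
      have : ρ ^ 2 = ρ * (c ^ 2 / (1280000 * k * n) * ℓ) := by rw [sq]; nth_rewrite 2 [hρ]; unfold rQ; rfl
      rw [this]
      field_simp
      norm_num
    rw [e2]
    exact div_le_div_of_nonneg_right hA2low (by norm_num)
  have hpow : MT.A2 P (gst n ρ) ^ (k - 1) = MT.A2 P (gst n ρ) ^ (k - 2) * MT.A2 P (gst n ρ) := by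
    rw [← pow_succ]; congr 1; omega
  have h5 : ((k : ℝ) - 1) * MT.A2 P (gst n ρ) ^ (k - 2) * MT.B1 P (gst n ρ) / Real.log (RQ ℓ / Q) ≤
      MT.A2 P (gst n ρ) ^ (k - 1) / 200 := by
    calc ((k : ℝ) - 1) * MT.A2 P (gst n ρ) ^ (k - 2) * MT.B1 P (gst n ρ) / Real.log (RQ ℓ / Q)
        = MT.A2 P (gst n ρ) ^ (k - 2) * (((k : ℝ) - 1) * MT.B1 P (gst n ρ) / Real.log (RQ ℓ / Q)) := by
          ring
      _ ≤ MT.A2 P (gst n ρ) ^ (k - 2) * (MT.A2 P (gst n ρ) / 200) :=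
          mul_le_mul_of_nonneg_left hB1' (by positivity)
      _ = _ := by rw [hpow]; ring
  have h6 : 40 * (k : ℝ) ^ 2 * (∑ p ∈ P, 1 / ((p : ℝ) - 1) ^ 2) * MT.A2 P (gst n ρ) ^ (k - 1) ≤
      MT.A2 P (gst n ρ) ^ (k - 1) / 200 := by
    have e1 : 40 * (k : ℝ) ^ 2 * (∑ p ∈ P, 1 / ((p : ℝ) - 1) ^ 2) ≤ 1 / 200 := by linarith
    calc _ ≤ 1 / 200 * MT.A2 P (gst n ρ) ^ (k - 1) := mul_le_mul_of_nonneg_right e1 (by positivity)
      _ = _ := by ring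
  linarith

end Pool.Agent.H21.QG
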