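import Pool.Agent.H21.QG.Gsum
import Pool.Agent.H90.MT

/-!
JOB QG-05 (about 250 lines): the pair bound of the finite Maynard-Tao model.

Notation of H90/MT (read Spec.lean, Basic.lean, T23.lean, T4a.lean first): `q = qm m` is `0` at `m` and
`1/(p-1)` elsewhere. Let `q' p j = if j = m ∨ j = m' then 0 else 1/(p-1)`.
For a colouring `c` let `b = cset c m'` (primes of colour `m'`) and `r` = `c` with the colour `m'` replaced by
`none`. Put `G_r = G1 (P \ sup1 r) R1` and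
  `z c = 0` if `c` uses the colour `m` or `∏ b > R1`,
  `z c = (-1)^#b * zt g R q' r / G_r` otherwise.

(iii) `∑ c, z c ∏ psi (qm m p) (c p) (a p) = Lam g R a` if `a` has no colour `m, m'`: for `p ∈ b`,
`psi (qm m p) (some m') (a p) = - 1/(p-1)`. Group the `c` by `r` (no colours `m`, `m'`); the sum over
`b ⊆ P \ sup1 r`, `∏ b ≤ R1` of `(-1)^#b ∏ b (-1/(p-1))` is `G_r`. So the sum is
`∑ r (no m, m'), zt g R q' r ∏ psi (q' p) (r p) (a p)`, (for the colours `j ≠ m, m'` the kernels of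
`qm m` and `q'` agree) and this is `Lam g R a` by `Lam_expand g R q' a`, because for `r` with colour `m` or `m'`
at `p`, `psi (q' p) (r p) (a p) = 0`.

(i) `|zt g R q' r| ≤ [nn r ≤ R] * GG g r * (A1 P g)^2 * E`, `E = ∏ p ∈ P, (1 + ee p)^(k-2)` for `r` without colours
`m, m'`: as in the proof of `zt_bound`, `|zt| ≤ ∑ (c extending r) |zz g R c| ∏ |mx ..|`; by `sum_col_le` with
`F j D = [cset r j ⊆ D] g(∏ cset r j) ∏ (D \ cset r j) ee p` for `j ≠ m, m'` and `F j D = g(∏ D) ∏ D 1/p` for `j = m, m'`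
(use `g` anti-monotone; `|q' p j - 1/p| = ee p` resp. `1/p`), and `∑ D ⊆ P, D ⊇ S, ∏ (D \ S) ee p ≤ ∏ P (1 + ee p)`.
`E ≤ exp (k σ) ≤ exp (1/16) ≤ 2` (`ee p ≤ 1/(p-1)^2`, `σ = ∑ 1/(p-1)^2`), `GG g r ≤ 1`, `G_r ≥ 1` (`G1_ge_one`).
(ii) support: `nn c = nn r * ∏ b ≤ R * R1`.

(iv) `EE_upper (qm m) .. z`: `EE (qm m) (..^2) ≤ ∑ c, ∏ dw 1 (qm m p) (c p) * (z c)^2
 = ∑ r, ∏ (p ∈ sup1 r) 1/(p-1) * (zt r)^2 / G_r^2 * ∑ b, ∏ b 1/(p-1) = ∑ r, ∏ (sup1 r) 1/(p-1) * (zt r)^2 / G_r`,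
and `1/G_r ≤ (1/G) ∏ (sup1 r) p/(p-1)` (`G1_mul_le`). With (i):
 `≤ A1^4 E^2 / G * ∑ r, GG g r ^2 ∏ (sup1 r) p/(p-1)^2 ≤ A1^4 E^2 / G * (∑ D ⊆ P, g(∏ D)^2 ∏ D p/(p-1)^2)^(k-2)`
 (`sum_col_le`), and by `sum_powerset_perturb` with `u = 1/p`, `e p = p/(p-1)^2 - 1/p ≤ 3/(p-1)^2` the inner sum is
 `≤ A2 P g * ∏ (1 + e p) ≤ A2 P g * exp (3 σ)`. Total factor `exp (2 k σ + 3 k σ) ≤ 1 + 10 k σ` since `5 k σ ≤ 1`.
-/

set_option autoImplicit false

open Finset

namespace Pool.Agent.H21.QG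

open Pool.Agent.H90.MT

variable {P : Finset ℕ} {k : ℕ}

/-- forget the colour `m'` -/
def pmE (m' : Fin k) (c : Col P k) : Col P k := fun p => if c p = some m' then none else c p

/-- colour the primes of `b` with `m'` -/
def pmK (m' : Fin k) (r : Col P k) (b : Finset ℕ) : Col P k :=
  fun p => if (p : ℕ) ∈ b then some m' else r p

/-- the colourings without the colours `m`, `m'` -/
def pmNC (P : Finset ℕ) (m m' : Fin k) : Finset (Col P k) :=
  Finset.univ.filter (fun r => ∀ p, r p ≠ some m ∧ r p ≠ some m')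

/-- the densities with `0` at `m`, `m'` -/
noncomputable def pmq (m m' : Fin k) (p : ℕ) (j : Fin k) : ℝ :=
  if j = m ∨ j = m' then 0 else 1 / ((p : ℝ) - 1)

lemma pm_notMem_sup1 {r : Col P k} {b : Finset ℕ} (hb : b ⊆ P \ sup1 r) (p : {p // p ∈ P})
    (hp : (p : ℕ) ∈ b) : r p = none := by
  by_contra h
  exact (Finset.mem_sdiff.1 (hb hp)).2 ((mem_sup1 r p).2 h)

lemma pmE_pmK {m m' : Fin k} {r : Col P k} (hr : r ∈ pmNC P m m') {b : Finset ℕ}
    (hb : b ⊆ P \ sup1 r) : pmE m' (pmK m' r b) = r := by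
  have hr' := (Finset.mem_filter.1 hr).2
  funext p
  unfold pmE pmK
  by_cases hp : (p : ℕ) ∈ b
  · rw [if_pos hp, if_pos rfl, pm_notMem_sup1 hb p hp]
  · rw [if_neg hp, if_neg (hr' p).2]

lemma cset_pmK {m m' : Fin k} {r : Col P k} (hr : r ∈ pmNC P m m') {b : Finset ℕ}
    (hb : b ⊆ P \ sup1 r) : cset (pmK m' r b) m' = b := by
  have hr' := (Finset.mem_filter.1 hr).2
  ext x
  rw [mem_cset]
  constructor
  · rintro ⟨h, h2⟩
    unfold pmK at h2
    by_contra hx
    rw [if_neg hx] at h2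
    exact (hr' _).2 h2
  · intro hx
    refine ⟨(Finset.mem_sdiff.1 (hb hx)).1, ?_⟩
    unfold pmK
    rw [if_pos hx]

lemma pmK_pmE (m' : Fin k) (c : Col P k) : pmK m' (pmE m' c) (cset c m') = c := by
  funext p
  unfold pmK pmE
  by_cases hp : c p = some m'
  · rw [if_pos ((mem_cset c m' p).2 ⟨p.2, hp⟩), hp]
  · rw [if_neg, if_neg hp]
    intro h
    obtain ⟨_, h2⟩ := (mem_cset c m' p).1 h
    exact hp h2

lemma pmE_mem {m m' : Fin k} {c : Col P k} (hc : ∀ p, c p ≠ some m) : pmE m' c ∈ pmNC P m m' := by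
  refine Finset.mem_filter.2 ⟨Finset.mem_univ _, fun p => ?_⟩
  unfold pmE
  split_ifs with h
  · simp
  · exact ⟨hc p, h⟩

lemma cset_subset_pm (m' : Fin k) (c : Col P k) : cset c m' ⊆ P \ sup1 (pmE m' c) := by
  intro x hx
  obtain ⟨h, h2⟩ := (mem_cset c m' x).1 hx
  refine Finset.mem_sdiff.2 ⟨h, fun h3 => ?_⟩
  have h4 := (mem_sup1 (pmE m' c) ⟨x, h⟩).1 h3
  apply h4
  unfold pmE
  rw [if_pos h2]

lemma pmK_ne {m m' : Fin k} (hm : m ≠ m') {r : Col P k} (hr : r ∈ pmNC P m m') (b : Finset ℕ)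
    (p : {p // p ∈ P}) : pmK m' r b p ≠ some m := by
  have hr' := (Finset.mem_filter.1 hr).2
  unfold pmK
  split_ifs
  · intro h
    exact hm (Option.some.inj h).symm
  · exact (hr' p).1

/-- summation over the colourings without `m` with small `m'` part -/
lemma pm_sum {m m' : Fin k} (hm : m ≠ m') (R1 : ℝ) (F : Col P k → ℝ)
    (hF : ∀ c, F c ≠ 0 → (∀ p, c p ≠ some m) ∧ ((∏ p ∈ cset c m', p : ℕ) : ℝ) ≤ R1) :
    ∑ c : Col P k, F c = ∑ r ∈ pmNC P m m', ∑ b ∈ Pool.Agent.H16.lev (P \ sup1 r) R1, F (pmK m' r b) := by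
  classical
  have h1 : ∑ c : Col P k, F c = ∑ c ∈ Finset.univ.filter (fun c : Col P k =>
      (∀ p, c p ≠ some m) ∧ ((∏ p ∈ cset c m', p : ℕ) : ℝ) ≤ R1), F c := by
    symm
    refine Finset.sum_subset (Finset.filter_subset _ _) ?_
    intro c _ hc
    by_contra h
    exact hc (Finset.mem_filter.2 ⟨Finset.mem_univ _, hF c h⟩)
  rw [h1, Finset.sum_sigma']
  refine Finset.sum_bij' (fun c _ => ⟨pmE m' c, cset c m'⟩) (fun x _ => pmK m' x.1 x.2) ?_ ?_ ?_ ?_ ?_
  · intro c hc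
    have hc' := (Finset.mem_filter.1 hc).2
    rw [Finset.mem_sigma]
    exact ⟨pmE_mem hc'.1, Pool.Agent.H16.mem_lev.2 ⟨cset_subset_pm m' c, hc'.2⟩⟩
  · intro x hx
    rw [Finset.mem_sigma] at hx
    obtain ⟨hx1, hx2⟩ := hx
    obtain ⟨hx3, hx4⟩ := Pool.Agent.H16.mem_lev.1 hx2
    refine Finset.mem_filter.2 ⟨Finset.mem_univ _, fun p => pmK_ne hm hx1 _ p, ?_⟩
    rw [cset_pmK hx1 hx3]
    exact hx4
  · intro c _
    exact pmK_pmE m' c
  · intro x hx
    rw [Finset.mem_sigma] at hx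
    obtain ⟨hx1, hx2⟩ := hx
    obtain ⟨hx3, hx4⟩ := Pool.Agent.H16.mem_lev.1 hx2
    obtain ⟨x1, x2⟩ := x
    simp only at hx1 hx3 ⊢
    rw [pmE_pmK hx1 hx3, cset_pmK hx1 hx3]
  · intro c _
    rw [pmK_pmE]

lemma pm_prod_two {m m' : Fin k} (hm : m ≠ m') (A B : ℝ) (f : Fin k → ℝ) (h1 : f m = 1)
    (h2 : f m' = 1) :
    ∏ j, (if j = m ∨ j = m' then A else f j * B) = A ^ 2 * B ^ (k - 2) * ∏ j, f j := by
  have h3 : ∀ j, (if j = m ∨ j = m' then A else f j * B) =
      (if j = m ∨ j = m' then A else B) * f j := by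
    intro j
    split_ifs with h
    · rcases h with h | h
      · rw [h, h1, mul_one]
      · rw [h, h2, mul_one]
    · ring
  simp_rw [h3]
  rw [Finset.prod_mul_distrib, Finset.prod_ite, Finset.prod_const, Finset.prod_const]
  have h4 : (Finset.univ.filter (fun j : Fin k => j = m ∨ j = m')).card = 2 := by
    have : Finset.univ.filter (fun j : Fin k => j = m ∨ j = m') = {m, m'} := by
      ext j
      simp
    rw [this, Finset.card_pair hm]
  have h5 : (Finset.univ.filter (fun j : Fin k => ¬ (j = m ∨ j = m'))).card = k - 2 := by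
    have h6 := Finset.card_filter_add_card_filter_not (s := (Finset.univ : Finset (Fin k)))
      (fun j : Fin k => j = m ∨ j = m')
    rw [h4, Finset.card_univ, Fintype.card_fin] at h6
    omega
  rw [h4, h5]

lemma pm_powerset_ge (Q S : Finset ℕ) (f : ℕ → ℝ) (hf : ∀ p ∈ Q, 0 ≤ f p) :
    ∑ D ∈ Q.powerset, (∏ p ∈ D, (if p ∈ S then 1 else f p)) *
      (∏ p ∈ Q \ D, (if p ∈ S then (0 : ℝ) else 1)) ≤ ∏ p ∈ Q, (1 + f p) := by
  rw [← Finset.prod_add]
  refine Finset.prod_le_prod (fun p hp => ?_) (fun p hp => ?_)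
  · split_ifs
    · norm_num
    · linarith [hf p hp]
  · split_ifs
    · linarith [hf p hp]
    · linarith

theorem pm_zt (hP : ∀ p ∈ P, p.Prime) {g : ℕ → ℝ} (hg : GOK P g) (R : ℝ) {m m' : Fin k}
    (hm : m ≠ m') (r : Col P k) (hr : r ∈ pmNC P m m') :
    |zt g R (pmq m m') r| ≤ (if (nn r : ℝ) ≤ R then 1 else 0) *
      (A1 P g ^ 2 * (∏ p ∈ P, (1 + ee p)) ^ (k - 2) * GG g r) := by
  classical
  have hr' := (Finset.mem_filter.1 hr).2
  have hp1 : ∀ p ∈ P, (1 : ℝ) < p := fun p hp => by exact_mod_cast (hP p hp).one_lt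
  have hee : ∀ p ∈ P, 0 ≤ ee p := by
    intro p hp
    unfold ee
    rw [sub_nonneg]
    exact one_div_le_one_div_of_le (by linarith [hp1 p hp]) (by linarith)
  have hcm : cset r m = ∅ := by
    rw [Finset.eq_empty_iff_forall_notMem]
    intro x hx
    obtain ⟨_, h2⟩ := (mem_cset r m x).1 hx
    exact (hr' _).1 h2
  have hcm' : cset r m' = ∅ := by
    rw [Finset.eq_empty_iff_forall_notMem]
    intro x hx
    obtain ⟨_, h2⟩ := (mem_cset r m' x).1 hx
    exact (hr' _).2 h2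
  set v : ℕ → Fin k → ℝ := fun p j => |pmq m m' p j - 1 / (p : ℝ)| with hv
  have hv1 : ∀ p ∈ P, ∀ j, ¬ (j = m ∨ j = m') → v p j = ee p := by
    intro p hp j hj
    rw [hv]
    simp only [pmq, if_neg hj]
    exact abs_of_nonneg (hee p hp)
  have hv2 : ∀ p, ∀ j, (j = m ∨ j = m') → v p j = 1 / (p : ℝ) := by
    intro p j hj
    rw [hv]
    simp only [pmq, if_pos hj]
    rw [zero_sub, abs_neg, abs_of_nonneg (by positivity)]
  have hv0 : ∀ p j, 0 ≤ v p j := fun p j => abs_nonneg _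
  set F : Fin k → Finset ℕ → ℝ := fun j D =>
    (if j = m ∨ j = m' then g (∏ p ∈ D, p) else g (∏ p ∈ cset r j, p)) *
      ((∏ p ∈ D, (if p ∈ cset r j then 1 else v p j)) *
        (∏ p ∈ P \ D, (if p ∈ cset r j then (0 : ℝ) else 1))) with hF
  have hF0 : ∀ j, ∀ D ∈ P.powerset, 0 ≤ F j D := by
    intro j D hD
    rw [hF]
    simp only
    refine mul_nonneg ?_ (mul_nonneg (Finset.prod_nonneg fun p _ => ?_) (Finset.prod_nonneg fun p _ => ?_))
    · split_ifs
      · exact hg.nonneg D (Finset.mem_powerset.1 hD)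
      · exact hg.nonneg _ (cset_subset r j)
    · split_ifs
      · norm_num
      · exact hv0 p j
    · split_ifs <;> norm_num
  have hterm : ∀ c : Col P k, |zz g R c * ∏ p : {p // p ∈ P},
      mx (fun j => pmq m m' p j - 1 / ((p : ℕ) : ℝ)) (c p) (r p)| ≤
      (if (nn r : ℝ) ≤ R then 1 else 0) * ∏ j, F j (cset c j) := by
    intro c
    have hnn : 0 ≤ (if (nn r : ℝ) ≤ R then (1 : ℝ) else 0) * ∏ j, F j (cset c j) :=
      mul_nonneg (by split_ifs <;> norm_num)
        (Finset.prod_nonneg fun j _ => hF0 j _ (Finset.mem_powerset.2 (cset_subset c j)))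
    by_cases hz : ∃ p : {p // p ∈ P}, mx (fun j => pmq m m' p j - 1 / ((p : ℕ) : ℝ)) (c p) (r p) = 0
    · obtain ⟨p, hp⟩ := hz
      rw [Finset.prod_eq_zero (Finset.mem_univ p) hp, mul_zero, abs_zero]
      exact hnn
    · push Not at hz
      have hext : ∀ p, r p ≠ none → c p = r p := fun p hp => mx_ne_zero (hz p) hp
      rw [abs_mul, abs_zz hg, mul_assoc]
      have hn : (nn r : ℝ) ≤ nn c := by exact_mod_cast nn_mono hP hext
      have hprod : |∏ p : {p // p ∈ P}, mx (fun j => pmq m m' p j - 1 / ((p : ℕ) : ℝ)) (c p) (r p)| =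
          ∏ j, ∏ p ∈ cset c j, (if p ∈ cset r j then 1 else v p j) := by
        rw [Finset.abs_prod, ← prod_wt (fun p j => if p ∈ cset r j then (1 : ℝ) else v p j) c]
        refine Finset.prod_congr rfl fun p _ => ?_
        cases hc : c p with
        | none =>
          have h1 : r p = none := by
            by_contra h
            have := hext p h
            rw [hc] at this
            exact h this.symm
          rw [h1]
          simp [mx]
        | some j =>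
          cases h2 : r p with
          | none =>
            have h3 : (p : ℕ) ∉ cset r j := by
              intro h
              obtain ⟨_, h4⟩ := (mem_cset r j p).1 h
              have h5 : r p = some j := h4
              rw [h2] at h5
              exact absurd h5 (by simp)
            simp [mx, h3, hv]
          | some j' =>
            have h3 := hext p (by rw [h2]; simp)
            rw [hc, h2] at h3
            have h4 : j = j' := Option.some.inj h3
            subst h4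
            have h5 : (p : ℕ) ∈ cset r j := (mem_cset r j p).2 ⟨p.2, h2⟩
            simp [mx, h5]
      rw [hprod]
      have hF1 : GG g c * ∏ j, ∏ p ∈ cset c j, (if p ∈ cset r j then 1 else v p j) ≤
          ∏ j, F j (cset c j) := by
        unfold GG
        rw [← Finset.prod_mul_distrib]
        refine Finset.prod_le_prod (fun j _ => mul_nonneg (hg.nonneg _ (cset_subset c j))
          (Finset.prod_nonneg fun p _ => by split_ifs <;> [norm_num; exact hv0 p j])) (fun j _ => ?_)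
        rw [hF]
        simp only
        have h1 : ∏ p ∈ P \ cset c j, (if p ∈ cset r j then (0 : ℝ) else 1) = 1 := by
          refine Finset.prod_eq_one fun p hp => ?_
          rw [if_neg]
          intro h
          exact (Finset.mem_sdiff.1 hp).2 (cset_mono_of_ext hext j h)
        rw [h1, mul_one]
        refine mul_le_mul_of_nonneg_right ?_
          (Finset.prod_nonneg fun p _ => by split_ifs <;> [norm_num; exact hv0 p j])
        split_ifs
        · exact le_refl _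
        · exact hg.anti _ (cset_subset c j) _ (cset_mono_of_ext hext j)
      have h0 : 0 ≤ GG g c * ∏ j, ∏ p ∈ cset c j, (if p ∈ cset r j then 1 else v p j) :=
        mul_nonneg (GG_nonneg hg c) (Finset.prod_nonneg fun j _ => Finset.prod_nonneg fun p _ => by
          split_ifs <;> [norm_num; exact hv0 p j])
      by_cases h2 : (nn c : ℝ) ≤ R
      · rw [if_pos h2, if_pos (hn.trans h2), one_mul, one_mul]
        exact hF1
      · rw [if_neg h2, zero_mul]
        exact hnn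
  unfold zt
  refine (Finset.abs_sum_le_sum_abs _ _).trans ((Finset.sum_le_sum fun c _ => hterm c).trans ?_)
  rw [← Finset.mul_sum]
  refine mul_le_mul_of_nonneg_left ?_ (by split_ifs <;> norm_num)
  refine (sum_col_le Finset.univ (fun _ => P.powerset) F
    (fun c _ j => Finset.mem_powerset.2 (cset_subset c j)) hF0).trans ?_
  have hg1 : g (∏ p ∈ (∅ : Finset ℕ), p) = 1 := by rw [Finset.prod_empty, hg.one]
  have hkey := pm_prod_two hm (A1 P g) (∏ p ∈ P, (1 + ee p)) (fun j => g (∏ p ∈ cset r j, p))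
    (by show g (∏ p ∈ cset r m, p) = 1; rw [hcm, hg1])
    (by show g (∏ p ∈ cset r m', p) = 1; rw [hcm', hg1])
  unfold GG
  rw [← hkey]
  refine Finset.prod_le_prod (fun j _ => Finset.sum_nonneg fun D hD => hF0 j D hD) (fun j _ => ?_)
  split_ifs with hj
  · rw [A1_eq]
    refine le_of_eq (Finset.sum_congr rfl fun D _ => ?_)
    have hce : cset r j = ∅ := by
      rcases hj with h | h
      · rw [h, hcm]
      · rw [h, hcm']
    rw [hF]
    simp only [if_pos hj, hce, Finset.notMem_empty, if_false, Finset.prod_const_one, mul_one]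
    congr 1
    refine Finset.prod_congr rfl fun p _ => ?_
    exact hv2 p j hj
  · have h1 : ∀ D ∈ P.powerset, F j D = g (∏ p ∈ cset r j, p) *
        ((∏ p ∈ D, (if p ∈ cset r j then 1 else ee p)) *
          (∏ p ∈ P \ D, (if p ∈ cset r j then (0 : ℝ) else 1))) := by
      intro D hD
      rw [hF]
      simp only [if_neg hj]
      congr 2
      refine Finset.prod_congr rfl fun p hp => ?_
      rw [hv1 p (Finset.mem_powerset.1 hD hp) j hj]
    rw [Finset.sum_congr rfl h1, ← Finset.mul_sum]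
    exact mul_le_mul_of_nonneg_left (pm_powerset_ge P _ ee hee) (hg.nonneg _ (cset_subset r j))

lemma pmq_left (m m' : Fin k) (p : ℕ) : pmq m m' p m = 0 := if_pos (Or.inl rfl)

lemma pmq_right (m m' : Fin k) (p : ℕ) : pmq m m' p m' = 0 := if_pos (Or.inr rfl)

lemma pmq_ne {m m' j : Fin k} (h1 : j ≠ m) (h2 : j ≠ m') (p : ℕ) :
    pmq m m' p j = 1 / ((p : ℝ) - 1) := if_neg (fun h => h.elim h1 h2)

lemma pm_psi_some (q : Fin k → ℝ) (j : Fin k) (o : Option (Fin k)) :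
    psi q (some j) o = (if o = some j then 1 else 0) - q j := rfl

lemma pm_psi_none (q : Fin k → ℝ) (o : Option (Fin k)) : psi q none o = 1 := rfl

/-- the normalising sum -/
noncomputable def pmG (R1 : ℝ) (r : Col P k) : ℝ := G1 (P \ sup1 r) R1

/-- the coefficients -/
noncomputable def pmz (g : ℕ → ℝ) (R R1 : ℝ) (m m' : Fin k) (c : Col P k) : ℝ :=
  if (∀ p, c p ≠ some m) ∧ ((∏ p ∈ cset c m', p : ℕ) : ℝ) ≤ R1 then
    (-1) ^ (cset c m').card * zt g R (pmq m m') (pmE m' c) / pmG R1 (pmE m' c) else 0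

lemma pmz_ne {g : ℕ → ℝ} {R R1 : ℝ} {m m' : Fin k} {c : Col P k} (h : pmz g R R1 m m' c ≠ 0) :
    (∀ p, c p ≠ some m) ∧ ((∏ p ∈ cset c m', p : ℕ) : ℝ) ≤ R1 := by
  by_contra hcon
  apply h
  unfold pmz
  rw [if_neg hcon]

lemma pmz_mk {g : ℕ → ℝ} {R R1 : ℝ} {m m' : Fin k} (hm : m ≠ m') {r : Col P k}
    (hr : r ∈ pmNC P m m') {b : Finset ℕ} (hb : b ∈ Pool.Agent.H16.lev (P \ sup1 r) R1) :
    pmz g R R1 m m' (pmK m' r b) = (-1) ^ b.card * zt g R (pmq m m') r / pmG R1 r := by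
  obtain ⟨hb1, hb2⟩ := Pool.Agent.H16.mem_lev.1 hb
  unfold pmz
  rw [if_pos, pmE_pmK hr hb1, cset_pmK hr hb1]
  refine ⟨fun p => pmK_ne hm hr b p, ?_⟩
  rw [cset_pmK hr hb1]
  exact hb2

/-- a product over the colouring `pmK m' r b` -/
lemma pm_prod_mk {m m' : Fin k} {r : Col P k} (_hr : r ∈ pmNC P m m') {b : Finset ℕ}
    (hb : b ⊆ P \ sup1 r) (f : ℕ → Option (Fin k) → ℝ) (hf : ∀ p ∈ b, f p none = 1) :
    ∏ p : {p // p ∈ P}, f p (pmK m' r b p) =
      (∏ p ∈ b, f p (some m')) * ∏ p : {p // p ∈ P}, f p (r p) := by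
  have hbP : b ⊆ P := fun x hx => (Finset.mem_sdiff.1 (hb hx)).1
  have h1 : ∏ p ∈ b, f p (some m') = ∏ p : {p // p ∈ P}, if (p : ℕ) ∈ b then f p (some m') else 1 := by
    rw [Finset.prod_coe_sort P (fun p => if p ∈ b then f p (some m') else 1), ← Finset.prod_filter]
    congr 1
    ext x
    rw [Finset.mem_filter]
    exact ⟨fun h => ⟨hbP h, h⟩, fun h => h.2⟩
  rw [h1, ← Finset.prod_mul_distrib]
  refine Finset.prod_congr rfl fun p _ => ?_
  unfold pmK
  split_ifs with hp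
  · rw [pm_notMem_sup1 hb p hp, hf p hp, mul_one]
  · rw [one_mul]

/-- the identity on the colourings without `m`, `m'` -/
theorem pm_ident (g : ℕ → ℝ) (R : ℝ) {R1 : ℝ} (hR1 : 1 ≤ R1) (hP : ∀ p ∈ P, p.Prime)
    {m m' : Fin k} (hm : m ≠ m') (a : Col P k) (ha : ∀ p, a p ≠ some m ∧ a p ≠ some m') :
    ∑ c : Col P k, pmz g R R1 m m' c * ∏ p : {p // p ∈ P}, psi (qm m p) (c p) (a p) = Lam g R a := by
  classical
  rw [pm_sum hm R1 _ (fun c hc => pmz_ne (left_ne_zero_of_mul hc))]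
  have h1 : ∀ r ∈ pmNC P m m', ∑ b ∈ Pool.Agent.H16.lev (P \ sup1 r) R1,
      pmz g R R1 m m' (pmK m' r b) * ∏ p : {p // p ∈ P}, psi (qm m p) (pmK m' r b p) (a p) =
      zt g R (pmq m m') r * ∏ p : {p // p ∈ P}, psi (pmq m m' p) (r p) (a p) := by
    intro r hr
    have hr' := (Finset.mem_filter.1 hr).2
    have hG : 0 < pmG R1 r := by
      have := G1_ge_one (P \ sup1 r) (fun p hp => hP p (Finset.mem_sdiff.1 hp).1) R1 hR1
      unfold pmG
      linarith
    have h2 : ∀ b ∈ Pool.Agent.H16.lev (P \ sup1 r) R1,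
        pmz g R R1 m m' (pmK m' r b) * ∏ p : {p // p ∈ P}, psi (qm m p) (pmK m' r b p) (a p) =
        (zt g R (pmq m m') r / pmG R1 r * ∏ p : {p // p ∈ P}, psi (pmq m m' p) (r p) (a p)) *
          ∏ p ∈ b, 1 / ((p : ℝ) - 1) := by
      intro b hb
      obtain ⟨hb1, hb2⟩ := Pool.Agent.H16.mem_lev.1 hb
      have hbP : b ⊆ P := fun x hx => (Finset.mem_sdiff.1 (hb1 hx)).1
      rw [pmz_mk hm hr hb]
      have h3 : ∏ p : {p // p ∈ P}, psi (qm m p) (pmK m' r b p) (a p) =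
          (∏ p ∈ b, (-(1 / ((p : ℝ) - 1)))) * ∏ p : {p // p ∈ P}, psi (pmq m m' p) (r p) (a p) := by
        have h4 := pm_prod_mk hr hb1 (fun p o => if h : p ∈ P then psi (qm m p) o (a ⟨p, h⟩) else 1)
          (fun p hp => dif_pos (hbP hp))
        have h5 : ∏ p : {p // p ∈ P}, psi (qm m p) (pmK m' r b p) (a p) =
            ∏ p : {p // p ∈ P}, (if h : (p : ℕ) ∈ P then psi (qm m p) (pmK m' r b p) (a ⟨p, h⟩) else 1) :=
          Finset.prod_congr rfl fun p _ => by rw [dif_pos p.2]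
        rw [h5]
        refine h4.trans ?_
        congr 1
        · refine Finset.prod_congr rfl fun p hp => ?_
          rw [dif_pos (hbP hp), pm_psi_some, if_neg (ha ⟨p, hbP hp⟩).2, zero_sub]
          unfold qm
          rw [if_neg (Ne.symm hm)]
        · refine Finset.prod_congr rfl fun p _ => ?_
          rw [dif_pos p.2]
          cases hc : r p with
          | none => rfl
          | some j =>
            have hj1 : j ≠ m := fun h => (hr' p).1 (by rw [hc, h])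
            have hj2 : j ≠ m' := fun h => (hr' p).2 (by rw [hc, h])
            rw [pm_psi_some, pm_psi_some, pmq_ne hj1 hj2]
            unfold qm
            rw [if_neg hj1]
      rw [h3, Finset.prod_neg]
      have h6 : ((-1 : ℝ) ^ b.card) * (-1) ^ b.card = 1 := by
        rw [← mul_pow]
        norm_num
      calc (-1) ^ b.card * zt g R (pmq m m') r / pmG R1 r *
            ((-1) ^ b.card * (∏ p ∈ b, 1 / ((p : ℝ) - 1)) * ∏ p : {p // p ∈ P}, psi (pmq m m' p) (r p) (a p))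
          = ((-1 : ℝ) ^ b.card * (-1) ^ b.card) * ((zt g R (pmq m m') r / pmG R1 r *
            ∏ p : {p // p ∈ P}, psi (pmq m m' p) (r p) (a p)) * ∏ p ∈ b, 1 / ((p : ℝ) - 1)) := by ring
        _ = _ := by rw [h6, one_mul]
    rw [Finset.sum_congr rfl h2, ← Finset.mul_sum]
    have h7 : ∑ b ∈ Pool.Agent.H16.lev (P \ sup1 r) R1, ∏ p ∈ b, 1 / ((p : ℝ) - 1) = pmG R1 r := rfl
    rw [h7]
    field_simp
  rw [Finset.sum_congr rfl h1, Lam_expand g R (pmq m m') a]
  refine Finset.sum_subset (Finset.filter_subset _ _) ?_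
  intro r _ hr
  have h2 : ∃ p, r p = some m ∨ r p = some m' := by
    by_contra hcon
    push Not at hcon
    exact hr (Finset.mem_filter.2 ⟨Finset.mem_univ _, hcon⟩)
  obtain ⟨p, hp⟩ := h2
  have h3 : psi (pmq m m' p) (r p) (a p) = 0 := by
    rcases hp with hp | hp
    · rw [hp, pm_psi_some, if_neg (ha p).1, pmq_left, sub_zero]
    · rw [hp, pm_psi_some, if_neg (ha p).2, pmq_right, sub_zero]
  rw [Finset.prod_eq_zero (Finset.mem_univ p) h3, mul_zero]

lemma pm_ee_le {p : ℕ} (hp : 2 < p) : 0 ≤ ee p ∧ ee p ≤ 1 / ((p : ℝ) - 1) ^ 2 := by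
  have h2 : (2 : ℝ) < p := by exact_mod_cast hp
  unfold ee
  constructor
  · rw [sub_nonneg]
    exact one_div_le_one_div_of_le (by linarith) (by linarith)
  · rw [div_sub_div _ _ (by linarith) (by linarith), div_le_div_iff₀ (by nlinarith) (by nlinarith)]
    nlinarith

lemma pm_e3_le {p : ℕ} (hp : 2 < p) : 0 ≤ (p : ℝ) / ((p : ℝ) - 1) ^ 2 - 1 / p ∧
    (p : ℝ) / ((p : ℝ) - 1) ^ 2 - 1 / p ≤ 3 * (1 / ((p : ℝ) - 1) ^ 2) := by
  have h2 : (2 : ℝ) < p := by exact_mod_cast hp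
  have h1 : (p : ℝ) / ((p : ℝ) - 1) ^ 2 - 1 / p = (2 * p - 1) / (p * ((p : ℝ) - 1) ^ 2) := by
    have h3 : ((p : ℝ) - 1) ≠ 0 := by linarith
    have h4 : (p : ℝ) ≠ 0 := by linarith
    field_simp
    ring
  rw [h1]
  constructor
  · apply div_nonneg (by linarith)
    have : 0 < ((p : ℝ) - 1) ^ 2 := by nlinarith
    positivity
  · rw [mul_one_div, div_le_div_iff₀ (by nlinarith [sq_nonneg ((p : ℝ) - 1)]) (by nlinarith)]
    have h5 : 0 < ((p : ℝ) - 1) ^ 2 := by nlinarith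
    nlinarith

lemma pm_GG_le_one {g : ℕ → ℝ} (hg : GOK P g) (r : Col P k) : GG g r ≤ 1 :=
  Finset.prod_le_one (fun j _ => hg.nonneg _ (cset_subset r j)) (fun j _ => hg.le_one (cset_subset r j))

lemma pm_exp_le {x : ℝ} (h0 : 0 ≤ x) (h1 : x ≤ 1 / 2) : Real.exp x ≤ 1 + 2 * x := by
  have h2 : 1 - x ≤ Real.exp (-x) := by
    have := Real.add_one_le_exp (-x)
    linarith
  have h3 : Real.exp x * Real.exp (-x) = 1 := by
    rw [← Real.exp_add]
    simp
  have h4 : 0 < Real.exp x := Real.exp_pos x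
  nlinarith

/-- the sum over the colourings without `m`, `m'` -/
lemma pm_sum_col {m m' : Fin k} (hm : m ≠ m') {g : ℕ → ℝ} (hg : GOK P g) (w : ℕ → ℝ)
    (hw : ∀ p ∈ P, 0 ≤ w p) :
    ∑ r ∈ pmNC P m m', GG g r ^ 2 * ∏ p ∈ sup1 r, w p ≤
      (∑ D ∈ P.powerset, g (∏ p ∈ D, p) ^ 2 * ∏ p ∈ D, w p) ^ (k - 2) := by
  classical
  have h1 : ∀ r : Col P k, GG g r ^ 2 * ∏ p ∈ sup1 r, w p =
      ∏ j, (g (∏ p ∈ cset r j, p) ^ 2 * ∏ p ∈ cset r j, w p) := by
    intro r
    rw [← GG_sq g r (fun p _ => w p), prod_sup1_cset, mul_comm]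
  simp_rw [h1]
  have hpos : ∀ D ∈ P.powerset, 0 ≤ g (∏ p ∈ D, p) ^ 2 * ∏ p ∈ D, w p := fun D hD =>
    mul_nonneg (sq_nonneg _) (Finset.prod_nonneg fun p hp => hw p (Finset.mem_powerset.1 hD hp))
  refine (sum_col_le (pmNC P m m') (fun j => if j = m ∨ j = m' then {∅} else P.powerset)
    (fun _ D => g (∏ p ∈ D, p) ^ 2 * ∏ p ∈ D, w p) ?_ ?_).trans ?_
  · intro r hr j
    have hr' := (Finset.mem_filter.1 hr).2
    split_ifs with hj
    · rw [Finset.mem_singleton, Finset.eq_empty_iff_forall_notMem]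
      intro x hx
      obtain ⟨h, h2⟩ := (mem_cset r j x).1 hx
      rcases hj with hj | hj
      · exact (hr' ⟨x, h⟩).1 (by rw [h2, hj])
      · exact (hr' ⟨x, h⟩).2 (by rw [h2, hj])
    · exact Finset.mem_powerset.2 (cset_subset r j)
  · intro j D hD
    split_ifs at hD with hj
    · rw [Finset.mem_singleton] at hD
      exact hpos D (by rw [hD]; exact Finset.empty_mem_powerset P)
    · exact hpos D hD
  · have h2 : ∀ j : Fin k, ∑ D ∈ (if j = m ∨ j = m' then {∅} else P.powerset),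
        g (∏ p ∈ D, p) ^ 2 * ∏ p ∈ D, w p =
        (if j = m ∨ j = m' then 1 else 1 * ∑ D ∈ P.powerset, g (∏ p ∈ D, p) ^ 2 * ∏ p ∈ D, w p) := by
      intro j
      split_ifs with hj
      · rw [Finset.sum_singleton, Finset.prod_empty, Finset.prod_empty, hg.one]
        norm_num
      · rw [one_mul]
    simp_rw [h2]
    have h3 := pm_prod_two hm 1 (∑ D ∈ P.powerset, g (∏ p ∈ D, p) ^ 2 * ∏ p ∈ D, w p)
      (fun _ => 1) rfl rfl
    rw [h3]
    simp

theorem pair_model {P : Finset ℕ} {k : ℕ} (hP : ∀ p ∈ P, p.Prime) (hPk : ∀ p ∈ P, 2 * k + 2 < p)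
    (g : ℕ → ℝ) (hg : GOK P g) (R R1 : ℝ) (hR1 : 1 ≤ R1) (m m' : Fin k) (hm : m ≠ m')
    (hσ : (k : ℝ) * ∑ p ∈ P, 1 / ((p : ℝ) - 1) ^ 2 ≤ 1 / 16) :
    ∃ z : Col P k → ℝ,
      (∀ c, |z c| ≤ 2 * A1 P g ^ 2) ∧ (∀ c, z c ≠ 0 → (nn c : ℝ) ≤ R * R1) ∧
      (∀ a : Col P k, (∀ p, a p ≠ some m ∧ a p ≠ some m') →
        ∑ c : Col P k, z c * ∏ p : {p // p ∈ P}, psi (qm m p) (c p) (a p) = Lam g R a) ∧
      EE (qm m) (fun a : Col P k =>
          (∑ c : Col P k, z c * ∏ p : {p // p ∈ P}, psi (qm m p) (c p) (a p)) ^ 2) ≤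
        (1 + 10 * (k * ∑ p ∈ P, 1 / ((p : ℝ) - 1) ^ 2)) * A1 P g ^ 4 * A2 P g ^ (k - 2) / G1 P R1 := by
  classical
  have hp2 : ∀ p ∈ P, 2 < p := fun p hp => by have := hPk p hp; omega
  have hpr : ∀ p ∈ P, (2 : ℝ) < p := fun p hp => by exact_mod_cast hp2 p hp
  set σ : ℝ := ∑ p ∈ P, 1 / ((p : ℝ) - 1) ^ 2 with hσdef
  have hσ0 : 0 ≤ σ := Finset.sum_nonneg fun p _ => by positivity
  set X : ℝ := ∏ p ∈ P, (1 + ee p) with hX
  have hX0 : 0 ≤ X := Finset.prod_nonneg fun p hp => by linarith [(pm_ee_le (hp2 p hp)).1]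
  have hXle : X ^ (k - 2) ≤ Real.exp (k * σ) := by
    have h1 : X ≤ Real.exp σ := (prod_one_add_le_exp P _ fun p hp => (pm_ee_le (hp2 p hp)).1).trans
      (Real.exp_le_exp.2 (Finset.sum_le_sum fun p hp => (pm_ee_le (hp2 p hp)).2))
    calc X ^ (k - 2) ≤ Real.exp σ ^ (k - 2) := pow_le_pow_left₀ hX0 h1 _
      _ ≤ Real.exp σ ^ k := pow_le_pow_right₀ (Real.one_le_exp hσ0) (Nat.sub_le _ _)
      _ = Real.exp (k * σ) := by rw [← Real.exp_nat_mul]
  have hXk0 : 0 ≤ X ^ (k - 2) := pow_nonneg hX0 _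
  have hX2 : X ^ (k - 2) ≤ 2 := by
    refine hXle.trans ((Real.exp_le_exp.2 hσ).trans ?_)
    have := pm_exp_le (x := 1 / 16) (by norm_num) (by norm_num)
    linarith
  have hA1 : 0 ≤ A1 P g := by
    rw [A1_eq]
    exact Finset.sum_nonneg fun D hD => mul_nonneg (hg.nonneg D (Finset.mem_powerset.1 hD))
      (Finset.prod_nonneg fun p _ => by positivity)
  have hA2 : 0 ≤ A2 P g := by
    rw [A2_eq]
    exact Finset.sum_nonneg fun D _ => mul_nonneg (sq_nonneg _) (Finset.prod_nonneg fun p _ => by positivity)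
  have hGr : ∀ r : Col P k, 1 ≤ pmG R1 r := fun r =>
    G1_ge_one (P \ sup1 r) (fun p hp => hP p (Finset.mem_sdiff.1 hp).1) R1 hR1
  have hG : 1 ≤ G1 P R1 := G1_ge_one P hP R1 hR1
  have hzt : ∀ r ∈ pmNC P m m', |zt g R (pmq m m') r| ≤ A1 P g ^ 2 * X ^ (k - 2) * GG g r := by
    intro r hr
    refine (pm_zt hP hg R hm r hr).trans ?_
    have h1 : 0 ≤ A1 P g ^ 2 * X ^ (k - 2) * GG g r :=
      mul_nonneg (mul_nonneg (sq_nonneg _) hXk0) (GG_nonneg hg r)
    split_ifs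
    · rw [one_mul]
    · rw [zero_mul]
      exact h1
  refine ⟨pmz g R R1 m m', ?_, ?_, fun a ha => pm_ident g R hR1 hP hm a ha, ?_⟩
  · intro c
    by_cases hz : pmz g R R1 m m' c = 0
    · rw [hz, abs_zero]
      positivity
    · obtain ⟨h1, h2⟩ := pmz_ne hz
      have hr : pmE m' c ∈ pmNC P m m' := pmE_mem h1
      have hb : cset c m' ∈ Pool.Agent.H16.lev (P \ sup1 (pmE m' c)) R1 :=
        Pool.Agent.H16.mem_lev.2 ⟨cset_subset_pm m' c, h2⟩
      have h3 := pmz_mk (g := g) (R := R) (R1 := R1) hm hr hb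
      rw [pmK_pmE] at h3
      rw [h3, abs_div, abs_mul, abs_pow, abs_neg, abs_one, one_pow, one_mul,
        abs_of_pos (by linarith [hGr (pmE m' c)] : 0 < pmG R1 (pmE m' c))]
      rw [div_le_iff₀ (by linarith [hGr (pmE m' c)])]
      have h4 := hzt _ hr
      have h5 := pm_GG_le_one hg (pmE m' c)
      have h6 := GG_nonneg hg (pmE m' c)
      calc |zt g R (pmq m m') (pmE m' c)| ≤ A1 P g ^ 2 * X ^ (k - 2) * GG g (pmE m' c) := h4
        _ ≤ A1 P g ^ 2 * 2 * 1 := by gcongr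
        _ = 2 * A1 P g ^ 2 * 1 := by ring
        _ ≤ 2 * A1 P g ^ 2 * pmG R1 (pmE m' c) :=
          mul_le_mul_of_nonneg_left (hGr _) (by positivity)
  · intro c hz
    obtain ⟨h1, h2⟩ := pmz_ne hz
    have hr : pmE m' c ∈ pmNC P m m' := pmE_mem h1
    have hbs : cset c m' ⊆ P \ sup1 (pmE m' c) := cset_subset_pm m' c
    have hb : cset c m' ∈ Pool.Agent.H16.lev (P \ sup1 (pmE m' c)) R1 :=
      Pool.Agent.H16.mem_lev.2 ⟨hbs, h2⟩
    have h3 := pmz_mk (g := g) (R := R) (R1 := R1) hm hr hb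
    rw [pmK_pmE] at h3
    have h4 : zt g R (pmq m m') (pmE m' c) ≠ 0 := by
      intro h
      apply hz
      rw [h3, h]
      simp
    have h5 : (nn (pmE m' c) : ℝ) ≤ R := by
      by_contra hcon
      have h6 := pm_zt hP hg R hm _ hr
      rw [if_neg hcon, zero_mul] at h6
      exact h4 (abs_eq_zero.1 (le_antisymm h6 (abs_nonneg _)))
    have h6 := pm_prod_mk hr hbs (fun p o => if o = none then (1 : ℝ) else (p : ℝ))
      (fun p _ => if_pos rfl)
    rw [pmK_pmE] at h6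
    have h7 : (nn c : ℝ) = ((∏ p ∈ cset c m', p : ℕ) : ℝ) * (nn (pmE m' c) : ℝ) := by
      unfold nn
      push_cast
      have h8 : ∀ x : Col P k, ∏ p : {p // p ∈ P}, (if x p = none then (1 : ℝ) else ((p : ℕ) : ℝ)) =
          ∏ p : {p // p ∈ P}, (if x p = none then (1 : ℝ) else ((p : ℕ) : ℝ)) := fun _ => rfl
      refine h6.trans ?_
      congr 1
    rw [h7, mul_comm R R1]
    exact mul_le_mul h2 h5 (Nat.cast_nonneg _) (by linarith)
  · have hq0 : ∀ p ∈ P, ∀ j, 0 ≤ qm m p j := by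
      intro p hp j
      unfold qm
      have := hpr p hp
      split_ifs
      · exact le_refl _
      · exact (one_div_pos.2 (by linarith)).le
    have hq1 : ∀ p ∈ P, ∑ j, qm m p j ≤ 1 := by
      intro p hp
      have h2 := hpr p hp
      have h3 : (k : ℝ) ≤ (p : ℝ) - 1 := by
        have h4 : k + 1 ≤ p := by have := hPk p hp; omega
        have h5 : ((k + 1 : ℕ) : ℝ) ≤ p := by exact_mod_cast h4
        push_cast at h5
        linarith
      calc ∑ j, qm m p j ≤ ∑ _j : Fin k, 1 / ((p : ℝ) - 1) := by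
            refine Finset.sum_le_sum fun j _ => ?_
            unfold qm
            split_ifs
            · exact (one_div_pos.2 (by linarith)).le
            · exact le_refl _
        _ = k * (1 / ((p : ℝ) - 1)) := by
          rw [Finset.sum_const, Finset.card_univ, Fintype.card_fin, nsmul_eq_mul]
        _ ≤ 1 := by
          rw [mul_one_div, div_le_one (by linarith)]
          exact h3
    refine (EE_upper (qm m) hq0 hq1 (pmz g R R1 m m')).trans ?_
    rw [pm_sum hm R1 _ (fun c hc => pmz_ne (fun h => hc (by rw [h]; simp)))]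
    set w : ℕ → ℝ := fun p => 1 / (p : ℝ) + ((p : ℝ) / ((p : ℝ) - 1) ^ 2 - 1 / p) with hw
    have hw1 : ∀ p, w p = (p : ℝ) / ((p : ℝ) - 1) ^ 2 := fun p => by rw [hw]; ring
    have hw0 : ∀ p ∈ P, 0 ≤ w p := fun p hp => by rw [hw1]; positivity
    have hrow : ∀ r ∈ pmNC P m m', ∑ b ∈ Pool.Agent.H16.lev (P \ sup1 r) R1,
        (∏ p : {p // p ∈ P}, dw 1 (qm m p) (pmK m' r b p)) * pmz g R R1 m m' (pmK m' r b) ^ 2 ≤
        (A1 P g ^ 2 * X ^ (k - 2)) ^ 2 / G1 P R1 * (GG g r ^ 2 * ∏ p ∈ sup1 r, w p) := by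
      intro r hr
      have hr' := (Finset.mem_filter.1 hr).2
      have hGp : 0 < pmG R1 r := by linarith [hGr r]
      have h1 : ∀ b ∈ Pool.Agent.H16.lev (P \ sup1 r) R1,
          (∏ p : {p // p ∈ P}, dw 1 (qm m p) (pmK m' r b p)) * pmz g R R1 m m' (pmK m' r b) ^ 2 =
          ((∏ p ∈ sup1 r, 1 / ((p : ℝ) - 1)) * zt g R (pmq m m') r ^ 2 / pmG R1 r ^ 2) *
            ∏ p ∈ b, 1 / ((p : ℝ) - 1) := by
        intro b hb
        obtain ⟨hb1, hb2⟩ := Pool.Agent.H16.mem_lev.1 hb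
        rw [pmz_mk hm hr hb, pm_prod_mk hr hb1 (fun p o => dw 1 (qm m p) o) (fun p _ => rfl)]
        have h2 : ∏ p ∈ b, dw 1 (qm m p) (some m') = ∏ p ∈ b, 1 / ((p : ℝ) - 1) := by
          refine Finset.prod_congr rfl fun p _ => ?_
          show 1 * qm m p m' = _
          unfold qm
          rw [if_neg (Ne.symm hm), one_mul]
        have h3 : ∏ p : {p // p ∈ P}, dw 1 (qm m p) (r p) = ∏ p ∈ sup1 r, 1 / ((p : ℝ) - 1) := by
          rw [prod_sup1]
          refine Finset.prod_congr rfl fun p _ => ?_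
          cases hc : r p with
          | none => simp [dw]
          | some j =>
            have hj : j ≠ m := fun h => (hr' p).1 (by rw [hc, h])
            simp [dw, qm, hj]
        rw [h2, h3]
        have h4 : ((-1 : ℝ) ^ b.card) ^ 2 = 1 := by
          rw [← pow_mul, mul_comm, pow_mul]
          norm_num
        rw [div_pow, mul_pow, h4, one_mul]
        ring
      rw [Finset.sum_congr rfl h1, ← Finset.mul_sum]
      have h2 : ∑ b ∈ Pool.Agent.H16.lev (P \ sup1 r) R1, ∏ p ∈ b, 1 / ((p : ℝ) - 1) = pmG R1 r := rfl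
      rw [h2]
      have h3 : (∏ p ∈ sup1 r, 1 / ((p : ℝ) - 1)) * zt g R (pmq m m') r ^ 2 / pmG R1 r ^ 2 * pmG R1 r =
          (∏ p ∈ sup1 r, 1 / ((p : ℝ) - 1)) * zt g R (pmq m m') r ^ 2 * (1 / pmG R1 r) := by
        field_simp
      rw [h3]
      have h4 : 1 / pmG R1 r ≤ 1 / G1 P R1 * ∏ p ∈ sup1 r, ((p : ℝ) / ((p : ℝ) - 1)) := by
        have h5 := G1_mul_le P hP (sup1 r) (sup1_subset r) R1
        have h6 : (∏ p ∈ sup1 r, (1 - 1 / (p : ℝ))) * ∏ p ∈ sup1 r, ((p : ℝ) / ((p : ℝ) - 1)) = 1 := by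
          rw [← Finset.prod_mul_distrib]
          refine Finset.prod_eq_one fun p hp => ?_
          have h7 := hpr p (sup1_subset r hp)
          have h8 : (p : ℝ) - 1 ≠ 0 := by linarith
          have h9 : (p : ℝ) ≠ 0 := by linarith
          field_simp
        have h7 : 0 < ∏ p ∈ sup1 r, ((p : ℝ) / ((p : ℝ) - 1)) := by
          refine Finset.prod_pos fun p hp => ?_
          have h7 := hpr p (sup1_subset r hp)
          exact div_pos (by linarith) (by linarith)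
        rw [div_mul_eq_mul_div, one_mul, div_le_div_iff₀ hGp (by linarith), one_mul]
        calc G1 P R1 = G1 P R1 * ((∏ p ∈ sup1 r, (1 - 1 / (p : ℝ))) *
              ∏ p ∈ sup1 r, ((p : ℝ) / ((p : ℝ) - 1))) := by rw [h6, mul_one]
          _ = (G1 P R1 * ∏ p ∈ sup1 r, (1 - 1 / (p : ℝ))) * ∏ p ∈ sup1 r, ((p : ℝ) / ((p : ℝ) - 1)) := by
            ring
          _ ≤ pmG R1 r * ∏ p ∈ sup1 r, ((p : ℝ) / ((p : ℝ) - 1)) :=
            mul_le_mul_of_nonneg_right h5 h7.le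
          _ = _ := mul_comm _ _
      have h5 : zt g R (pmq m m') r ^ 2 ≤ (A1 P g ^ 2 * X ^ (k - 2) * GG g r) ^ 2 := by
        rw [← sq_abs]
        exact pow_le_pow_left₀ (abs_nonneg _) (hzt r hr) 2
      have h6 : 0 ≤ ∏ p ∈ sup1 r, 1 / ((p : ℝ) - 1) := Finset.prod_nonneg fun p hp => by
        have h7 := hpr p (sup1_subset r hp)
        exact (one_div_pos.2 (by linarith)).le
      have h8 : (∏ p ∈ sup1 r, 1 / ((p : ℝ) - 1)) * ∏ p ∈ sup1 r, ((p : ℝ) / ((p : ℝ) - 1)) =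
          ∏ p ∈ sup1 r, w p := by
        rw [← Finset.prod_mul_distrib]
        refine Finset.prod_congr rfl fun p hp => ?_
        have h7 := hpr p (sup1_subset r hp)
        have h8 : (p : ℝ) - 1 ≠ 0 := by linarith
        rw [hw1]
        field_simp
      calc (∏ p ∈ sup1 r, 1 / ((p : ℝ) - 1)) * zt g R (pmq m m') r ^ 2 * (1 / pmG R1 r)
          ≤ (∏ p ∈ sup1 r, 1 / ((p : ℝ) - 1)) * (A1 P g ^ 2 * X ^ (k - 2) * GG g r) ^ 2 *
              (1 / G1 P R1 * ∏ p ∈ sup1 r, ((p : ℝ) / ((p : ℝ) - 1))) :=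
            mul_le_mul (mul_le_mul_of_nonneg_left h5 h6) h4 (by positivity)
              (mul_nonneg h6 (sq_nonneg _))
        _ = (A1 P g ^ 2 * X ^ (k - 2)) ^ 2 / G1 P R1 * (GG g r ^ 2 *
              ((∏ p ∈ sup1 r, 1 / ((p : ℝ) - 1)) * ∏ p ∈ sup1 r, ((p : ℝ) / ((p : ℝ) - 1)))) := by ring
        _ = _ := by rw [h8]
    refine (Finset.sum_le_sum hrow).trans ?_
    rw [← Finset.mul_sum]
    set Y : ℝ := ∏ p ∈ P, (1 + ((p : ℝ) / ((p : ℝ) - 1) ^ 2 - 1 / p)) with hY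
    have hY0 : 0 ≤ Y := Finset.prod_nonneg fun p hp => by linarith [(pm_e3_le (hp2 p hp)).1]
    have hYle : Y ^ (k - 2) ≤ Real.exp (3 * (k * σ)) := by
      have h1 : Y ≤ Real.exp (3 * σ) := by
        refine (prod_one_add_le_exp P _ fun p hp => (pm_e3_le (hp2 p hp)).1).trans
          (Real.exp_le_exp.2 ?_)
        rw [hσdef, Finset.mul_sum]
        exact Finset.sum_le_sum fun p hp => (pm_e3_le (hp2 p hp)).2
      calc Y ^ (k - 2) ≤ Real.exp (3 * σ) ^ (k - 2) := pow_le_pow_left₀ hY0 h1 _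
        _ ≤ Real.exp (3 * σ) ^ k := pow_le_pow_right₀ (Real.one_le_exp (by positivity)) (Nat.sub_le _ _)
        _ = Real.exp (3 * (k * σ)) := by
          rw [← Real.exp_nat_mul]
          congr 1
          ring
    have hW : ∑ D ∈ P.powerset, g (∏ p ∈ D, p) ^ 2 * ∏ p ∈ D, w p ≤ Y * A2 P g := by
      have := sum_powerset_perturb (fun p => 1 / (p : ℝ))
        (fun p => (p : ℝ) / ((p : ℝ) - 1) ^ 2 - 1 / p) P (fun p _ => by positivity)
        (fun p hp => (pm_e3_le (hp2 p hp)).1) (fun D => g (∏ p ∈ D, p) ^ 2)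
        (fun D _ => sq_nonneg _)
        (fun D hD D' hD' => pow_le_pow_left₀ (hg.nonneg D hD) (hg.anti D hD D' hD') 2)
      rw [A2_eq]
      exact this
    have hW0 : 0 ≤ ∑ D ∈ P.powerset, g (∏ p ∈ D, p) ^ 2 * ∏ p ∈ D, w p :=
      Finset.sum_nonneg fun D hD => mul_nonneg (sq_nonneg _)
        (Finset.prod_nonneg fun p hp => hw0 p (Finset.mem_powerset.1 hD hp))
    have hfac : (X ^ (k - 2)) ^ 2 * Y ^ (k - 2) ≤ 1 + 10 * (k * σ) := by
      calc (X ^ (k - 2)) ^ 2 * Y ^ (k - 2) ≤ Real.exp (k * σ) ^ 2 * Real.exp (3 * (k * σ)) := by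
            gcongr
        _ = Real.exp (5 * (k * σ)) := by
            rw [← Real.exp_nat_mul, ← Real.exp_add]
            congr 1
            push_cast
            ring
        _ ≤ 1 + 2 * (5 * (k * σ)) := pm_exp_le (by positivity) (by linarith)
        _ = _ := by ring
    calc (A1 P g ^ 2 * X ^ (k - 2)) ^ 2 / G1 P R1 * ∑ r ∈ pmNC P m m', GG g r ^ 2 * ∏ p ∈ sup1 r, w p
        ≤ (A1 P g ^ 2 * X ^ (k - 2)) ^ 2 / G1 P R1 *
          (∑ D ∈ P.powerset, g (∏ p ∈ D, p) ^ 2 * ∏ p ∈ D, w p) ^ (k - 2) :=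
          mul_le_mul_of_nonneg_left (pm_sum_col hm hg w hw0) (by positivity)
      _ ≤ (A1 P g ^ 2 * X ^ (k - 2)) ^ 2 / G1 P R1 * (Y * A2 P g) ^ (k - 2) :=
          mul_le_mul_of_nonneg_left (pow_le_pow_left₀ hW0 hW _) (by positivity)
      _ = ((X ^ (k - 2)) ^ 2 * Y ^ (k - 2)) * (A1 P g ^ 4 * A2 P g ^ (k - 2) / G1 P R1) := by
          rw [mul_pow Y]
          ring
      _ ≤ (1 + 10 * (k * σ)) * (A1 P g ^ 4 * A2 P g ^ (k - 2) / G1 P R1) :=
          mul_le_mul_of_nonneg_right hfac (by positivity)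
      _ = _ := by ring

end Pool.Agent.H21.QG
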