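import Pool.Agent.H21.QG.Sums

/-!
JOB QG-11 (about 120 lines): upper bound for pairs of primes.

Proof. Take `z` from `pair_model` (H21/QG/PairModel.lean) with `g = gst n ρ`, `R = RQ ℓ`, `R1 = R1 ℓ`, positions `m, m'`.
* Pointwise: if `aw ℓ y (ν + h m) ≠ 0` and `ν + h m'` is a prime `> y`, then no `p ∈ P` (all `p ≤ y`) divides
  `ν + h m` (a prime `> y`, `aw_ne_zero`) or `ν + h m'`, so `ocol h P ν p ∉ {some m, some m'}` (`outc_eq_some`), and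
  `LQ = (MT.Lam ..)^2 = (∑ c, z c ∏ psi ..)^2`. Hence the left side is
  `≤ ∑ ν, aw ℓ y (ν + h m) (∑ c, z c ∏ psi (qm m p) (c p) (ocol h P ν p))^2` (all terms are `≥ 0`).
* `T1gen` with `q0 = qm m`, `Z = 2 A1^2`, `R2 = RQ ℓ * R1 ℓ` (`R2 ^ 2 = YQ ℓ`), `ω ν = aw ℓ y (ν + h m)`, `q = qq h (h m)`,
  hypothesis `hM` from `shift_rem` (as in `S23`, H16/MT11.lean) and `EE (qq h (h m)) = EE (qm m)` by `EE_congr`
  (as in `S2_lower`).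
* error: `∏ P (1 + ∑ j, qm m p j) ≤ ∏ P (1 + k/(p-1)) ≤ B1` is the hypothesis `hB1`.
* main term: `pair_model` (iv), with `10 k σ ≤ 1/100` from `hσ`.
-/

set_option autoImplicit false

open Finset Filter Topology

namespace Pool.Agent.H21.QG

open Pool.Agent.H16
open Pool.Agent.H90 (MT.Col MT.Lam MT.psi MT.zz MT.part MT.nn MT.GOK MT.EE MT.A1 MT.A2 MT.B1 MT.qm)

variable {k : ℕ} {P : Finset ℕ} {n : ℕ} {ρ ℓ : ℝ}

lemma pairSum_level (ℓ : ℝ) : (RQ ℓ * R1 ℓ) ^ 2 = YQ ℓ := by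
  unfold RQ R1 YQ
  rw [← Real.exp_add, ← Real.exp_nat_mul]
  congr 1
  push_cast
  ring

lemma pairSum_lev (P : Finset ℕ) (ℓ : ℝ) :
    Pool.Agent.H90.MT.lev P ((RQ ℓ * R1 ℓ) ^ 2) = lev P (YQ ℓ) := by
  rw [pairSum_level]
  rfl

lemma pairSum_qm_nonneg (hP : ∀ p ∈ P, p.Prime) (m : Fin k) : ∀ p ∈ P, ∀ j, 0 ≤ MT.qm m p j := by
  intro p hp j
  unfold MT.qm
  have : (2 : ℝ) ≤ p := by exact_mod_cast (hP p hp).two_le
  split_ifs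
  · exact le_rfl
  · exact div_nonneg zero_le_one (by linarith)

lemma pairSum_qm_sum (hP : ∀ p ∈ P, p.Prime) (m : Fin k) {p : ℕ} (hp : p ∈ P) :
    ∑ j, MT.qm m p j ≤ (k : ℝ) / ((p : ℝ) - 1) := by
  have h2 : (2 : ℝ) ≤ p := by exact_mod_cast (hP p hp).two_le
  have h1 : ∀ j ∈ (Finset.univ : Finset (Fin k)), MT.qm m p j ≤ 1 / ((p : ℝ) - 1) := by
    intro j _
    unfold MT.qm
    split_ifs
    · exact div_nonneg zero_le_one (by linarith)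
    · exact le_rfl
  refine (Finset.sum_le_sum h1).trans (le_of_eq ?_)
  rw [Finset.sum_const, Finset.card_univ, Fintype.card_fin, nsmul_eq_mul, mul_one_div]

lemma pairSum_point (hP : ∀ p ∈ P, p.Prime) (h : Fin k → ℕ)
    (hPh : ∀ p ∈ P, ∀ j j', j ≠ j' → ¬ p ∣ nd (h j) (h j')) (y : ℕ) (hPy : ∀ p ∈ P, p ≤ y) (j : Fin k)
    {ν : ℕ} (hpr : (ν + h j).Prime) (hy : y < ν + h j) (p : {p // p ∈ P}) : ocol h P ν p ≠ some j := by
  intro hcon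
  have h1 : outc h ν p = some j := hcon
  rw [outc_eq_some (hPh p p.2)] at h1
  have h2 := (Nat.prime_dvd_prime_iff_eq (hP p p.2) hpr).mp h1
  have h3 := hPy p p.2
  omega

lemma pair_sum (hP : ∀ p ∈ P, p.Prime) (hPk : ∀ p ∈ P, 2 * k + 2 < p)
    (hℓ : 0 ≤ ℓ) (hn : 1 ≤ n) (hρ : 0 ≤ ρ)
    (hσ : 8000 * (k : ℝ) ^ 2 * ∑ p ∈ P, 1 / ((p : ℝ) - 1) ^ 2 ≤ 1)
    (h : Fin k → ℕ) (hPh : ∀ p ∈ P, ∀ j j', j ≠ j' → ¬ p ∣ nd (h j) (h j')) (y W A0 : ℕ)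
    (m m' : Fin k) (hm : m ≠ m') (hPy : ∀ p ∈ P, p ≤ y) (hi : (h m : ℝ) ≤ Real.exp ℓ / 9)
    (hcop : Nat.Coprime (A0 + h m) W)
    (M : Finset ℕ → ℝ) (hM0 : ∀ D, D ⊆ P → 0 ≤ M D)
    (hM : ∀ (A0 : ℕ) (b : ℕ → ℕ), Nat.Coprime A0 W →
      ∀ D ∈ lev P (YQ ℓ), (∀ p ∈ D, ¬ p ∣ b p) →
        |RD ((Ioc 0 ⌊Real.exp ℓ⌋₊).filter (fun n => n ≡ A0 [MOD W])) (aw ℓ y) (cb b)
          ((∑ n ∈ Ioc 0 ⌊Real.exp ℓ⌋₊, aw ℓ y n) / (W.totient : ℝ)) (fun p => 1 / ((p : ℝ) - 1)) D| ≤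
          M D) (B1 E : ℝ)
    (hB1 : ∏ p ∈ P, (1 + (k : ℝ) / ((p : ℝ) - 1)) ≤ B1)
    (hE : ∑ D ∈ lev P (YQ ℓ), (((k + 1) ^ 2 : ℕ) : ℝ) ^ #D * M D ≤ E) :
    ∑ ν ∈ S0 ℓ W A0, aw ℓ y (ν + h m) * (if (ν + h m').Prime ∧ y < ν + h m' then 1 else 0) *
        LQ h P n ρ ℓ ν ≤
      XT ℓ y / (W.totient : ℝ) *
        ((1 + 1 / 100) * MT.A1 P (gst n ρ) ^ 4 * MT.A2 P (gst n ρ) ^ (k - 2) / G1 P (R1 ℓ)) +
      (2 * MT.A1 P (gst n ρ) ^ 2 * B1) ^ 2 * E := by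
  classical
  have hk : 0 < k := Fin.pos m
  have hk1 : (1 : ℝ) ≤ k := by exact_mod_cast hk
  set σ := ∑ p ∈ P, 1 / ((p : ℝ) - 1) ^ 2 with hσdef
  have hσ0 : 0 ≤ σ := Finset.sum_nonneg fun p _ => by positivity
  have hkσ : (k : ℝ) * σ ≤ 1 / 8000 := by
    have h1 : (k : ℝ) * σ ≤ (k : ℝ) ^ 2 * σ := by
      apply mul_le_mul_of_nonneg_right _ hσ0
      nlinarith
    linarith
  have hR1 : 1 ≤ R1 ℓ := Real.one_le_exp (by positivity)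
  have hRQ : 1 ≤ RQ ℓ := Real.one_le_exp (by positivity)
  obtain ⟨z, hz1, hz2, hz3, hz4⟩ := pair_model hP hPk (gst n ρ) (gst_GOK hP hn hρ) (RQ ℓ) (R1 ℓ) hR1 m m' hm
    (by linarith)
  set A1v := MT.A1 P (gst n ρ) with hA1
  set A2v := MT.A2 P (gst n ρ) with hA2
  set X := XT ℓ y / (W.totient : ℝ) with hX
  have hX0 : 0 ≤ X :=
    div_nonneg (Finset.sum_nonneg (fun n _ => aw_nonneg _ _ _)) (Nat.cast_nonneg _)
  set F : MT.Col P k → ℝ := fun a => ∑ c : MT.Col P k, z c * ∏ p : {p // p ∈ P}, MT.psi (MT.qm m p) (c p) (a p)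
    with hF
  -- pointwise
  have hpt : ∑ ν ∈ S0 ℓ W A0, aw ℓ y (ν + h m) * (if (ν + h m').Prime ∧ y < ν + h m' then 1 else 0) *
        LQ h P n ρ ℓ ν ≤ ∑ ν ∈ S0 ℓ W A0, aw ℓ y (ν + h m) * F (ocol h P ν) ^ 2 := by
    refine Finset.sum_le_sum fun ν _ => ?_
    have h0 : 0 ≤ aw ℓ y (ν + h m) := aw_nonneg _ _ _
    split_ifs with hc
    · by_cases ha : aw ℓ y (ν + h m) = 0
      · rw [ha]
        simp
      · obtain ⟨g1, g2, _⟩ := aw_ne_zero ha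
        rw [mul_one]
        refine mul_le_mul_of_nonneg_left (le_of_eq ?_) h0
        unfold LQ
        rw [hF]
        simp only
        rw [hz3 (ocol h P ν) fun p => ⟨pairSum_point hP h hPh y hPy m g1 g2 p,
          pairSum_point hP h hPh y hPy m' hc.1 hc.2 p⟩]
    · rw [mul_zero, zero_mul]
      exact mul_nonneg h0 (sq_nonneg _)
  refine hpt.trans ?_
  have hT := T1gen hk hP (MT.qm m) (pairSum_qm_nonneg hP m) z (2 * A1v ^ 2) (RQ ℓ * R1 ℓ) (by positivity)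
    (by nlinarith) hz1 hz2 (S0 ℓ W A0) (fun ν => aw ℓ y (ν + h m)) (ocol h P) X (qq h (h m)) M (by
      rw [pairSum_lev]
      intro D hD b
      exact shift_rem h P hP hPh y W A0 (h m) hPy hi hcop _ M hM0 hM D hD b)
  rw [pairSum_lev] at hT
  have hEE : MT.EE (qq h (h m)) (fun a : MT.Col P k => F a ^ 2) = MT.EE (MT.qm m) (fun a => F a ^ 2) := by
    apply EE_congr
    intro p hp
    funext j'
    unfold qq MT.qm
    by_cases hj : j' = m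
    · rw [if_pos hj, if_pos]
      rw [hj, nd_self]; exact dvd_zero p
    · rw [if_neg hj, if_neg]
      exact hPh p hp m j' (Ne.symm hj)
  have hT2 := (abs_le.mp hT).2
  have hprod : ∏ p ∈ P, (1 + ∑ j, MT.qm m p j) ≤ B1 := by
    refine le_trans (Finset.prod_le_prod (fun p hp => ?_) fun p hp => ?_) hB1
    · have : 0 ≤ ∑ j : Fin k, MT.qm m p j := Finset.sum_nonneg fun j _ => pairSum_qm_nonneg hP m p hp j
      linarith
    · have := pairSum_qm_sum hP m hp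
      linarith
  have hprod0 : 0 ≤ ∏ p ∈ P, (1 + ∑ j, MT.qm m p j) := Finset.prod_nonneg fun p hp => by
    have : 0 ≤ ∑ j : Fin k, MT.qm m p j := Finset.sum_nonneg fun j _ => pairSum_qm_nonneg hP m p hp j
    linarith
  have hsumE : ∑ D ∈ lev P (YQ ℓ), ((k : ℝ) + 1) ^ (2 * #D) * M D ≤ E := by
    refine le_trans (le_of_eq ?_) hE
    apply Finset.sum_congr rfl
    intro D _
    push_cast
    rw [pow_mul]
  have hsum0 : 0 ≤ ∑ D ∈ lev P (YQ ℓ), ((k : ℝ) + 1) ^ (2 * #D) * M D := by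
    apply Finset.sum_nonneg
    intro D hD
    exact mul_nonneg (by positivity) (hM0 D (mem_lev.mp hD).1)
  have herr : (2 * A1v ^ 2 * ∏ p ∈ P, (1 + ∑ j, MT.qm m p j)) ^ 2 *
      ∑ D ∈ lev P (YQ ℓ), ((k : ℝ) + 1) ^ (2 * #D) * M D ≤ (2 * A1v ^ 2 * B1) ^ 2 * E := by
    refine mul_le_mul (pow_le_pow_left₀ (mul_nonneg (by positivity) hprod0)
      (mul_le_mul_of_nonneg_left hprod (by positivity)) 2) hsumE hsum0 (by positivity)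
  have hG : 1 ≤ G1 P (R1 ℓ) := G1_ge_one P hP (R1 ℓ) hR1
  have hA20 : 0 ≤ A2v := by
    have := A2_ge_one (P := P) hP hn hρ
    linarith
  have hmain : MT.EE (MT.qm m) (fun a : MT.Col P k => F a ^ 2) ≤
      (1 + 1 / 100) * A1v ^ 4 * A2v ^ (k - 2) / G1 P (R1 ℓ) := by
    refine hz4.trans ?_
    have h1 : 0 ≤ A1v ^ 4 * A2v ^ (k - 2) / G1 P (R1 ℓ) :=
      div_nonneg (mul_nonneg (by positivity) (pow_nonneg hA20 _)) (by linarith)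
    have h2 : (1 + 10 * ((k : ℝ) * σ)) ≤ 1 + 1 / 100 := by linarith
    calc (1 + 10 * ((k : ℝ) * σ)) * A1v ^ 4 * A2v ^ (k - 2) / G1 P (R1 ℓ)
        = (1 + 10 * ((k : ℝ) * σ)) * (A1v ^ 4 * A2v ^ (k - 2) / G1 P (R1 ℓ)) := by ring
      _ ≤ (1 + 1 / 100) * (A1v ^ 4 * A2v ^ (k - 2) / G1 P (R1 ℓ)) := mul_le_mul_of_nonneg_right h2 h1
      _ = _ := by ring
  have hfin := mul_le_mul_of_nonneg_left hmain hX0
  have hT3 : ∑ ν ∈ S0 ℓ W A0, aw ℓ y (ν + h m) * F (ocol h P ν) ^ 2 -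
      X * MT.EE (qq h (h m)) (fun a : MT.Col P k => F a ^ 2) ≤
      (2 * A1v ^ 2 * ∏ p ∈ P, (1 + ∑ j, MT.qm m p j)) ^ 2 *
      ∑ D ∈ lev P (YQ ℓ), ((k : ℝ) + 1) ^ (2 * #D) * M D := hT2
  rw [hEE] at hT3
  linarith

end Pool.Agent.H21.QG
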