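import Pool.Agent.H21.QG.LowerModel
import Pool.Agent.H21.QG.TentClass
import Pool.Agent.H21.QG.PairModel
import Pool.Agent.H21.QG.ErrGen

/-!
JOB QG-10 (about 250 lines): the weighted sums.

Adaptation of H16/MT11.lean. Level: `RQ ℓ ^ 2 = exp (ℓ/100) ≤ YQ ℓ`, so `lev P (RQ ℓ ^ 2) ⊆ lev P (YQ ℓ)`
(for `0 ≤ ℓ`); `(RQ ℓ * R1 ℓ) ^ 2 = YQ ℓ` exactly.
`T1Q`: as `T1_use`, from `MT.T1` (enlarge the sum over `lev P (RQ ℓ ^ 2)` to `lev P (YQ ℓ)`, terms are nonnegative by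
`hM0`).
`S1Q_tent`, `S1Q_flat`: as `S1_upper` (weights `tent` resp. `1` instead of `ℓ`): `plain_rem` for weight `1`; for the
tent copy the proof of `plain_rem` with `tent_class` in place of `card_class_abs`.
`S2Q`: as `S2_lower` with `EE_lower_bd'`. `S3Q`: as `S3_upper`.
-/

set_option autoImplicit false

open Finset Filter Topology

namespace Pool.Agent.H21.QG

open Pool.Agent.H16
open Pool.Agent.H90 (MT.Col MT.Lam MT.psi MT.zz MT.part MT.nn MT.GOK MT.EE MT.A1 MT.A2 MT.B1 MT.T1 MT.T2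
  MT.T3 MT.T4)

variable {k : ℕ} {P : Finset ℕ} {n : ℕ} {ρ ℓ : ℝ}

lemma sums_RQ_sq_le (hℓ : 0 ≤ ℓ) : RQ ℓ ^ 2 ≤ YQ ℓ := by
  unfold RQ YQ
  rw [← Real.exp_nat_mul]
  apply Real.exp_le_exp.mpr
  push_cast
  linarith

lemma sums_lev_subset (hℓ : 0 ≤ ℓ) : Pool.Agent.H90.MT.lev P (RQ ℓ ^ 2) ⊆ lev P (YQ ℓ) := by
  intro D hD
  have h1 : D ∈ lev P (RQ ℓ ^ 2) := hD
  obtain ⟨h2, h3⟩ := mem_lev.mp h1
  exact mem_lev.mpr ⟨h2, h3.trans (sums_RQ_sq_le hℓ)⟩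

/-- general error term -/
theorem T1Q (hk : 0 < k) (hP : ∀ p ∈ P, p.Prime) (hn : 1 ≤ n) (hρ : 0 ≤ ρ) (hℓ : 0 ≤ ℓ)
    (h : Fin k → ℕ) (S : Finset ℕ) (ω : ℕ → ℝ) (X : ℝ) (q : ℕ → Fin k → ℝ) (M : Finset ℕ → ℝ)
    (hM0 : ∀ D, D ⊆ P → 0 ≤ M D)
    (hM : ∀ D ∈ lev P (YQ ℓ), ∀ b : ℕ → Fin k,
      |(∑ ν ∈ S, ω ν * ∏ p : {p // p ∈ P}, (if (p : ℕ) ∈ D → outc h ν p = some (b p) then (1 : ℝ) else 0)) -
        X * ∏ p ∈ D, q p (b p)| ≤ M D) (B E : ℝ)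
    (hB : ∏ p ∈ P, (1 + (k : ℝ) / p) ≤ B)
    (hE : ∑ D ∈ lev P (YQ ℓ), (((k + 1) ^ 2 : ℕ) : ℝ) ^ #D * M D ≤ E) :
    |∑ ν ∈ S, ω ν * LQ h P n ρ ℓ ν -
      X * MT.EE q (fun a : MT.Col P k => MT.Lam (gst n ρ) (RQ ℓ) a ^ 2)| ≤ B ^ 2 * E := by
  have h1 := MT.T1 hk hP (gst n ρ) (gst_GOK hP hn hρ) (RQ ℓ) (Real.one_le_exp (by positivity)) S ω
    (ocol h P) X q M (fun D hD b => hM D (sums_lev_subset hℓ hD) b)
  refine h1.trans ?_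
  have h2 : ∑ D ∈ Pool.Agent.H90.MT.lev P (RQ ℓ ^ 2), ((k : ℝ) + 1) ^ (2 * #D) * M D ≤ E := by
    refine le_trans ?_ hE
    have h3 : ∀ D : Finset ℕ, ((k : ℝ) + 1) ^ (2 * #D) = (((k + 1) ^ 2 : ℕ) : ℝ) ^ #D := by
      intro D
      push_cast
      rw [pow_mul]
    simp_rw [h3]
    refine Finset.sum_le_sum_of_subset_of_nonneg (sums_lev_subset hℓ) ?_
    intro D hD _
    exact mul_nonneg (by positivity) (hM0 D (mem_lev.mp hD).1)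
  have h3 : 0 ≤ ∑ D ∈ Pool.Agent.H90.MT.lev P (RQ ℓ ^ 2), ((k : ℝ) + 1) ^ (2 * #D) * M D := by
    apply Finset.sum_nonneg
    intro D hD
    exact mul_nonneg (by positivity) (hM0 D (mem_lev.mp (sums_lev_subset hℓ hD)).1)
  have h4 : 0 ≤ ∏ p ∈ P, (1 + (k : ℝ) / p) := Finset.prod_nonneg (fun p _ => by positivity)
  exact mul_le_mul (pow_le_pow_left₀ h4 hB 2) h2 h3 (by positivity)

/-- the remainder for a general weight with a class bound -/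
lemma sums_rem (h : Fin k → ℕ) (P : Finset ℕ) (hP : ∀ p ∈ P, p.Prime)
    (hPh : ∀ p ∈ P, ∀ j j', j ≠ j' → ¬ p ∣ nd (h j) (h j')) (W A0 N : ℕ) (hW : 0 < W)
    (hPW : ∀ p ∈ P, ¬ p ∣ W) (ω : ℕ → ℝ) (T C : ℝ)
    (hω : ∀ q a : ℕ, 0 < q → |∑ n ∈ (Ioc 0 N).filter (fun n => n ≡ a [MOD q]), ω n - T / q| ≤ C)
    (D : Finset ℕ) (hD : D ⊆ P) (b : ℕ → Fin k) :
    |(∑ n ∈ (Ioc 0 N).filter (fun n => n ≡ A0 [MOD W]), ω n *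
      ∏ p : {p // p ∈ P}, (if (p : ℕ) ∈ D → outc h n p = some (b p) then (1 : ℝ) else 0)) -
      T / W * ∏ p ∈ D, 1 / (p : ℝ)| ≤ C := by
  classical
  have hDp : ∀ p ∈ D, p.Prime := fun p hp => hP p (hD hp)
  set d := ∏ p ∈ D, p with hd
  have hdpos : 0 < d := Finset.prod_pos (fun p hp => (hDp p hp).pos)
  have hcop : Nat.Coprime W d := by
    rw [hd]
    apply Nat.Coprime.prod_right
    intro p hp
    exact ((Nat.Prime.coprime_iff_not_dvd (hDp p hp)).mpr (hPW p (hD hp))).symm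
  obtain ⟨b1, hb1⟩ := exists_class D hDp (fun p => (p - 1) * h (b p))
  obtain ⟨b0, hb0W, hb0d⟩ := Nat.chineseRemainder hcop A0 b1
  have hprod : ∀ n : ℕ, (∏ p : {p // p ∈ P}, (if (p : ℕ) ∈ D → outc h n p = some (b p) then (1 : ℝ) else 0)) =
      if ∀ p ∈ D, n ≡ (p - 1) * h (b p) [MOD p] then 1 else 0 := by
    intro n
    rw [Finset.prod_coe_sort P (fun p => if p ∈ D → outc h n p = some (b p) then (1 : ℝ) else 0),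
      Finset.prod_ite_zero]
    simp only [Finset.prod_const_one]
    have hiff : (∀ p ∈ P, p ∈ D → outc h n p = some (b p)) ↔
        ∀ p ∈ D, n ≡ (p - 1) * h (b p) [MOD p] := by
      constructor
      · intro h1 p hp
        have h2 := (outc_eq_some (hPh p (hD hp)) (b p)).mp (h1 p (hD hp) hp)
        have h3 := (class_shift (i := 0) (hDp p hp).one_le).mp h2
        rwa [add_zero, zero_add] at h3
      · intro h1 p _ hp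
        rw [outc_eq_some (hPh p (hD hp)), class_shift (i := 0) (hDp p hp).one_le, add_zero, zero_add]
        exact h1 p hp
    by_cases h1 : ∀ p ∈ D, n ≡ (p - 1) * h (b p) [MOD p]
    · rw [if_pos h1, if_pos (hiff.mpr h1)]
    · rw [if_neg h1, if_neg (fun h2 => h1 (hiff.mp h2))]
  have hcount : ∑ n ∈ (Ioc 0 N).filter (fun n => n ≡ A0 [MOD W]), ω n *
      ∏ p : {p // p ∈ P}, (if (p : ℕ) ∈ D → outc h n p = some (b p) then (1 : ℝ) else 0) =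
      ∑ n ∈ (Ioc 0 N).filter (fun n => n ≡ b0 [MOD W * d]), ω n := by
    simp_rw [hprod, mul_ite, mul_one, mul_zero]
    rw [← Finset.sum_filter, Finset.filter_filter]
    congr 1
    apply Finset.filter_congr
    intro n _
    rw [← Nat.modEq_and_modEq_iff_modEq_mul hcop, hd, modEq_prod_iff D hDp]
    have hb0p := (modEq_prod_iff D hDp b0 b1).mp hb0d
    constructor
    · rintro ⟨h1, h2⟩
      exact ⟨h1.trans hb0W.symm, fun p hp => (h2 p hp).trans ((hb1 p hp).symm.trans (hb0p p hp).symm)⟩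
    · rintro ⟨h1, h2⟩
      exact ⟨h1.trans hb0W, fun p hp => (h2 p hp).trans ((hb0p p hp).trans (hb1 p hp))⟩
  rw [hcount]
  have h1 := hω (W * d) b0 (Nat.mul_pos hW hdpos)
  have h2 : T / W * ∏ p ∈ D, 1 / (p : ℝ) = T / ((W * d : ℕ) : ℝ) := by
    rw [Finset.prod_div_distrib, Finset.prod_const_one, hd]
    push_cast
    have hW' : (W : ℝ) ≠ 0 := by exact_mod_cast hW.ne'
    field_simp
  rw [h2]
  exact h1

/-- the sum with a general weight -/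
lemma sums_S1 (hk : 0 < k) (hP : ∀ p ∈ P, p.Prime) (hPk : ∀ p ∈ P, k < p) (hn : 1 ≤ n) (hρ : 0 ≤ ρ)
    (hℓ : 0 ≤ ℓ) (h : Fin k → ℕ) (hPh : ∀ p ∈ P, ∀ j j', j ≠ j' → ¬ p ∣ nd (h j) (h j')) (W A0 : ℕ)
    (hW : 0 < W) (hPW : ∀ p ∈ P, ¬ p ∣ W) (B B' : ℝ)
    (hB : ∏ p ∈ P, (1 + (k : ℝ) / p) ≤ B)
    (hB' : ∏ p ∈ P, (1 + (((k + 1) ^ 2 : ℕ) : ℝ) / p) ≤ B') (ω : ℕ → ℝ) (T : ℝ) (hT : 0 ≤ T)
    (hω : ∀ q a : ℕ, 0 < q →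
      |∑ n ∈ (Ioc 0 ⌊Real.exp ℓ⌋₊).filter (fun n => n ≡ a [MOD q]), ω n - T / q| ≤ 30) :
    ∑ ν ∈ S0 ℓ W A0, ω ν * LQ h P n ρ ℓ ν ≤
      T / W * MT.A2 P (gst n ρ) ^ k + B ^ 2 * (30 * (YQ ℓ * B')) := by
  classical
  set Y := YQ ℓ with hY
  have hYpos : 0 < Y := Real.exp_pos _
  have h1 := T1Q (n := n) (ρ := ρ) hk hP hn hρ hℓ h (S0 ℓ W A0) ω
    (T / W) (fun p _ => 1 / (p : ℝ)) (fun _ => 30) (fun _ _ => by positivity)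
    (by
      intro D hD b
      exact sums_rem h P hP hPh W A0 ⌊Real.exp ℓ⌋₊ hW hPW ω T 30 hω D (mem_lev.mp hD).1 b)
    B (30 * (Y * B')) hB (by
      have h2 : ∑ D ∈ lev P Y, (((k + 1) ^ 2 : ℕ) : ℝ) ^ #D * 30 ≤
          ∑ D ∈ lev P Y, 30 * (Y * ((((k + 1) ^ 2 : ℕ) : ℝ) ^ #D * ∏ p ∈ D, 1 / (p : ℝ))) := by
        apply Finset.sum_le_sum
        intro D hD
        obtain ⟨hDP, hDY⟩ := mem_lev.mp hD
        have hd0 : (0 : ℝ) < ((∏ p ∈ D, p : ℕ) : ℝ) := by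
          exact_mod_cast Finset.prod_pos (fun p hp => (hP p (hDP hp)).pos)
        have e1 : ∏ p ∈ D, 1 / (p : ℝ) = 1 / ((∏ p ∈ D, p : ℕ) : ℝ) := by
          rw [Finset.prod_div_distrib, Finset.prod_const_one]; push_cast; rfl
        rw [e1]
        have e2 : 1 ≤ Y * (1 / ((∏ p ∈ D, p : ℕ) : ℝ)) := by
          rw [mul_one_div, le_div_iff₀ hd0, one_mul]; exact hDY
        have e3 : (0 : ℝ) ≤ 30 * (((k + 1) ^ 2 : ℕ) : ℝ) ^ #D := by positivity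
        calc (((k + 1) ^ 2 : ℕ) : ℝ) ^ #D * 30 = 30 * (((k + 1) ^ 2 : ℕ) : ℝ) ^ #D * 1 := by ring
          _ ≤ 30 * (((k + 1) ^ 2 : ℕ) : ℝ) ^ #D * (Y * (1 / ((∏ p ∈ D, p : ℕ) : ℝ))) :=
              mul_le_mul_of_nonneg_left e2 e3
          _ = _ := by ring
      refine h2.trans ?_
      rw [← Finset.mul_sum, ← Finset.mul_sum]
      apply mul_le_mul_of_nonneg_left _ (by positivity)
      apply mul_le_mul_of_nonneg_left _ hYpos.le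
      refine (sum_pow_card_prod_le P (lev P Y) (Finset.filter_subset _ _) (fun p => 1 / (p : ℝ))
        (fun p _ => by positivity) (((k + 1) ^ 2 : ℕ) : ℝ) (by positivity)).trans ?_
      refine le_trans (le_of_eq ?_) hB'
      apply Finset.prod_congr rfl
      intro p _
      rw [mul_one_div])
  have h3 := (abs_le.mp h1).2
  have h4 := MT.T2 hP hPk (gst n ρ) (gst_GOK hP hn hρ) (RQ ℓ)
  have h5 : T / W *
      MT.EE (fun p (_ : Fin k) => 1 / (p : ℝ)) (fun a : MT.Col P k => MT.Lam (gst n ρ) (RQ ℓ) a ^ 2) ≤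
      T / W * MT.A2 P (gst n ρ) ^ k := mul_le_mul_of_nonneg_left h4 (by positivity)
  linarith

/-- the sum with the smooth weight -/
lemma S1Q_tent (hk : 0 < k) (hP : ∀ p ∈ P, p.Prime) (hPk : ∀ p ∈ P, k < p) (hn : 1 ≤ n) (hρ : 0 ≤ ρ)
    (hℓ : 10 ≤ ℓ) (h : Fin k → ℕ) (hPh : ∀ p ∈ P, ∀ j j', j ≠ j' → ¬ p ∣ nd (h j) (h j')) (W A0 : ℕ)
    (hW : 0 < W) (hPW : ∀ p ∈ P, ¬ p ∣ W) (B B' : ℝ)
    (hB : ∏ p ∈ P, (1 + (k : ℝ) / p) ≤ B)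
    (hB' : ∏ p ∈ P, (1 + (((k + 1) ^ 2 : ℕ) : ℝ) / p) ≤ B') :
    ∑ ν ∈ S0 ℓ W A0, tent (Real.exp ℓ / 3) ν * LQ h P n ρ ℓ ν ≤
      TM ℓ / W * MT.A2 P (gst n ρ) ^ k + B ^ 2 * (30 * (YQ ℓ * B')) := by
  refine sums_S1 (n := n) (ρ := ρ) (ℓ := ℓ) hk hP hPk hn hρ (by linarith) h hPh W A0 hW hPW B B' hB hB' _ (TM ℓ) ?_ ?_
  · have := TM_ge hℓ
    have h2 := Real.exp_pos ℓ
    linarith
  · intro q a hq
    exact tent_class hℓ q a hq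

/-- the unweighted sum -/
lemma S1Q_flat (hk : 0 < k) (hP : ∀ p ∈ P, p.Prime) (hPk : ∀ p ∈ P, k < p) (hn : 1 ≤ n) (hρ : 0 ≤ ρ)
    (hℓ : 10 ≤ ℓ) (h : Fin k → ℕ) (hPh : ∀ p ∈ P, ∀ j j', j ≠ j' → ¬ p ∣ nd (h j) (h j')) (W A0 : ℕ)
    (hW : 0 < W) (hPW : ∀ p ∈ P, ¬ p ∣ W) (B B' : ℝ)
    (hB : ∏ p ∈ P, (1 + (k : ℝ) / p) ≤ B)
    (hB' : ∏ p ∈ P, (1 + (((k + 1) ^ 2 : ℕ) : ℝ) / p) ≤ B') :
    ∑ ν ∈ S0 ℓ W A0, LQ h P n ρ ℓ ν ≤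
      Real.exp ℓ / W * MT.A2 P (gst n ρ) ^ k + B ^ 2 * (30 * (YQ ℓ * B')) := by
  have h1 := sums_S1 (n := n) (ρ := ρ) (ℓ := ℓ) hk hP hPk hn hρ (by linarith) h hPh W A0 hW hPW B B' hB hB'
    (fun _ => 1) (⌊Real.exp ℓ⌋₊ : ℝ) (Nat.cast_nonneg _) (by
      intro q a hq
      rw [Finset.sum_const, nsmul_eq_mul, mul_one]
      exact (card_class_abs _ q a hq).trans (by norm_num))
  simp only [one_mul] at h1
  refine h1.trans ?_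
  have hW' : (0 : ℝ) < W := by exact_mod_cast hW
  have hA0 : 0 ≤ MT.A2 P (gst n ρ) ^ k := by
    have := A2_ge_one (P := P) hP hn hρ
    positivity
  have h2 : (⌊Real.exp ℓ⌋₊ : ℝ) / W * MT.A2 P (gst n ρ) ^ k ≤ Real.exp ℓ / W * MT.A2 P (gst n ρ) ^ k :=
    mul_le_mul_of_nonneg_right
      (div_le_div_of_nonneg_right (Nat.floor_le (Real.exp_pos _).le) hW'.le) hA0
  linarith

/-- sums over primes at a shift -/
lemma sums_S23 (hk : 0 < k) (hP : ∀ p ∈ P, p.Prime) (hn : 1 ≤ n) (hρ : 0 ≤ ρ)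
    (hℓ : 0 ≤ ℓ) (h : Fin k → ℕ) (hPh : ∀ p ∈ P, ∀ j j', j ≠ j' → ¬ p ∣ nd (h j) (h j')) (y W A0 i : ℕ)
    (hPy : ∀ p ∈ P, p ≤ y) (hi : (i : ℝ) ≤ Real.exp ℓ / 9) (hcop : Nat.Coprime (A0 + i) W)
    (M : Finset ℕ → ℝ) (hM0 : ∀ D, D ⊆ P → 0 ≤ M D)
    (hM : ∀ (A0 : ℕ) (b : ℕ → ℕ), Nat.Coprime A0 W →
      ∀ D ∈ lev P (YQ ℓ), (∀ p ∈ D, ¬ p ∣ b p) →
        |RD ((Ioc 0 ⌊Real.exp ℓ⌋₊).filter (fun n => n ≡ A0 [MOD W])) (aw ℓ y) (cb b)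
          ((∑ n ∈ Ioc 0 ⌊Real.exp ℓ⌋₊, aw ℓ y n) / (W.totient : ℝ)) (fun p => 1 / ((p : ℝ) - 1)) D| ≤
          M D) (B E : ℝ)
    (hB : ∏ p ∈ P, (1 + (k : ℝ) / p) ≤ B)
    (hE : ∑ D ∈ lev P (YQ ℓ), (((k + 1) ^ 2 : ℕ) : ℝ) ^ #D * M D ≤ E) :
    |∑ ν ∈ S0 ℓ W A0, aw ℓ y (ν + i) * LQ h P n ρ ℓ ν -
      XT ℓ y / (W.totient : ℝ) * MT.EE (qq h i) (fun a : MT.Col P k => MT.Lam (gst n ρ) (RQ ℓ) a ^ 2)| ≤
      B ^ 2 * E := by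
  classical
  apply T1Q (n := n) (ρ := ρ) hk hP hn hρ hℓ h (S0 ℓ W A0) (fun ν => aw ℓ y (ν + i))
    (XT ℓ y / (W.totient : ℝ)) (qq h i) M hM0 _ B E hB hE
  intro D hD b
  exact shift_rem h P hP hPh y W A0 i hPy hi hcop _ M hM0 hM D hD b

/-- lower bound at a position of the tuple -/
lemma S2Q {c L : ℝ} (hP : ∀ p ∈ P, p.Prime) (hPk : ∀ p ∈ P, 2 * k + 2 < p) (hk : 2 ≤ k)
    (hc : 0 < c) (hc1 : c ≤ 1) (hL : 0 < L) (hℓ : 0 < ℓ) (hn : 1 ≤ n) (hk2 : 2 ^ n ≤ k)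
    (hρ : ρ = rQ c k n ℓ)
    (HL : ∀ i < n, c / 4 * (2 ^ i * ρ) / L ≤ S1d P (gY ρ i))
    (HU : ∀ i < n, S1d P (gY ρ i) ≤ 1 / c * (2 ^ i * ρ) / L)
    (hσ : 8000 * (k : ℝ) ^ 2 * ∑ p ∈ P, 1 / ((p : ℝ) - 1) ^ 2 ≤ 1)
    (h : Fin k → ℕ) (hPh : ∀ p ∈ P, ∀ j j', j ≠ j' → ¬ p ∣ nd (h j) (h j')) (y W A0 : ℕ)
    (j : Fin k) (hPy : ∀ p ∈ P, p ≤ y) (hi : (h j : ℝ) ≤ Real.exp ℓ / 9)
    (hcop : Nat.Coprime (A0 + h j) W)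
    (M : Finset ℕ → ℝ) (hM0 : ∀ D, D ⊆ P → 0 ≤ M D)
    (hM : ∀ (A0 : ℕ) (b : ℕ → ℕ), Nat.Coprime A0 W →
      ∀ D ∈ lev P (YQ ℓ), (∀ p ∈ D, ¬ p ∣ b p) →
        |RD ((Ioc 0 ⌊Real.exp ℓ⌋₊).filter (fun n => n ≡ A0 [MOD W])) (aw ℓ y) (cb b)
          ((∑ n ∈ Ioc 0 ⌊Real.exp ℓ⌋₊, aw ℓ y n) / (W.totient : ℝ)) (fun p => 1 / ((p : ℝ) - 1)) D| ≤
          M D) (B E : ℝ)
    (hB : ∏ p ∈ P, (1 + (k : ℝ) / p) ≤ B)
    (hE : ∑ D ∈ lev P (YQ ℓ), (((k + 1) ^ 2 : ℕ) : ℝ) ^ #D * M D ≤ E) :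
    XT ℓ y / (W.totient : ℝ) *
        (MT.A1 P (gst n ρ) ^ 2 * ((1 - 1 / 100) * MT.A2 P (gst n ρ) ^ (k - 1))) - B ^ 2 * E ≤
      ∑ ν ∈ S0 ℓ W A0, aw ℓ y (ν + h j) * LQ h P n ρ ℓ ν := by
  have hρ0 : 0 ≤ ρ := by rw [hρ]; unfold rQ; positivity
  have h1 := sums_S23 (n := n) (ρ := ρ) (by omega) hP hn hρ0 hℓ.le h hPh y W A0 (h j) hPy hi hcop M hM0 hM
    B E hB hE
  have h2 := EE_lower_bd' hP hPk hk hc hc1 hL hℓ hn hk2 hρ HL HU hσ j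
  have h3 : MT.EE (qq h (h j)) (fun a : MT.Col P k => MT.Lam (gst n ρ) (RQ ℓ) a ^ 2) =
      MT.EE (fun p (j' : Fin k) => if j' = j then 0 else 1 / ((p : ℝ) - 1))
        (fun a : MT.Col P k => MT.Lam (gst n ρ) (RQ ℓ) a ^ 2) := by
    apply EE_congr
    intro p hp
    funext j'
    unfold qq
    by_cases hj : j' = j
    · rw [if_pos hj, if_pos]
      rw [hj, nd_self]; exact dvd_zero p
    · rw [if_neg hj, if_neg]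
      exact hPh p hp j j' (Ne.symm hj)
  rw [h3] at h1
  have hX : 0 ≤ XT ℓ y / (W.totient : ℝ) :=
    div_nonneg (Finset.sum_nonneg (fun n _ => aw_nonneg _ _ _)) (Nat.cast_nonneg _)
  have h4 := mul_le_mul_of_nonneg_left h2 hX
  have h5 := (abs_le.mp h1).1
  linarith

/-- upper bound at an uncovered position -/
lemma S3Q (hP : ∀ p ∈ P, p.Prime) (hPk : ∀ p ∈ P, 2 * k + 2 < p) (hk : 0 < k)
    (hℓ : 0 ≤ ℓ) (hn : 1 ≤ n) (hρ : 0 ≤ ρ)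
    (h : Fin k → ℕ) (hPh : ∀ p ∈ P, ∀ j j', j ≠ j' → ¬ p ∣ nd (h j) (h j')) (y W A0 i : ℕ)
    (hq2 : ∑ p ∈ P, ∑ j : Fin k, |qq h i p j - 1 / (p : ℝ)| ≤ 1 / 4)
    (hσ : (k : ℝ) * ∑ p ∈ P, 1 / ((p : ℝ) - 1) ^ 2 ≤ 1 / 4)
    (hPy : ∀ p ∈ P, p ≤ y) (hi : (i : ℝ) ≤ Real.exp ℓ / 9)
    (M : Finset ℕ → ℝ) (hM0 : ∀ D, D ⊆ P → 0 ≤ M D)
    (hM : ∀ (A0 : ℕ) (b : ℕ → ℕ), Nat.Coprime A0 W →
      ∀ D ∈ lev P (YQ ℓ), (∀ p ∈ D, ¬ p ∣ b p) →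
        |RD ((Ioc 0 ⌊Real.exp ℓ⌋₊).filter (fun n => n ≡ A0 [MOD W])) (aw ℓ y) (cb b)
          ((∑ n ∈ Ioc 0 ⌊Real.exp ℓ⌋₊, aw ℓ y n) / (W.totient : ℝ)) (fun p => 1 / ((p : ℝ) - 1)) D| ≤
          M D) (B E : ℝ)
    (hB : ∏ p ∈ P, (1 + (k : ℝ) / p) ≤ B)
    (hE : ∑ D ∈ lev P (YQ ℓ), (((k + 1) ^ 2 : ℕ) : ℝ) ^ #D * M D ≤ E)
    (hWy : ∀ p, p.Prime → p ∣ W → p ≤ y) :
    ∑ ν ∈ S0 ℓ W A0, aw ℓ y (ν + i) * LQ h P n ρ ℓ ν ≤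
      XT ℓ y / (W.totient : ℝ) * (8 * MT.A2 P (gst n ρ) ^ k) + B ^ 2 * E := by
  have hX : 0 ≤ XT ℓ y / (W.totient : ℝ) :=
    div_nonneg (Finset.sum_nonneg (fun n _ => aw_nonneg _ _ _)) (Nat.cast_nonneg _)
  have hB0 : 0 ≤ B := le_trans (Finset.prod_nonneg (fun p _ => by positivity)) hB
  have hE0 : 0 ≤ E := le_trans (Finset.sum_nonneg (fun D hD =>
    mul_nonneg (by positivity) (hM0 D (mem_lev.mp hD).1))) hE
  have hA := A2_ge_one (P := P) hP hn hρ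
  rcases Classical.em (Nat.Coprime (A0 + i) W) with hcop | hcop
  · have h1 := sums_S23 (n := n) (ρ := ρ) hk hP hn hρ hℓ h hPh y W A0 i hPy hi hcop M hM0 hM
      B E hB hE
    have h2 := MT.T3 hP hPk (gst n ρ) (gst_GOK hP hn hρ) (RQ ℓ) (qq h i) (by
        intro p hp j
        unfold qq
        have : (2 : ℝ) ≤ p := by exact_mod_cast (hP p hp).two_le
        split_ifs
        · exact le_rfl
        · exact div_nonneg zero_le_one (by linarith)) (by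
        intro p hp j
        unfold qq
        have : (2 : ℝ) ≤ p := by exact_mod_cast (hP p hp).two_le
        split_ifs
        · exact div_nonneg zero_le_one (by linarith)
        · exact le_rfl) hq2 hσ
    have h4 := mul_le_mul_of_nonneg_left h2 hX
    have h5 := (abs_le.mp h1).2
    linarith
  · have h1 : ∑ ν ∈ S0 ℓ W A0, aw ℓ y (ν + i) * LQ h P n ρ ℓ ν = 0 := by
      apply Finset.sum_eq_zero
      intro ν hν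
      unfold S0 at hν
      rw [Finset.mem_filter] at hν
      have h2 : aw ℓ y (ν + i) = 0 := by
        by_contra h0
        have h3 := aw_ne_zero_coprime ℓ y (ν + i) W hWy h0
        apply hcop
        have h4 : ν + i ≡ A0 + i [MOD W] := Nat.ModEq.add_right i hν.2
        unfold Nat.Coprime at h3 ⊢
        rw [← h4.gcd_eq]; exact h3
      rw [h2, zero_mul]
    rw [h1]
    positivity

end Pool.Agent.H21.QG
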